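import Mathlib

/-!
# 3SUM-Indexing in the generic group model, adaptive queries: definitions

`ask l` is the pair `(c, g)` chosen when `l` is the list of the labels read so far (the latest
first); the next label read is that of the number `c y + g`, where `y` is the number asked about.
-/

namespace Pool.Agent.GGE

open Finset

/-- the value at `y` of the affine form `r = (c, g)` -/
def fv {K : Type*} [Mul K] [Add K] (r : K × K) (y : K) : K := r.1 * y + r.2

section view

variable {K L : Type*} [Mul K] [Add K]

/-- the labels read in the first `k` steps of the query `y`, the latest first -/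
def view (ask : List L → K × K) (σ : K → L) (y : K) : ℕ → List L
  | 0 => []
  | k + 1 => σ (fv (ask (view ask σ y k)) y) :: view ask σ y k

/-- the form asked in step `k` -/
def fm (ask : List L → K × K) (σ : K → L) (y : K) (k : ℕ) : K × K := ask (view ask σ y k)

/-- the number whose label is read in step `k` -/
def ps (ask : List L → K × K) (σ : K → L) (y : K) (k : ℕ) : K := fv (fm ask σ y k) y

/-- the first `k` numbers read are not in the forbidden set `F` -/
def clean (ask : List L → K × K) (F : Finset K) (σ : K → L) (y : K) (k : ℕ) : Prop :=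
  ∀ i < k, ps ask σ y i ∉ F

/-- the query reads no forbidden number and accepts -/
def acc (ask : List L → K × K) (dec : List L → Prop) (T : ℕ) (F : Finset K) (σ : K → L)
    (y : K) : Prop :=
  clean ask F σ y T ∧ dec (view ask σ y T)

/-- the query asks a form of `V` before it has read a forbidden number -/
def asks (ask : List L → K × K) (T : ℕ) (V : Finset (K × K)) (F : Finset K) (σ : K → L)
    (y : K) : Prop :=
  ∃ k < T, clean ask F σ y k ∧ fm ask σ y k ∈ V

open Classical in
/-- the numbers read before the first forbidden one -/
noncomputable def reads (ask : List L → K × K) (T : ℕ) (F : Finset K) (σ : K → L) (y : K) :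
    Finset K :=
  ((range T).filter fun i => clean ask F σ y (i + 1)).image (ps ask σ y)

open Classical in
/-- the forms asked when the labels read are `l` (the latest first) -/
noncomputable def forms (ask : List L → K × K) : List L → Finset (K × K)
  | [] => ∅
  | _ :: l => insert (ask l) (forms ask l)

end view

section cond

variable {K L : Type} [Fintype K] [Fintype L] [DecidableEq K] [DecidableEq L]

/-- the labellings which agree with `σ` on `R` -/
def ext (R : Finset K) (σ : K ≃ L) : Finset (K ≃ L) := univ.filter fun τ => ∀ x ∈ R, τ x = σ x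

open Classical in
/-- conditional probability of `P`, given the labels of `R` -/
noncomputable def pr (R : Finset K) (σ : K ≃ L) (P : (K ≃ L) → Prop) : ℝ :=
  (#{τ ∈ ext R σ | P τ} : ℝ) / #(ext R σ)

end cond

/-- the parameters of the process -/
structure Par (K L : Type) where
  /-- the queries -/
  ask : List L → K × K
  /-- the decision -/
  dec : List L → Prop
  /-- the number of reads -/
  T : ℕ
  /-- the forms which are asked often -/
  Q : Finset (K × K)
  /-- the sums -/
  X : Finset K
  /-- the hidden sums -/
  H : Finset K
  /-- threshold for probabilities -/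
  κ : ℝ
  /-- threshold for the frequency of forms -/
  θ : ℝ
  /-- a sum is treated with probability `1 / m` -/
  m : ℕ

namespace Par

variable {K L : Type} [Field K] [Fintype K] [Fintype L] [DecidableEq K] [DecidableEq L]

/-- the block of `z` -/
def blk (P : Par K L) (z : K) : Finset K := P.Q.image fun f => fv f z

/-- the hidden numbers -/
def W (P : Par K L) : Finset K := P.H.biUnion P.blk

/-- conditional probability that `z` is accepted -/
noncomputable def al (P : Par K L) (R : Finset K) (σ : K ≃ L) (z : K) : ℝ :=
  pr R σ fun τ => acc P.ask P.dec P.T (P.W \ P.blk z) τ z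

open Classical in
/-- conditional frequency of the form `f` -/
noncomputable def freq (P : Par K L) (R : Finset K) (σ : K ≃ L) (f : K × K) : ℝ :=
  (∑ w : K, ∑ τ ∈ ext R σ, (#{k ∈ range P.T | clean P.ask P.W τ w k ∧ fm P.ask τ w k = f} : ℝ)) /
    (Fintype.card K * #(ext R σ))

open Classical in
/-- the forms not in `Q` whose conditional frequency is large -/
noncomputable def heavy (P : Par K L) (R : Finset K) (σ : K ≃ L) : Finset (K × K) :=
  univ.filter fun f => f ∉ P.Q ∧ f.1 ≠ 0 ∧ P.θ < P.freq R σ f

/-- the query `w` accepts or asks a heavy form -/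
def bad (P : Par K L) (R : Finset K) (σ τ : K ≃ L) (w : K) : Prop :=
  acc P.ask P.dec P.T P.W τ w ∨ asks P.ask P.T (P.heavy R σ) P.W τ w

open Classical in
/-- conditional probability of `bad` for a random number -/
noncomputable def b (P : Par K L) (R : Finset K) (σ : K ≃ L) : ℝ :=
  (∑ w : K, (#{τ ∈ ext R σ | P.bad R σ τ w} : ℝ)) / (Fintype.card K * #(ext R σ))

open Classical in
/-- the factor of a sum -/
noncomputable def fz (P : Par K L) (R : Finset K) (σ : K ≃ L) (z : K) : ℝ :=
  ((if acc P.ask P.dec P.T (P.W \ P.blk z) σ z then 1 / max (P.al R σ z) (Real.sqrt P.κ) else 0)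
    + 1) / 2

open Classical in
/-- the factor of a random number -/
noncomputable def fw (P : Par K L) (R : Finset K) (σ : K ≃ L) (w : K) : ℝ :=
  if P.κ ≤ P.b R σ then (if P.bad R σ σ w then 1 / 2 else 1 / (1 - P.κ / 2)) else 1

/-- the states: the numbers whose labels are known, and the sums which have been treated -/
abbrev St (K : Type) := Finset K × Finset K

/-- the random choices of one step -/
abbrev Om (P : Par K L) := Fin P.m × P.X × K

/-- one step -/
noncomputable def step (P : Par K L) (ω : P.Om) (s : St K) (σ : K ≃ L) : St K :=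
  if (ω.1 : ℕ) = 0 then
    if (ω.2.1 : K) ∈ P.H \ s.2 then
      (s.1 ∪ reads P.ask P.T (P.W \ P.blk ω.2.1) σ ω.2.1, insert (ω.2.1 : K) s.2)
    else s
  else (s.1 ∪ reads P.ask P.T P.W σ ω.2.2, s.2)

/-- the factor of one step -/
noncomputable def fac (P : Par K L) (ω : P.Om) (s : St K) (σ : K ≃ L) : ℝ :=
  if (ω.1 : ℕ) = 0 then
    if (ω.2.1 : K) ∈ P.H \ s.2 then P.fz s.1 σ ω.2.1 else 1
  else P.fw s.1 σ ω.2.2

end Par

/-- an adaptive random process which reveals the labels step by step -/
structure Proc (K L Ω S : Type) where
  /-- the next state -/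
  step : Ω → S → (K ≃ L) → S
  /-- the factor -/
  fac : Ω → S → (K ≃ L) → ℝ
  /-- the numbers whose labels are known -/
  rev : S → Finset K

namespace Proc

variable {K L Ω S : Type} [Fintype Ω]

/-- expected product of the factors of `k` steps -/
noncomputable def EX (A : Proc K L Ω S) : ℕ → S → (K ≃ L) → ℝ
  | 0, _, _ => 1
  | k + 1, s, σ => (∑ ω, A.fac ω s σ * EX A k (A.step ω s σ) σ) / Fintype.card Ω

/-- expected logarithm of the product of the factors of `k` steps -/
noncomputable def EL (A : Proc K L Ω S) : ℕ → S → (K ≃ L) → ℝ
  | 0, _, _ => 0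
  | k + 1, s, σ => (∑ ω, (Real.log (A.fac ω s σ) + EL A k (A.step ω s σ) σ)) / Fintype.card Ω

/-- the conditions which make the product of the factors a supermartingale -/
structure OK [Fintype K] [Fintype L] [DecidableEq K] [DecidableEq L] (A : Proc K L Ω S) :
    Prop where
  pos : ∀ ω s σ, 0 < A.fac ω s σ
  mono : ∀ ω s σ, A.rev s ⊆ A.rev (A.step ω s σ)
  det : ∀ ω s (σ τ : K ≃ L), τ ∈ ext (A.rev (A.step ω s σ)) σ →
    A.step ω s τ = A.step ω s σ ∧ A.fac ω s τ = A.fac ω s σ
  mean : ∀ s (σ : K ≃ L), ∑ ω, ∑ τ ∈ ext (A.rev s) σ, A.fac ω s τ ≤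
    Fintype.card Ω * #(ext (A.rev s) σ)

end Proc

/-- the process of the parameters `P` -/
noncomputable def Par.proc {K L : Type} [Field K] [Fintype K] [Fintype L] [DecidableEq K]
    [DecidableEq L] (P : Par K L) : Proc K L P.Om (Par.St K) where
  step := P.step
  fac := P.fac
  rev := Prod.fst

end Pool.Agent.GGE
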