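import Mathlib
import Pool.Agent.GGE.Defs

/-!
# 3SUM-Indexing, generic model, adaptive queries: generic arrays, conflict-free selection

For almost all pairs of arrays, two different affine forms `f`, `f'` take the same value at few
pairs of sums.
-/

namespace Pool.Agent.GGE

open Finset

/-! ### Zeros of quadratic functions -/

section count

variable {F : Type*} [Field F] [Fintype F] [DecidableEq F] {V : Type*} [AddCommGroup V]
  [Module F V] [Fintype V]

/-- a quadratic polynomial with leading coefficient not zero has at most two roots -/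
theorem roots_le (c₂ c₁ c₀ : F) (h : c₂ ≠ 0) :
    #{t : F | c₂ * t ^ 2 + c₁ * t + c₀ = 0} ≤ 2 := by
  by_contra hlt
  rw [not_le, Finset.two_lt_card] at hlt
  obtain ⟨a, ha, b, hb, c, hc, hab, hac, hbc⟩ := hlt
  simp only [mem_filter, mem_univ, true_and] at ha hb hc
  have h1 : (a - b) * (c₂ * (a + b) + c₁) = 0 := by linear_combination ha - hb
  have h2 : (a - c) * (c₂ * (a + c) + c₁) = 0 := by linear_combination ha - hc
  have h1' := (mul_eq_zero.1 h1).resolve_left (sub_ne_zero.2 hab)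
  have h2' := (mul_eq_zero.1 h2).resolve_left (sub_ne_zero.2 hac)
  have h3 : c₂ * (b - c) = 0 := by linear_combination h1' - h2'
  exact (mul_ne_zero h (sub_ne_zero.2 hbc)) h3

/-- the quadratic function `α β - γ δ` has few zeros unless it vanishes identically -/
theorem zeros_le (α β γ δ : V →ₗ[F] F) (x₀ : V) (h : α x₀ * β x₀ ≠ γ x₀ * δ x₀) :
    #{x : V | α x * β x = γ x * δ x} * Fintype.card F ≤ 2 * Fintype.card V := by
  have h1 : ∀ y : V, #{t : F | α (y + t • x₀) * β (y + t • x₀) =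
      γ (y + t • x₀) * δ (y + t • x₀)} ≤ 2 := by
    intro y
    refine le_trans (card_le_card ?_) (roots_le (α x₀ * β x₀ - γ x₀ * δ x₀)
      (α y * β x₀ + α x₀ * β y - γ y * δ x₀ - γ x₀ * δ y) (α y * β y - γ y * δ y)
      (sub_ne_zero.2 h))
    intro t ht
    simp only [mem_filter, mem_univ, true_and, map_add, map_smul, smul_eq_mul] at ht ⊢
    linear_combination ht
  have h2 : ∀ t : F, #{y : V | α (y + t • x₀) * β (y + t • x₀) =
      γ (y + t • x₀) * δ (y + t • x₀)} = #{x : V | α x * β x = γ x * δ x} := by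
    intro t
    refine card_bij (fun y _ => y + t • x₀) ?_ ?_ ?_
    · intro y hy
      simpa using hy
    · intro y _ y' _ hyy
      simpa using hyy
    · intro x hx
      refine ⟨x - t • x₀, ?_, by simp⟩
      simp only [mem_filter, mem_univ, true_and, sub_add_cancel] at hx ⊢
      exact hx
  calc #{x : V | α x * β x = γ x * δ x} * Fintype.card F
      = ∑ t : F, #{y : V | α (y + t • x₀) * β (y + t • x₀) =
          γ (y + t • x₀) * δ (y + t • x₀)} := by
        rw [Finset.sum_congr rfl fun t _ => h2 t]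
        simp [mul_comm]
    _ = ∑ y : V, #{t : F | α (y + t • x₀) * β (y + t • x₀) =
          γ (y + t • x₀) * δ (y + t • x₀)} := by
        simp only [card_filter]
        exact sum_comm
    _ ≤ ∑ _y : V, 2 := sum_le_sum fun y _ => h1 y
    _ = 2 * Fintype.card V := by simp [mul_comm]

end count

/-! ### Generic arrays -/

section arrays

variable {n p : ℕ} [Fact p.Prime]

/-- the sum at the place `v`, a linear function of the arrays -/
def ls (v : Fin n × Fin n) :
    ((Fin n → ZMod p) × (Fin n → ZMod p)) →ₗ[ZMod p] ZMod p where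
  toFun x := x.1 v.1 + x.2 v.2
  map_add' x y := by simp only [Prod.fst_add, Prod.snd_add, Pi.add_apply]; ring
  map_smul' t x := by
    simp only [Prod.smul_fst, Prod.smul_snd, Pi.smul_apply, smul_eq_mul, RingHom.id_apply]; ring

theorem ls_apply (v : Fin n × Fin n) (x : (Fin n → ZMod p) × (Fin n → ZMod p)) :
    ls v x = x.1 v.1 + x.2 v.2 := rfl

/-- the arrays `x` satisfy only the relations which hold for all arrays -/
structure Gen (x : (Fin n → ZMod p) × (Fin n → ZMod p)) : Prop where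
  lin : ∀ q₁ q₂ q₃ q₄ : Fin n × Fin n, ls q₁ x + ls q₂ x = ls q₃ x + ls q₄ x →
    ∀ y, ls (p := p) q₁ y + ls q₂ y = ls q₃ y + ls q₄ y
  quad : ∀ u₁ u₂ u₃ v₁ v₂ v₃ : Fin n × Fin n,
    (ls v₁ x - ls v₂ x) * (ls u₁ x - ls u₃ x) = (ls v₁ x - ls v₃ x) * (ls u₁ x - ls u₂ x) →
    ∀ y, (ls (p := p) v₁ y - ls v₂ y) * (ls u₁ y - ls u₃ y) =
      (ls v₁ y - ls v₃ y) * (ls u₁ y - ls u₂ y)

/-- indicator of a row -/
def rw1 (i : Fin n) : (Fin n → ZMod p) × (Fin n → ZMod p) := (Pi.single i 1, 0)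

/-- indicator of a column -/
def cl1 (j : Fin n) : (Fin n → ZMod p) × (Fin n → ZMod p) := (0, Pi.single j 1)

theorem ls_rw1 (v : Fin n × Fin n) (i : Fin n) :
    ls (p := p) v (rw1 i) = if v.1 = i then 1 else 0 := by
  simp [ls_apply, rw1, Pi.single_apply]

theorem ls_cl1 (v : Fin n × Fin n) (j : Fin n) :
    ls (p := p) v (cl1 j) = if v.2 = j then 1 else 0 := by
  simp [ls_apply, cl1, Pi.single_apply]

variable {x : (Fin n → ZMod p) × (Fin n → ZMod p)}

theorem Gen.inj (h : Gen x) {u v : Fin n × Fin n} (e : ls u x = ls v x) : u = v := by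
  have h1 := h.lin u u v u (by rw [e])
  have e1 : u.1 = v.1 := by
    by_contra hne
    have := h1 (rw1 u.1)
    simp only [ls_rw1, if_true, Ne.symm hne, if_false] at this
    simp at this
  have e2 : u.2 = v.2 := by
    by_contra hne
    have := h1 (cl1 u.2)
    simp only [ls_cl1, if_true, Ne.symm hne, if_false] at this
    simp at this
  exact Prod.ext e1 e2

/-- two solutions of `s v = s u + μ` -/
theorem Gen.one (h : Gen x) (hp : 2 < p) {u v u₀ v₀ : Fin n × Fin n} {μ : ZMod p} (hμ : μ ≠ 0)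
    (e : ls v x = ls u x + μ) (e₀ : ls v₀ x = ls u₀ x + μ) : u.1 = u₀.1 ∨ u.2 = u₀.2 := by
  have : Fact (2 < p) := ⟨hp⟩
  have hm1 : (-1 : ZMod p) ≠ 1 := ZMod.neg_one_ne_one
  have h1 := h.lin v u₀ v₀ u (by rw [e, e₀]; ring)
  by_cases h2 : v₀.1 = u₀.1
  · right
    have h3 : v₀.2 ≠ u₀.2 := by
      intro h4
      have : v₀ = u₀ := Prod.ext h2 h4
      rw [this] at e₀
      exact hμ (by simpa using e₀)
    by_contra h4
    have := h1 (cl1 u₀.2)
    simp only [ls_cl1, if_true, h3, h4, if_false] at this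
    split_ifs at this
    · apply hm1
      linear_combination -this
    · simp at this
  · left
    by_contra h4
    have := h1 (rw1 u₀.1)
    simp only [ls_rw1, if_true, h2, h4, if_false] at this
    split_ifs at this
    · apply hm1
      linear_combination -this
    · simp at this

/-- two solutions of `s v = - s u + μ` -/
theorem Gen.two (h : Gen x) (hp : 2 < p) {u v u₀ v₀ : Fin n × Fin n} {μ : ZMod p}
    (e : ls v x = -ls u x + μ) (e₀ : ls v₀ x = -ls u₀ x + μ) :
    (u.1 = u₀.1 ∨ u.1 = v₀.1) ∧ (u.2 = u₀.2 ∨ u.2 = v₀.2) := by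
  have : Fact (2 < p) := ⟨hp⟩
  have hm1 : (-1 : ZMod p) ≠ 1 := ZMod.neg_one_ne_one
  have h1 := h.lin v u v₀ u₀ (by rw [e, e₀]; ring)
  constructor
  · by_contra hc
    rw [not_or] at hc
    have := h1 (rw1 u.1)
    simp only [ls_rw1, if_true, Ne.symm hc.1, Ne.symm hc.2, if_false] at this
    split_ifs at this
    · apply hm1
      linear_combination -this
    · simp at this
  · by_contra hc
    rw [not_or] at hc
    have := h1 (cl1 u.2)
    simp only [ls_cl1, if_true, Ne.symm hc.1, Ne.symm hc.2, if_false] at this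
    split_ifs at this
    · apply hm1
      linear_combination -this
    · simp at this

/-- a place different from two others -/
theorem sep {v₁ v₂ v₃ : Fin n × Fin n} (h12 : v₁ ≠ v₂) (h13 : v₁ ≠ v₃) (h23 : v₂ ≠ v₃) :
    ∃ y, ls (p := p) v₁ y - ls v₃ y = 0 ∧ ls (p := p) v₁ y - ls v₂ y ≠ 0 := by
  by_cases h1 : v₁.1 = v₂.1
  · have h1' : v₁.2 ≠ v₂.2 := fun h => h12 (Prod.ext h1 h)
    by_cases h2 : v₃.2 = v₂.2
    · have h2' : v₃.1 ≠ v₂.1 := fun h => h23 (Prod.ext h h2).symm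
      refine ⟨rw1 v₃.1 + cl1 v₁.2, ?_, ?_⟩
      · have e1 : v₁.1 ≠ v₃.1 := fun h => h2' (h ▸ h1)
        have e2 : v₃.2 ≠ v₁.2 := fun h => h1' (h ▸ h2)
        simp [map_add, ls_rw1, ls_cl1, e1, e2]
      · have e1 : v₁.1 ≠ v₃.1 := fun h => h2' (h ▸ h1)
        have e3 : v₂.1 ≠ v₃.1 := h2'.symm
        simp [map_add, ls_rw1, ls_cl1, e1, e3, h1'.symm]
    · refine ⟨cl1 v₂.2, ?_, ?_⟩
      · simp [ls_cl1, h1', h2]
      · simp [ls_cl1, h1']
  · by_cases h2 : v₃.1 = v₂.1
    · have h2' : v₃.2 ≠ v₂.2 := fun h => h23 (Prod.ext h2 h).symm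
      by_cases h3 : v₁.2 = v₂.2
      · refine ⟨rw1 v₁.1 + cl1 v₃.2, ?_, ?_⟩
        · have e1 : v₃.1 ≠ v₁.1 := fun h => h1 (h ▸ h2)
          have e2 : v₁.2 ≠ v₃.2 := fun h => h2' (h ▸ h3)
          simp [map_add, ls_rw1, ls_cl1, e1, e2]
        · have e2 : v₁.2 ≠ v₃.2 := fun h => h2' (h ▸ h3)
          have e3 : v₂.1 ≠ v₁.1 := fun h => h1 h.symm
          simp [map_add, ls_rw1, ls_cl1, e2, e3, h2'.symm]
      · refine ⟨cl1 v₂.2, ?_, ?_⟩
        · simp [ls_cl1, h3, h2']
        · simp [ls_cl1, h3]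
    · refine ⟨rw1 v₂.1, ?_, ?_⟩
      · simp [ls_rw1, h1, h2]
      · simp [ls_rw1, h1]

/-- three solutions of `s v = l s u + μ`, `l ≠ 1`, `l ≠ -1` -/
theorem Gen.three (h : Gen x) {u₁ u₂ u₃ v₁ v₂ v₃ : Fin n × Fin n} {l μ : ZMod p} (h0 : l ≠ 0)
    (hl : l ≠ 1) (hl' : l ≠ -1) (e₁ : ls v₁ x = l * ls u₁ x + μ) (e₂ : ls v₂ x = l * ls u₂ x + μ)
    (e₃ : ls v₃ x = l * ls u₃ x + μ) (h12 : u₁ ≠ u₂) (h13 : u₁ ≠ u₃) (h23 : u₂ ≠ u₃) : False := by
  have hv : ∀ {u u' v v' : Fin n × Fin n}, ls v x = l * ls u x + μ → ls v' x = l * ls u' x + μ →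
      u ≠ u' → v ≠ v' := by
    intro u u' v v' e e' hu hv
    apply hu
    apply h.inj
    apply mul_left_cancel₀ h0
    rw [hv] at e
    linear_combination e' - e
  have hv12 := hv e₁ e₂ h12
  have hv13 := hv e₁ e₃ h13
  have hv23 := hv e₂ e₃ h23
  have hq := h.quad u₁ u₂ u₃ v₁ v₂ v₃ (by rw [e₁, e₂, e₃]; ring)
  obtain ⟨y₀, hy₀, hy₀'⟩ := sep (p := p) hv12 hv13 hv23
  -- `s u₁ - s u₃` vanishes whenever `s v₁ - s v₃` does
  have hk : ∀ y, ls (p := p) v₁ y - ls v₃ y = 0 → ls (p := p) u₁ y - ls u₃ y = 0 := by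
    intro y hy
    have hb0 : ls (p := p) u₁ y₀ - ls u₃ y₀ = 0 := by
      have := hq y₀
      rw [hy₀, zero_mul] at this
      exact (mul_eq_zero.1 this).resolve_left hy₀'
    by_cases hb : ls (p := p) v₁ y - ls v₂ y = 0
    · have := hq (y + y₀)
      simp only [map_add] at this
      have h3 : (ls (p := p) v₁ y₀ - ls v₂ y₀) * (ls (p := p) u₁ y - ls u₃ y) = 0 := by
        linear_combination this + (ls (p := p) u₁ y + ls u₁ y₀ - ls u₂ y - ls u₂ y₀) * (hy + hy₀)
          - (ls (p := p) u₁ y + ls u₁ y₀ - ls u₃ y - ls u₃ y₀) * hb -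
          (ls (p := p) v₁ y₀ - ls v₂ y₀) * hb0
      exact (mul_eq_zero.1 h3).resolve_left hy₀'
    · have := hq y
      rw [hy, zero_mul] at this
      exact (mul_eq_zero.1 this).resolve_left hb
  -- a vector at which `s v₁ - s v₃ = 1`
  obtain ⟨y₁, hy₁, hy₁'⟩ : ∃ y₁, ls (p := p) v₁ y₁ - ls v₃ y₁ = 1 ∧
      (ls (p := p) u₁ y₁ - ls u₃ y₁ = 0 ∨ ls (p := p) u₁ y₁ - ls u₃ y₁ = 1 ∨
        ls (p := p) u₁ y₁ - ls u₃ y₁ = -1) := by
    by_cases h1 : v₁.1 = v₃.1
    · have h2 : v₃.2 ≠ v₁.2 := fun h => hv13 (Prod.ext h1 h.symm)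
      refine ⟨cl1 v₁.2, by simp [ls_cl1, h2], ?_⟩
      simp only [ls_cl1]
      split_ifs <;> simp
    · refine ⟨rw1 v₁.1, by simp [ls_rw1, Ne.symm h1], ?_⟩
      simp only [ls_rw1]
      split_ifs <;> simp
  have h4 := hk (x - (ls v₁ x - ls v₃ x) • y₁) (by
    simp only [map_sub, map_smul, smul_eq_mul]
    linear_combination -(ls v₁ x - ls v₃ x) * hy₁)
  simp only [map_sub, map_smul, smul_eq_mul] at h4
  have h5 : ls u₁ x - ls u₃ x ≠ 0 := fun h' => h13 (h.inj (sub_eq_zero.1 h'))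
  have h6 : (ls u₁ x - ls u₃ x) * (1 - l * (ls (p := p) u₁ y₁ - ls u₃ y₁)) = 0 := by
    rw [e₁, e₃] at h4
    linear_combination h4
  have h7 := (mul_eq_zero.1 h6).resolve_left h5
  rcases hy₁' with h8 | h8 | h8
  · rw [h8] at h7
    simp at h7
  · rw [h8] at h7
    exact hl (by linear_combination -h7)
  · rw [h8] at h7
    exact hl' (by linear_combination h7)

/-- the solutions of `s v = l s u + μ`, `(l, μ) ≠ (1, 0)`, `l ≠ 0` -/
theorem Gen.card_le (h : Gen x) (hp : 2 < p) (hn : 2 ≤ n) {l μ : ZMod p} (h0 : l ≠ 0)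
    (hl : l = 1 → μ ≠ 0) :
    #{q : (Fin n × Fin n) × (Fin n × Fin n) | ls q.1 x = l * ls q.2 x + μ} ≤ 3 * n := by
  classical
  set A : Finset ((Fin n × Fin n) × (Fin n × Fin n)) :=
    {q : (Fin n × Fin n) × (Fin n × Fin n) | ls q.1 x = l * ls q.2 x + μ} with hA
  have hmem : ∀ q, q ∈ A ↔ ls q.1 x = l * ls q.2 x + μ := fun q => by simp [hA]
  have hinj : Set.InjOn (Prod.snd : (Fin n × Fin n) × (Fin n × Fin n) → Fin n × Fin n) A := by
    intro q hq q' hq' e
    rw [mem_coe, hmem] at hq hq'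
    refine Prod.ext (h.inj ?_) e
    rw [hq, hq', e]
  rw [← card_image_of_injOn hinj]
  rcases A.eq_empty_or_nonempty with he | ⟨q₀, hq₀⟩
  · simp [he]
  rw [hmem] at hq₀
  by_cases h1 : l = 1
  · -- at most `2 n`
    have hsub : A.image Prod.snd ⊆ ({q₀.2.1} ×ˢ univ) ∪ (univ ×ˢ {q₀.2.2}) := by
      intro u hu
      obtain ⟨q, hq, rfl⟩ := mem_image.1 hu
      rw [hmem] at hq
      rw [h1, one_mul] at hq hq₀
      rcases h.one hp (hl h1) hq hq₀ with h2 | h2
      · exact mem_union_left _ (by simp [← h2])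
      · exact mem_union_right _ (by simp [← h2])
    refine le_trans (Finset.card_le_card hsub) (le_trans (card_union_le _ _) ?_)
    simp only [card_product, card_singleton, card_univ, Fintype.card_fin]
    omega
  by_cases h2 : l = -1
  · have hsub : A.image Prod.snd ⊆ ({q₀.2.1, q₀.1.1} : Finset (Fin n)) ×ˢ {q₀.2.2, q₀.1.2} := by
      intro u hu
      obtain ⟨q, hq, rfl⟩ := mem_image.1 hu
      rw [hmem] at hq
      rw [h2, neg_one_mul] at hq hq₀
      have h3 := h.two hp hq hq₀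
      simp only [mem_product, mem_insert, mem_singleton]
      exact h3
    refine le_trans (Finset.card_le_card hsub) ?_
    rw [card_product]
    have h3 : #({q₀.2.1, q₀.1.1} : Finset (Fin n)) ≤ 2 := card_le_two
    have h4 : #({q₀.2.2, q₀.1.2} : Finset (Fin n)) ≤ 2 := card_le_two
    have h5 := Nat.mul_le_mul h3 h4
    omega
  · have h3 : #(A.image Prod.snd) ≤ 2 := by
      by_contra hlt
      rw [not_le, Finset.two_lt_card] at hlt
      obtain ⟨u₁, hu₁, u₂, hu₂, u₃, hu₃, h12, h13, h23⟩ := hlt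
      obtain ⟨q₁, hq₁, rfl⟩ := mem_image.1 hu₁
      obtain ⟨q₂, hq₂, rfl⟩ := mem_image.1 hu₂
      obtain ⟨q₃, hq₃, rfl⟩ := mem_image.1 hu₃
      rw [hmem] at hq₁ hq₂ hq₃
      exact h.three h0 h1 h2 hq₁ hq₂ hq₃ h12 h13 h23
    omega

/-- the four linear functions of a relation -/
abbrev Lin4 (n p : ℕ) [Fact p.Prime] : Type :=
  (((Fin n → ZMod p) × (Fin n → ZMod p)) →ₗ[ZMod p] ZMod p) ×
  (((Fin n → ZMod p) × (Fin n → ZMod p)) →ₗ[ZMod p] ZMod p) ×
  (((Fin n → ZMod p) × (Fin n → ZMod p)) →ₗ[ZMod p] ZMod p) ×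
  (((Fin n → ZMod p) × (Fin n → ZMod p)) →ₗ[ZMod p] ZMod p)

/-- the value of a relation -/
def rel (R : Lin4 n p) (x : (Fin n → ZMod p) × (Fin n → ZMod p)) : Prop :=
  R.1 x * R.2.1 x = R.2.2.1 x * R.2.2.2 x

/-- the quadratic relations -/
def rq (t : Fin 6 → Fin n × Fin n) : Lin4 n p :=
  (ls (t 3) - ls (t 4), ls (t 0) - ls (t 2), ls (t 3) - ls (t 5), ls (t 0) - ls (t 1))

/-- the linear relations, squared -/
def rl (t : Fin 4 → Fin n × Fin n) : Lin4 n p :=
  (ls (t 0) + ls (t 1) - ls (t 2) - ls (t 3), ls (t 0) + ls (t 1) - ls (t 2) - ls (t 3), 0, 0)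

theorem gen_of (h6 : ∀ t, rel (rq t) x → ∀ y, rel (p := p) (rq t) y)
    (h4 : ∀ t, rel (rl t) x → ∀ y, rel (p := p) (rl t) y) : Gen x := by
  constructor
  · intro q₁ q₂ q₃ q₄ e y
    have h1 : ∀ z, rel (p := p) (rl ![q₁, q₂, q₃, q₄]) z ↔
        ls q₁ z + ls q₂ z = ls q₃ z + ls q₄ z := by
      intro z
      have : rel (p := p) (rl ![q₁, q₂, q₃, q₄]) z ↔
          (ls q₁ z + ls q₂ z - ls q₃ z - ls q₄ z) * (ls q₁ z + ls q₂ z - ls q₃ z - ls q₄ z) =
            0 * 0 := Iff.rfl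
      rw [this, mul_zero, mul_self_eq_zero, sub_sub, sub_eq_zero]
    exact (h1 y).1 (h4 _ ((h1 x).2 e) y)
  · intro u₁ u₂ u₃ v₁ v₂ v₃ e y
    exact h6 ![u₁, u₂, u₃, v₁, v₂, v₃] e y

end arrays

open Classical in
theorem arrays : ∃ C n₀ : ℕ, ∀ n ≥ n₀, ∀ (p : ℕ) [Fact p.Prime], n ^ C ≤ p →
    ∃ Bad : Finset ((Fin n → ZMod p) × (Fin n → ZMod p)), n * Bad.card ≤ p ^ (2 * n) ∧
      ∀ a b : Fin n → ZMod p, (a, b) ∉ Bad →
        (∀ i j i' j', a i + b j = a i' + b j' → i = i' ∧ j = j') ∧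
        ∀ f f' : ZMod p × ZMod p, f ≠ f' → f.1 ≠ 0 → f'.1 ≠ 0 →
          #{q : (Fin n × Fin n) × (Fin n × Fin n) |
            fv f (a q.1.1 + b q.1.2) = fv f' (a q.2.1 + b q.2.2)} ≤ 3 * n := by
  refine ⟨14, 4, fun n hn p _ hp => ?_⟩
  have hp2 : 2 < p := by
    have h1 : 4 ^ 14 ≤ n ^ 14 := Nat.pow_le_pow_left hn 14
    omega
  have hcard : Fintype.card ((Fin n → ZMod p) × (Fin n → ZMod p)) = p ^ (2 * n) := by
    simp [ZMod.card, two_mul, pow_add]
  -- the bad arrays
  set B : Lin4 n p → Finset ((Fin n → ZMod p) × (Fin n → ZMod p)) := fun R =>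
    if ∀ y, rel R y then ∅ else univ.filter fun x => rel R x with hB
  have hBc : ∀ R, #(B R) * p ≤ 2 * p ^ (2 * n) := by
    intro R
    simp only [hB]
    split_ifs with h1
    · simp
    · push Not at h1
      obtain ⟨y, hy⟩ := h1
      have h2 := zeros_le R.1 R.2.1 R.2.2.1 R.2.2.2 y hy
      rw [hcard, ZMod.card] at h2
      convert h2 using 3
      exact filter_congr fun _ _ => Iff.rfl
  have hBm : ∀ R x, x ∉ B R → rel R x → ∀ y, rel R y := by
    intro R x hx hr
    simp only [hB] at hx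
    split_ifs at hx with h1
    · exact h1
    · simp [hr] at hx
  refine ⟨(univ : Finset (Fin 6 → Fin n × Fin n)).biUnion (fun t => B (rq t)) ∪
    (univ : Finset (Fin 4 → Fin n × Fin n)).biUnion (fun t => B (rl t)), ?_, ?_⟩
  · have h6 : #((univ : Finset (Fin 6 → Fin n × Fin n)).biUnion fun t => B (rq t)) * p ≤
        n ^ 12 * (2 * p ^ (2 * n)) := by
      calc _ ≤ (∑ t : Fin 6 → Fin n × Fin n, #(B (rq t))) * p :=
            Nat.mul_le_mul_right _ card_biUnion_le
        _ = ∑ t : Fin 6 → Fin n × Fin n, #(B (rq t)) * p := sum_mul _ _ _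
        _ ≤ ∑ _t : Fin 6 → Fin n × Fin n, 2 * p ^ (2 * n) := sum_le_sum fun t _ => hBc _
        _ = n ^ 12 * (2 * p ^ (2 * n)) := by
            simp only [sum_const, card_univ, Fintype.card_fun, Fintype.card_prod, Fintype.card_fin,
              smul_eq_mul]
            ring
    have h4 : #((univ : Finset (Fin 4 → Fin n × Fin n)).biUnion fun t => B (rl t)) * p ≤
        n ^ 8 * (2 * p ^ (2 * n)) := by
      calc _ ≤ (∑ t : Fin 4 → Fin n × Fin n, #(B (rl t))) * p :=
            Nat.mul_le_mul_right _ card_biUnion_le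
        _ = ∑ t : Fin 4 → Fin n × Fin n, #(B (rl t)) * p := sum_mul _ _ _
        _ ≤ ∑ _t : Fin 4 → Fin n × Fin n, 2 * p ^ (2 * n) := sum_le_sum fun t _ => hBc _
        _ = n ^ 8 * (2 * p ^ (2 * n)) := by
            simp only [sum_const, card_univ, Fintype.card_fun, Fintype.card_prod, Fintype.card_fin,
              smul_eq_mul]
            ring
    have h8 : n ^ 8 ≤ n ^ 12 := Nat.pow_le_pow_right (by omega) (by norm_num)
    have h14 : 4 * n ^ 13 ≤ n ^ 14 := by
      rw [pow_succ n 13, mul_comm (n ^ 13)]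
      exact Nat.mul_le_mul_right _ hn
    refine Nat.le_of_mul_le_mul_right ?_ (show 0 < p by omega)
    calc n * #((univ : Finset (Fin 6 → Fin n × Fin n)).biUnion (fun t => B (rq t)) ∪
          (univ : Finset (Fin 4 → Fin n × Fin n)).biUnion (fun t => B (rl t))) * p
        ≤ n * (#((univ : Finset (Fin 6 → Fin n × Fin n)).biUnion (fun t => B (rq t))) +
          #((univ : Finset (Fin 4 → Fin n × Fin n)).biUnion (fun t => B (rl t)))) * p := by
          gcongr
          exact card_union_le _ _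
      _ = n * (#((univ : Finset (Fin 6 → Fin n × Fin n)).biUnion (fun t => B (rq t))) * p +
          #((univ : Finset (Fin 4 → Fin n × Fin n)).biUnion (fun t => B (rl t))) * p) := by ring
      _ ≤ n * (n ^ 12 * (2 * p ^ (2 * n)) + n ^ 12 * (2 * p ^ (2 * n))) := by
          refine Nat.mul_le_mul_left _ (Nat.add_le_add h6 (h4.trans ?_))
          exact Nat.mul_le_mul_right _ h8
      _ = (4 * n ^ 13) * p ^ (2 * n) := by ring
      _ ≤ p * p ^ (2 * n) := Nat.mul_le_mul_right _ (h14.trans hp)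
      _ = p ^ (2 * n) * p := mul_comm _ _
  · intro a b hab
    rw [mem_union, not_or, mem_biUnion, mem_biUnion] at hab
    push Not at hab
    have hg : Gen (p := p) (a, b) := gen_of
      (fun t => hBm _ _ (hab.1 t (mem_univ _))) (fun t => hBm _ _ (hab.2 t (mem_univ _)))
    constructor
    · intro i j i' j' e
      have := hg.inj (u := (i, j)) (v := (i', j')) e
      exact ⟨congrArg Prod.fst this, congrArg Prod.snd this⟩
    · intro f f' hff hf hf'
      have h1 := hg.card_le hp2 (by omega) (l := f'.1 / f.1) (μ := (f'.2 - f.2) / f.1)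
        (div_ne_zero hf' hf) (by
          intro h2 h3
          apply hff
          rw [div_eq_one_iff_eq hf] at h2
          rw [div_eq_zero_iff, sub_eq_zero] at h3
          exact Prod.ext h2.symm (h3.resolve_right hf).symm)
      refine le_trans (Finset.card_le_card ?_) h1
      intro q hq
      have h2 : f.1 * (a q.1.1 + b q.1.2) + f.2 = f'.1 * (a q.2.1 + b q.2.2) + f'.2 :=
        (mem_filter.1 hq).2
      refine mem_filter.2 ⟨mem_univ _, ?_⟩
      change a q.1.1 + b q.1.2 = f'.1 / f.1 * (a q.2.1 + b q.2.2) + (f'.2 - f.2) / f.1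
      field_simp
      linear_combination h2

open Classical in
theorem select {K : Type} [Field K] [Fintype K] [DecidableEq K] (S : Finset K)
    (Q : Finset (K × K)) (hQ : ∀ f ∈ Q, f.1 ≠ 0) (C : ℕ)
    (hC : ∀ f ∈ Q, ∀ f' ∈ Q, f ≠ f' → #{q ∈ S ×ˢ S | fv f q.1 = fv f' q.2} ≤ C) :
    ∃ X ⊆ S, #S ≤ #X + #Q ^ 2 * C ∧ ∀ z ∈ X, ∀ z' ∈ X, z ≠ z' →
      Disjoint (Q.image fun f => fv f z) (Q.image fun f => fv f z') := by
  set D : Finset K := (Q ×ˢ Q).biUnion fun r =>
    if r.1 = r.2 then ∅ else (univ.filter fun q : K × K => q ∈ S ×ˢ S ∧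
      fv r.1 q.1 = fv r.2 q.2).image Prod.fst with hD
  have hDc : #D ≤ #Q ^ 2 * C := by
    refine le_trans card_biUnion_le ?_
    have h1 : ∀ r ∈ Q ×ˢ Q, #(if r.1 = r.2 then ∅ else (univ.filter fun q : K × K =>
        q ∈ S ×ˢ S ∧ fv r.1 q.1 = fv r.2 q.2).image Prod.fst) ≤ C := by
      intro r hr
      rw [mem_product] at hr
      split_ifs with h2
      · simp
      · refine le_trans card_image_le (le_trans (Finset.card_le_card ?_) (hC _ hr.1 _ hr.2 h2))
        intro q hq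
        simpa using hq
    refine le_trans (sum_le_sum h1) ?_
    simp [sq]
  refine ⟨S \ D, sdiff_subset, ?_, ?_⟩
  · have := card_le_card_sdiff_add_card (s := S) (t := D)
    omega
  · intro z hz z' hz' hne
    rw [mem_sdiff] at hz hz'
    rw [disjoint_left]
    intro y hy hy'
    obtain ⟨f, hf, rfl⟩ := mem_image.1 hy
    obtain ⟨f', hf', he⟩ := mem_image.1 hy'
    by_cases hff : f = f'
    · subst hff
      apply hne
      have h1 : f.1 * z' + f.2 = f.1 * z + f.2 := he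
      exact (mul_left_cancel₀ (hQ f hf) (add_right_cancel h1)).symm
    · apply hz.2
      rw [hD, mem_biUnion]
      refine ⟨(f, f'), mem_product.2 ⟨hf, hf'⟩, ?_⟩
      simp only [hff, if_false]
      refine mem_image.2 ⟨(z, z'), ?_, rfl⟩
      simp [hz.1, hz'.1, he]

end Pool.Agent.GGE
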