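import Mathlib
import Pool.Agent.GGE.Defs

namespace Pool.Agent.GGE

open Finset

variable {K L : Type} [Field K] [Fintype K] [Fintype L] [DecidableEq K] [DecidableEq L]


open Classical in
/-- the coincidences through forms of small frequency -/
noncomputable def Par.light (P : Par K L) (R : Finset K) (σ : K ≃ L) : ℝ :=
  ∑ x ∈ R, ∑ f ∈ (univ : Finset (K × K)) with f.1 ≠ 0 ∧ P.freq R σ f ≤ P.θ,
    P.freq R σ f * (#{z ∈ P.X | fv f z = x} : ℝ)


end Pool.Agent.GGE
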