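import Pool.Agent.GGE.Defs

/-! The product of the factors is a supermartingale. -/

namespace Pool.Agent.GGE

open Finset

/-- a sum inequality which holds on the classes of a partition -/
theorem sum_le_of_classes {α : Type*} [DecidableEq α] (A : Finset α) (cl : α → Finset α)
    (h1 : ∀ x ∈ A, x ∈ cl x) (h2 : ∀ x ∈ A, cl x ⊆ A) (h3 : ∀ x ∈ A, ∀ y ∈ cl x, cl y = cl x)
    (f g : α → ℝ) (h : ∀ x ∈ A, ∑ y ∈ cl x, g y ≤ ∑ y ∈ cl x, f y) :
    ∑ x ∈ A, g x ≤ ∑ x ∈ A, f x := by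
  have hm : ∀ x ∈ A, cl x ∈ A.image cl := fun x hx => mem_image_of_mem _ hx
  rw [← sum_fiberwise_of_maps_to hm g, ← sum_fiberwise_of_maps_to hm f]
  refine sum_le_sum fun c hc => ?_
  obtain ⟨x, hx, rfl⟩ := mem_image.1 hc
  have e : A.filter (fun y => cl y = cl x) = cl x := by
    ext y
    rw [mem_filter]
    constructor
    · rintro ⟨hy, e⟩
      rw [← e]
      exact h1 y hy
    · intro hy
      exact ⟨h2 x hx hy, h3 x hx y hy⟩
  rw [e]
  exact h x hx

variable {K L : Type} [Fintype K] [Fintype L] [DecidableEq K] [DecidableEq L]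

theorem mem_ext {R : Finset K} {σ τ : K ≃ L} : τ ∈ ext R σ ↔ ∀ x ∈ R, τ x = σ x := by
  simp [ext]

theorem mem_ext_self (R : Finset K) (σ : K ≃ L) : σ ∈ ext R σ := mem_ext.2 fun _ _ => rfl

theorem ext_mono {R R' : Finset K} (h : R ⊆ R') (σ : K ≃ L) : ext R' σ ⊆ ext R σ :=
  fun _ hτ => mem_ext.2 fun x hx => mem_ext.1 hτ x (h hx)

theorem ext_eq {R : Finset K} {σ τ : K ≃ L} (h : τ ∈ ext R σ) : ext R τ = ext R σ := by
  ext ρ
  rw [mem_ext, mem_ext]
  exact ⟨fun h' x hx => (h' x hx).trans (mem_ext.1 h x hx),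
    fun h' x hx => (h' x hx).trans (mem_ext.1 h x hx).symm⟩

section sup

variable {Ω S : Type} [Fintype Ω]

theorem EX_le (A : Proc K L Ω S) (h : A.OK) (k : ℕ) (s : S) (σ : K ≃ L) :
    ∑ τ ∈ ext (A.rev s) σ, A.EX k s τ ≤ #(ext (A.rev s) σ) := by
  induction k generalizing s σ with
  | zero => simp [Proc.EX]
  | succ k ih =>
    have key : ∀ ω, ∑ τ ∈ ext (A.rev s) σ, A.fac ω s τ * A.EX k (A.step ω s τ) τ ≤
        ∑ τ ∈ ext (A.rev s) σ, A.fac ω s τ := by
      intro ω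
      refine sum_le_of_classes _ (fun τ => ext (A.rev (A.step ω s τ)) τ)
        (fun τ _ => mem_ext_self _ _) ?_ ?_ _ _ ?_
      · intro τ hτ
        rw [← ext_eq hτ]
        exact ext_mono (h.mono ω s τ) τ
      · intro τ _ τ' hτ'
        show ext (A.rev (A.step ω s τ')) τ' = ext (A.rev (A.step ω s τ)) τ
        rw [(h.det ω s τ τ' hτ').1, ext_eq hτ']
      · intro τ _
        have e1 : ∑ τ' ∈ ext (A.rev (A.step ω s τ)) τ, A.fac ω s τ' * A.EX k (A.step ω s τ') τ' =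
            A.fac ω s τ * ∑ τ' ∈ ext (A.rev (A.step ω s τ)) τ, A.EX k (A.step ω s τ) τ' := by
          rw [mul_sum]
          refine sum_congr rfl fun τ' hτ' => ?_
          rw [(h.det ω s τ τ' hτ').1, (h.det ω s τ τ' hτ').2]
        have e2 : ∑ τ' ∈ ext (A.rev (A.step ω s τ)) τ, A.fac ω s τ' =
            A.fac ω s τ * #(ext (A.rev (A.step ω s τ)) τ) := by
          rw [sum_congr rfl fun τ' hτ' => (h.det ω s τ τ' hτ').2, sum_const, nsmul_eq_mul,
            mul_comm]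
        show ∑ τ' ∈ ext (A.rev (A.step ω s τ)) τ, A.fac ω s τ' * A.EX k (A.step ω s τ') τ' ≤
          ∑ τ' ∈ ext (A.rev (A.step ω s τ)) τ, A.fac ω s τ'
        rw [e1, e2]
        exact mul_le_mul_of_nonneg_left (ih _ _) (h.pos ω s τ).le
    have e : ∑ τ ∈ ext (A.rev s) σ, A.EX (k + 1) s τ =
        (∑ ω, ∑ τ ∈ ext (A.rev s) σ, A.fac ω s τ * A.EX k (A.step ω s τ) τ) /
          Fintype.card Ω := by
      rw [sum_comm, sum_div]
      rfl
    rw [e]
    rcases Nat.eq_zero_or_pos (Fintype.card Ω) with h0 | h0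
    · rw [h0]
      simp
    · have h0' : (0 : ℝ) < Fintype.card Ω := by exact_mod_cast h0
      rw [div_le_iff₀ h0']
      calc _ ≤ ∑ ω, ∑ τ ∈ ext (A.rev s) σ, A.fac ω s τ := sum_le_sum fun ω _ => key ω
        _ ≤ _ := h.mean s σ
        _ = _ := mul_comm _ _

theorem exp_EL_le [Nonempty Ω] (A : Proc K L Ω S) (h : A.OK) (k : ℕ) (s : S) (σ : K ≃ L) :
    Real.exp (A.EL k s σ) ≤ A.EX k s σ := by
  induction k generalizing s σ with
  | zero => simp [Proc.EX, Proc.EL]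
  | succ k ih =>
    have h0 : (0 : ℝ) < Fintype.card Ω := by exact_mod_cast Fintype.card_pos
    have hj := convexOn_exp.map_sum_le (t := (univ : Finset Ω))
      (w := fun _ => 1 / (Fintype.card Ω : ℝ))
      (p := fun ω => Real.log (A.fac ω s σ) + A.EL k (A.step ω s σ) σ)
      (fun _ _ => by positivity)
      (by rw [sum_const, card_univ, nsmul_eq_mul]; field_simp) (fun _ _ => Set.mem_univ _)
    simp only [smul_eq_mul, ← mul_sum] at hj
    have e1 : A.EL (k + 1) s σ = 1 / (Fintype.card Ω : ℝ) *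
        ∑ ω, (Real.log (A.fac ω s σ) + A.EL k (A.step ω s σ) σ) := by
      rw [one_div_mul_eq_div]
      rfl
    have e2 : A.EX (k + 1) s σ = 1 / (Fintype.card Ω : ℝ) *
        ∑ ω, A.fac ω s σ * A.EX k (A.step ω s σ) σ := by
      rw [one_div_mul_eq_div]
      rfl
    rw [e1, e2]
    refine hj.trans ?_
    gcongr with ω
    rw [Real.exp_add, Real.exp_log (h.pos ω s σ)]
    exact mul_le_mul_of_nonneg_left (ih _ _) (h.pos ω s σ).le

end sup

end Pool.Agent.GGE
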