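import Pool.Agent.GGE.Det
import Pool.Agent.GGE.Sup

/-! The process of the parameters satisfies the conditions of the supermartingale. -/

namespace Pool.Agent.GGE

open Finset

variable {K L : Type} [Field K] [Fintype K] [Fintype L] [DecidableEq K] [DecidableEq L]

omit [Field K] in
theorem pr_congr {R : Finset K} {σ τ : K ≃ L} (h : τ ∈ ext R σ) (A : (K ≃ L) → Prop) :
    pr R τ A = pr R σ A := by
  unfold pr
  rw [ext_eq h]

theorem al_congr (P : Par K L) {R : Finset K} {σ τ : K ≃ L} (h : τ ∈ ext R σ) (z : K) :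
    P.al R τ z = P.al R σ z := pr_congr h _

theorem freq_congr (P : Par K L) {R : Finset K} {σ τ : K ≃ L} (h : τ ∈ ext R σ) (f : K × K) :
    P.freq R τ f = P.freq R σ f := by
  unfold Par.freq
  rw [ext_eq h]

theorem heavy_congr (P : Par K L) {R : Finset K} {σ τ : K ≃ L} (h : τ ∈ ext R σ) :
    P.heavy R τ = P.heavy R σ := by
  unfold Par.heavy
  congr 1
  funext f
  rw [freq_congr P h]

theorem bad_congr (P : Par K L) {R : Finset K} {σ τ : K ≃ L} (h : τ ∈ ext R σ) (ρ : K ≃ L)
    (w : K) : P.bad R τ ρ w ↔ P.bad R σ ρ w := by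
  unfold Par.bad
  rw [heavy_congr P h]

theorem b_congr (P : Par K L) {R : Finset K} {σ τ : K ≃ L} (h : τ ∈ ext R σ) :
    P.b R τ = P.b R σ := by
  classical
  unfold Par.b
  simp only [bad_congr P h]
  rw [ext_eq h]

theorem agree {R : Finset K} {F : Finset K} {ask : List L → K × K} {T : ℕ} {σ τ : K ≃ L} {y : K}
    (h : τ ∈ ext (R ∪ reads ask T F σ y) σ) :
    τ ∈ ext R σ ∧ ∀ x ∈ reads ask T F σ y, τ x = σ x :=
  ⟨ext_mono subset_union_left σ h, fun x hx => mem_ext.1 h x (mem_union_right _ hx)⟩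

theorem fz_congr (P : Par K L) {R : Finset K} {σ τ : K ≃ L} {z : K} (h : τ ∈ ext R σ)
    (h' : ∀ x ∈ reads P.ask P.T (P.W \ P.blk z) σ z, τ x = σ x) :
    P.fz R τ z = P.fz R σ z := by
  classical
  unfold Par.fz
  rw [al_congr P h]
  simp only [acc_congr (dec := P.dec) h']

theorem fw_congr (P : Par K L) {R : Finset K} {σ τ : K ≃ L} {w : K} (h : τ ∈ ext R σ)
    (h' : ∀ x ∈ reads P.ask P.T P.W σ w, τ x = σ x) :
    P.fw R τ w = P.fw R σ w := by
  classical
  have e : P.bad R τ τ w ↔ P.bad R σ σ w := by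
    rw [bad_congr P h]
    unfold Par.bad
    rw [acc_congr (dec := P.dec) h', asks_congr h']
  unfold Par.fw
  rw [b_congr P h]
  simp only [e]

theorem fz_pos (P : Par K L) (hκ : 0 < P.κ) (R : Finset K) (σ : K ≃ L) (z : K) :
    0 < P.fz R σ z := by
  unfold Par.fz
  have h1 : 0 < max (P.al R σ z) (Real.sqrt P.κ) := lt_max_of_lt_right (Real.sqrt_pos.2 hκ)
  split_ifs <;> positivity

theorem fw_pos (P : Par K L) (hκ1 : P.κ < 1) (R : Finset K) (σ : K ≃ L) (w : K) :
    0 < P.fw R σ w := by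
  unfold Par.fw
  have h1 : 0 < 1 - P.κ / 2 := by linarith
  split_ifs <;> positivity

theorem sum_fz_le (P : Par K L) (hκ : 0 < P.κ) (R : Finset K) (σ : K ≃ L) (z : K) :
    ∑ τ ∈ ext R σ, P.fz R τ z ≤ #(ext R σ) := by
  classical
  have h1 : 0 < max (P.al R σ z) (Real.sqrt P.κ) := lt_max_of_lt_right (Real.sqrt_pos.2 hκ)
  have hc : (0 : ℝ) < #(ext R σ) := by exact_mod_cast card_pos.2 ⟨σ, mem_ext_self R σ⟩
  have e : ∑ τ ∈ ext R σ, P.fz R τ z =
      ((#((ext R σ).filter fun τ : K ≃ L => acc P.ask P.dec P.T (P.W \ P.blk z) τ z) : ℝ) *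
        (1 / max (P.al R σ z) (Real.sqrt P.κ)) + #(ext R σ)) / 2 := by
    have : ∀ τ ∈ ext R σ, P.fz R τ z =
        ((if acc P.ask P.dec P.T (P.W \ P.blk z) τ z then
          1 / max (P.al R σ z) (Real.sqrt P.κ) else 0) + 1) / 2 := by
      intro τ hτ
      unfold Par.fz
      rw [al_congr P hτ]
    rw [sum_congr rfl this, ← sum_div, sum_add_distrib, ← sum_filter, sum_const, sum_const,
      nsmul_eq_mul, nsmul_eq_mul, mul_one]
  have h2 : (#((ext R σ).filter fun τ : K ≃ L =>
      acc P.ask P.dec P.T (P.W \ P.blk z) τ z) : ℝ) =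
      P.al R σ z * #(ext R σ) := by
    unfold Par.al pr
    rw [div_mul_cancel₀ _ hc.ne']
  have h3 : P.al R σ z * #(ext R σ) * (1 / max (P.al R σ z) (Real.sqrt P.κ)) ≤ #(ext R σ) := by
    rw [mul_one_div, div_le_iff₀ h1, mul_comm]
    exact mul_le_mul_of_nonneg_left (le_max_left _ _) hc.le
  rw [e, h2]
  linarith

theorem sum_fw_le (P : Par K L) (hκ : 0 < P.κ) (hκ1 : P.κ < 1) (R : Finset K) (σ : K ≃ L) :
    ∑ w : K, ∑ τ ∈ ext R σ, P.fw R τ w ≤ Fintype.card K * #(ext R σ) := by
  classical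
  have hc : (0 : ℝ) < #(ext R σ) := by exact_mod_cast card_pos.2 ⟨σ, mem_ext_self R σ⟩
  have hK : (0 : ℝ) < Fintype.card K := by exact_mod_cast Fintype.card_pos
  have h1 : 0 < 1 - P.κ / 2 := by linarith
  by_cases hb : P.κ ≤ P.b R σ
  · have e : ∀ w : K, ∑ τ ∈ ext R σ, P.fw R τ w =
        (#{τ ∈ ext R σ | P.bad R σ τ w} : ℝ) * (1 / 2) +
          (#(ext R σ) - (#{τ ∈ ext R σ | P.bad R σ τ w} : ℝ)) * (1 / (1 - P.κ / 2)) := by
      intro w
      have : ∀ τ ∈ ext R σ, P.fw R τ w =
          if P.bad R σ τ w then 1 / 2 else 1 / (1 - P.κ / 2) := by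
        intro τ hτ
        unfold Par.fw
        rw [b_congr P hτ, if_pos hb]
        simp only [bad_congr P hτ]
      have h2 : (#{τ ∈ ext R σ | ¬ P.bad R σ τ w} : ℝ) =
          #(ext R σ) - (#{τ ∈ ext R σ | P.bad R σ τ w} : ℝ) := by
        rw [← card_filter_add_card_filter_not (s := ext R σ) (fun τ => P.bad R σ τ w)]
        push_cast
        ring
      rw [sum_congr rfl this, sum_ite, sum_const, sum_const, nsmul_eq_mul, nsmul_eq_mul, h2]
    have hB : ∑ w : K, (#{τ ∈ ext R σ | P.bad R σ τ w} : ℝ) =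
        P.b R σ * (Fintype.card K * #(ext R σ)) := by
      unfold Par.b
      rw [div_mul_cancel₀ _ (by positivity)]
    rw [sum_congr rfl fun w _ => e w, sum_add_distrib, ← sum_mul, ← sum_mul, sum_sub_distrib, hB,
      sum_const, card_univ, nsmul_eq_mul]
    have h3 : P.b R σ * (1 / 2) + (1 - P.b R σ) * (1 / (1 - P.κ / 2)) ≤ 1 := by
      rw [mul_one_div, mul_one_div, div_add_div _ _ (by norm_num) h1.ne',
        div_le_one (by positivity)]
      nlinarith
    calc P.b R σ * (Fintype.card K * #(ext R σ)) * (1 / 2) +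
          (Fintype.card K * #(ext R σ) - P.b R σ * (Fintype.card K * #(ext R σ))) *
            (1 / (1 - P.κ / 2))
        = (P.b R σ * (1 / 2) + (1 - P.b R σ) * (1 / (1 - P.κ / 2))) *
            (Fintype.card K * #(ext R σ)) := by ring
      _ ≤ 1 * (Fintype.card K * #(ext R σ)) := by gcongr
      _ = _ := one_mul _
  · have : ∀ w : K, ∀ τ ∈ ext R σ, P.fw R τ w = 1 := by
      intro w τ hτ
      unfold Par.fw
      rw [b_congr P hτ, if_neg hb]
    rw [sum_congr rfl fun w _ => sum_congr rfl (this w)]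
    simp

theorem proc_ok (P : Par K L) (hκ : 0 < P.κ) (hκ1 : P.κ < 1) : P.proc.OK where
  pos := by
    intro ω s σ
    show 0 < P.fac ω s σ
    unfold Par.fac
    split_ifs
    · exact fz_pos P hκ _ _ _
    · exact one_pos
    · exact fw_pos P hκ1 _ _ _
  mono := by
    intro ω s σ
    show s.1 ⊆ (P.step ω s σ).1
    unfold Par.step
    split_ifs
    · exact subset_union_left
    · exact subset_rfl
    · exact subset_union_left
  det := by
    intro ω s σ τ
    show τ ∈ ext (P.step ω s σ).1 σ →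
      P.step ω s τ = P.step ω s σ ∧ P.fac ω s τ = P.fac ω s σ
    unfold Par.step Par.fac
    split_ifs with h1 h2
    · intro h
      obtain ⟨h3, h4⟩ := agree h
      exact ⟨by rw [reads_congr h4], fz_congr P h3 h4⟩
    · intro _
      exact ⟨rfl, rfl⟩
    · intro h
      obtain ⟨h3, h4⟩ := agree h
      exact ⟨by rw [reads_congr h4], fw_congr P h3 h4⟩
  mean := by
    intro s σ
    show ∑ ω : P.Om, ∑ τ ∈ ext s.1 σ, P.fac ω s τ ≤ Fintype.card P.Om * #(ext s.1 σ)
    have hc : (0 : ℝ) ≤ #(ext s.1 σ) := Nat.cast_nonneg _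
    have key : ∀ i : Fin P.m, ∀ z : P.X, ∑ w : K, ∑ τ ∈ ext s.1 σ, P.fac (i, z, w) s τ ≤
        Fintype.card K * #(ext s.1 σ) := by
      intro i z
      by_cases hi : (i : ℕ) = 0
      · have : ∀ w : K, ∑ τ ∈ ext s.1 σ, P.fac (i, z, w) s τ ≤ #(ext s.1 σ) := by
          intro w
          by_cases hz : (z : K) ∈ P.H \ s.2
          · have e : ∀ τ ∈ ext s.1 σ, P.fac (i, z, w) s τ = P.fz s.1 τ z := by
              intro τ _
              unfold Par.fac
              rw [if_pos hi, if_pos hz]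
            rw [sum_congr rfl e]
            exact sum_fz_le P hκ _ _ _
          · have e : ∀ τ ∈ ext s.1 σ, P.fac (i, z, w) s τ = 1 := by
              intro τ _
              unfold Par.fac
              rw [if_pos hi, if_neg hz]
            rw [sum_congr rfl e]
            simp
        calc _ ≤ ∑ _w : K, (#(ext s.1 σ) : ℝ) := sum_le_sum fun w _ => this w
          _ = _ := by rw [sum_const, card_univ, nsmul_eq_mul]
      · have e : ∀ w : K, ∀ τ ∈ ext s.1 σ, P.fac (i, z, w) s τ = P.fw s.1 τ w := by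
          intro w τ _
          unfold Par.fac
          rw [if_neg hi]
        rw [sum_congr rfl fun w _ => sum_congr rfl (e w)]
        exact sum_fw_le P hκ hκ1 _ _
    calc ∑ ω : P.Om, ∑ τ ∈ ext s.1 σ, P.fac ω s τ
        = ∑ i : Fin P.m, ∑ z : P.X, ∑ w : K, ∑ τ ∈ ext s.1 σ, P.fac (i, z, w) s τ := by
          rw [Fintype.sum_prod_type]
          refine sum_congr rfl fun i _ => ?_
          rw [Fintype.sum_prod_type]
      _ ≤ ∑ _i : Fin P.m, ∑ _z : P.X, (Fintype.card K * #(ext s.1 σ) : ℝ) :=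
          sum_le_sum fun i _ => sum_le_sum fun z _ => key i z
      _ = _ := by
          rw [sum_const, sum_const, card_univ, card_univ, nsmul_eq_mul, nsmul_eq_mul]
          have : Fintype.card P.Om = Fintype.card (Fin P.m) * (Fintype.card P.X * Fintype.card K) := by
            show Fintype.card (Fin P.m × P.X × K) = _
            rw [Fintype.card_prod, Fintype.card_prod]
          rw [this]
          push_cast
          ring

end Pool.Agent.GGE
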