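import Mathlib
import Pool.Agent.GGE.Defs
import Pool.Agent.GGE.Light

/-!
# 3SUM-Indexing, generic model, adaptive queries: one step of the process

For a good labelling the expected logarithm of the factor of one step is large.
-/

namespace Pool.Agent.GGE

open Finset

variable {K L : Type} [Field K] [Fintype K] [Fintype L] [DecidableEq K] [DecidableEq L]

open Classical in
/-- a labelling with few accepted numbers such that the forms not in `Q` are rare -/
structure GoodL (P : Par K L) (ta : ℝ) (σ : K ≃ L) : Prop where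
  few : (#{w : K | P.dec (view P.ask σ w P.T)} : ℝ) ≤ P.κ / 16 * Fintype.card K
  rare : ∀ f : K × K, f ∉ P.Q → f.1 ≠ 0 →
    (#{q ∈ (univ : Finset K) ×ˢ range P.T | fm P.ask σ q.1 q.2 = f} : ℝ) ≤ ta * Fintype.card K

/-- the sum over the random choices of one step -/
theorem sum_log_fac (P : Par K L) (hm : 0 < P.m) (hHX : P.H ⊆ P.X) (σ : K ≃ L) (R D : Finset K) :
    ∑ ω : P.Om, Real.log (P.fac ω (R, D) σ) =
      Fintype.card K * ∑ z ∈ P.H \ D, Real.log (P.fz R σ z) +
        ((P.m : ℝ) - 1) * (#P.X * ∑ w : K, Real.log (P.fw R σ w)) := by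
  have h1 : ∀ i : Fin P.m, ∑ q : P.X × K, Real.log (P.fac (i, q) (R, D) σ) =
      if (i : ℕ) = 0 then Fintype.card K * ∑ z ∈ P.H \ D, Real.log (P.fz R σ z)
      else #P.X * ∑ w : K, Real.log (P.fw R σ w) := by
    intro i
    rw [Fintype.sum_prod_type]
    split_ifs with hi
    · have h2 : ∀ z : P.X, ∑ w : K, Real.log (P.fac (i, z, w) (R, D) σ) =
          Fintype.card K * (if (z : K) ∈ P.H \ D then Real.log (P.fz R σ z) else 0) := by
        intro z
        simp only [Par.fac, hi, if_true]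
        rw [sum_const, card_univ, nsmul_eq_mul]
        split_ifs <;> simp
      rw [Finset.sum_congr rfl fun z _ => h2 z, ← mul_sum]
      congr 1
      rw [Finset.sum_coe_sort P.X fun z => if z ∈ P.H \ D then Real.log (P.fz R σ z) else 0,
        ← sum_filter]
      refine sum_congr ?_ fun _ _ => rfl
      ext z
      rw [mem_filter]
      exact ⟨fun h => h.2, fun h => ⟨hHX (mem_sdiff.1 h).1, h⟩⟩
    · simp only [Par.fac, hi, if_false]
      rw [sum_const, card_univ, nsmul_eq_mul, Fintype.card_coe]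
  rw [Fintype.sum_prod_type, Finset.sum_congr rfl fun i _ => h1 i]
  rw [Fin.sum_univ_eq_sum_range (fun i => if i = 0 then
    Fintype.card K * ∑ z ∈ P.H \ D, Real.log (P.fz R σ z)
      else #P.X * ∑ w : K, Real.log (P.fw R σ w)) P.m]
  obtain ⟨m, hm'⟩ := Nat.exists_eq_succ_of_ne_zero hm.ne'
  rw [hm', sum_range_succ']
  simp only [if_true, Nat.succ_ne_zero, if_false, sum_const, card_range, nsmul_eq_mul]
  push_cast
  ring

theorem al_nonneg (P : Par K L) (R : Finset K) (σ : K ≃ L) (z : K) : 0 ≤ P.al R σ z := by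
  unfold Par.al pr
  positivity

open Classical in
theorem al_le_one (P : Par K L) (R : Finset K) (σ : K ≃ L) (z : K) : P.al R σ z ≤ 1 := by
  unfold Par.al pr
  refine div_le_one_of_le₀ ?_ (Nat.cast_nonneg _)
  exact_mod_cast card_filter_le _ _

open Classical in
/-- few numbers are bad under a good labelling -/
theorem card_bad_le (P : Par K L) (hκ : 0 < P.κ) (hθ : 0 < P.θ) (ta : ℝ)
    (hta : 16 * P.T * ta ≤ P.κ * P.θ) (σ : K ≃ L) (hσ : GoodL P ta σ) (R : Finset K) :
    (#{w : K | P.bad R σ σ w} : ℝ) ≤ P.κ / 8 * Fintype.card K := by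
  have hK : (0 : ℝ) < Fintype.card K := by
    exact_mod_cast Fintype.card_pos
  have hsub : (univ.filter fun w : K => P.bad R σ σ w) ⊆
      (univ.filter fun w : K => P.dec (view P.ask σ w P.T)) ∪
        (P.heavy R σ).biUnion fun f => (((univ : Finset K) ×ˢ range P.T).filter fun q =>
          fm P.ask σ q.1 q.2 = f).image Prod.fst := by
    intro w hw
    rw [mem_filter] at hw
    rcases hw.2 with h1 | ⟨k, hk, -, h1⟩
    · exact mem_union_left _ (mem_filter.2 ⟨mem_univ _, h1.2⟩)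
    · refine mem_union_right _ (mem_biUnion.2 ⟨_, h1, mem_image.2 ⟨(w, k), ?_, rfl⟩⟩)
      simp [hk]
  have h1 : (#{w : K | P.bad R σ σ w} : ℝ) ≤ P.κ / 16 * Fintype.card K +
      #(P.heavy R σ) * (ta * Fintype.card K) := by
    have h2 : #{w : K | P.bad R σ σ w} ≤ #{w : K | P.dec (view P.ask σ w P.T)} +
        ∑ f ∈ P.heavy R σ, #{q ∈ (univ : Finset K) ×ˢ range P.T | fm P.ask σ q.1 q.2 = f} := by
      refine (card_le_card hsub).trans ((card_union_le _ _).trans (Nat.add_le_add_left ?_ _))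
      exact card_biUnion_le.trans (sum_le_sum fun f _ => card_image_le)
    have h3 : (#{w : K | P.bad R σ σ w} : ℝ) ≤ #{w : K | P.dec (view P.ask σ w P.T)} +
        ∑ f ∈ P.heavy R σ,
          (#{q ∈ (univ : Finset K) ×ˢ range P.T | fm P.ask σ q.1 q.2 = f} : ℝ) := by
      exact_mod_cast h2
    refine h3.trans (add_le_add hσ.few ?_)
    refine (sum_le_sum (g := fun _ => ta * Fintype.card K) fun f hf => ?_).trans (by simp)
    rw [Par.heavy, mem_filter] at hf
    exact hσ.rare f hf.2.1 hf.2.2.1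
  have h4 : #(P.heavy R σ) * P.θ ≤ P.T := by
    refine le_trans ?_ (sum_freq_le P R σ)
    calc (#(P.heavy R σ) : ℝ) * P.θ = ∑ _f ∈ P.heavy R σ, P.θ := by simp
      _ ≤ ∑ f ∈ P.heavy R σ, P.freq R σ f := by
          refine sum_le_sum fun f hf => ?_
          rw [Par.heavy, mem_filter] at hf
          exact hf.2.2.2.le
      _ ≤ ∑ f, P.freq R σ f :=
          sum_le_sum_of_subset_of_nonneg (subset_univ _) fun f _ _ => freq_nonneg P R σ f
  have h5 : #(P.heavy R σ) * ta ≤ P.κ / 16 := by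
    rcases le_or_gt ta 0 with h6 | h6
    · have : (#(P.heavy R σ) : ℝ) * ta ≤ 0 := mul_nonpos_of_nonneg_of_nonpos (by positivity) h6
      linarith
    · have h7 : #(P.heavy R σ) * P.θ * ta ≤ P.T * ta := mul_le_mul_of_nonneg_right h4 h6.le
      have h8 : #(P.heavy R σ) * ta * P.θ ≤ P.κ / 16 * P.θ := by nlinarith
      exact le_of_mul_le_mul_right h8 hθ
  calc (#{w : K | P.bad R σ σ w} : ℝ) ≤ P.κ / 16 * Fintype.card K +
        #(P.heavy R σ) * (ta * Fintype.card K) := h1
    _ = (P.κ / 16 + #(P.heavy R σ) * ta) * Fintype.card K := by ring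
    _ ≤ (P.κ / 16 + P.κ / 16) * Fintype.card K := by gcongr
    _ = P.κ / 8 * Fintype.card K := by ring

open Classical in
/-- the random numbers, when they are often bad under the conditional distribution -/
theorem sum_log_fw (P : Par K L) (hκ : 0 < P.κ) (hκ1 : P.κ < 1) (hθ : 0 < P.θ) (ta : ℝ)
    (hta : 16 * P.T * ta ≤ P.κ * P.θ) (σ : K ≃ L) (hσ : GoodL P ta σ) (R : Finset K)
    (hb : P.κ ≤ P.b R σ) : P.κ / 4 * Fintype.card K ≤ ∑ w : K, Real.log (P.fw R σ w) := by
  have hK : (0 : ℝ) < Fintype.card K := by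
    exact_mod_cast Fintype.card_pos
  have h1 := card_bad_le P hκ hθ ta hta σ hσ R
  have h2 : ∀ w : K, P.κ / 2 - (if P.bad R σ σ w then 1.2 else 0) ≤
      Real.log (P.fw R σ w) := by
    intro w
    simp only [Par.fw, hb, if_true]
    split_ifs
    · have h3 : Real.log (1 / 2) = -Real.log 2 := by rw [one_div, Real.log_inv]
      rw [h3]
      have := Real.log_two_lt_d9
      linarith
    · rw [one_div, Real.log_inv]
      have := Real.log_le_sub_one_of_pos (show 0 < 1 - P.κ / 2 by linarith)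
      linarith
  calc P.κ / 4 * Fintype.card K ≤ P.κ / 2 * Fintype.card K - 1.2 * #{w : K | P.bad R σ σ w} := by
        nlinarith
    _ = ∑ w : K, (P.κ / 2 - (if P.bad R σ σ w then 1.2 else 0)) := by
        rw [sum_sub_distrib, sum_const, card_univ, nsmul_eq_mul, ← sum_filter, sum_const,
          nsmul_eq_mul]
        ring
    _ ≤ _ := sum_le_sum fun w _ => h2 w

theorem log_fz_ge (P : Par K L) (hκ : 0 < P.κ) (hκ1 : P.κ < 1) (σ : K ≃ L) (R : Finset K)
    (z : K) : -Real.log 2 ≤ Real.log (P.fz R σ z) := by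
  have hs : 0 < Real.sqrt P.κ := Real.sqrt_pos.2 hκ
  have h2 : Real.log (1 / 2) = -Real.log 2 := by rw [one_div, Real.log_inv]
  rw [← h2]
  apply Real.log_le_log (by norm_num)
  unfold Par.fz
  have h3 : 0 < 1 / max (P.al R σ z) (Real.sqrt P.κ) :=
    one_div_pos.2 (lt_max_of_lt_right hs)
  split_ifs <;> linarith

theorem log_fz_ge' (P : Par K L) (hκ : 0 < P.κ) (hκ1 : P.κ < 1) (σ : K ≃ L) (R : Finset K)
    (z : K) (ha : acc P.ask P.dec P.T (P.W \ P.blk z) σ z) :
    Real.log (1 / P.κ) / 2 * (1 - P.al R σ z / Real.sqrt P.κ) - Real.log 2 ≤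
      Real.log (P.fz R σ z) := by
  have hs : 0 < Real.sqrt P.κ := Real.sqrt_pos.2 hκ
  have hs1 : Real.sqrt P.κ ≤ 1 := Real.sqrt_le_one.2 hκ1.le
  have h0 := al_nonneg P R σ z
  have h1 := al_le_one P R σ z
  have hlam : Real.log (1 / P.κ) / 2 = -Real.log (Real.sqrt P.κ) := by
    rw [one_div, Real.log_inv, Real.log_sqrt hκ.le]
    ring
  have hlam0 : 0 ≤ Real.log (1 / P.κ) / 2 := by
    rw [hlam, neg_nonneg]
    exact Real.log_nonpos hs.le hs1
  have h3 : 0 < max (P.al R σ z) (Real.sqrt P.κ) := lt_max_of_lt_right hs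
  have h4 : -Real.log (max (P.al R σ z) (Real.sqrt P.κ)) - Real.log 2 ≤
      Real.log (P.fz R σ z) := by
    have h5 : -Real.log (max (P.al R σ z) (Real.sqrt P.κ)) - Real.log 2 =
        Real.log (1 / max (P.al R σ z) (Real.sqrt P.κ) / 2) := by
      rw [Real.log_div (one_div_pos.2 h3).ne' (by norm_num), one_div, Real.log_inv]
    rw [h5]
    apply Real.log_le_log (by positivity)
    unfold Par.fz
    rw [if_pos ha]
    gcongr
    linarith
  refine le_trans ?_ h4
  gcongr
  rcases le_or_gt (P.al R σ z) (Real.sqrt P.κ) with h5 | h5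
  · rw [max_eq_right h5, hlam]
    have : 0 ≤ P.al R σ z / Real.sqrt P.κ := by positivity
    rw [hlam] at hlam0
    nlinarith
  · rw [max_eq_left h5.le]
    have h6 : 1 ≤ P.al R σ z / Real.sqrt P.κ := by
      rw [le_div_iff₀ hs]
      linarith
    have h7 : Real.log (P.al R σ z) ≤ 0 := Real.log_nonpos h0 h1
    nlinarith

open Classical in
theorem one_step (P : Par K L) (hm : 0 < P.m) (hX : P.X.Nonempty) (hHX : P.H ⊆ P.X)
    (hκ : 0 < P.κ) (hκ1 : P.κ < 1) (hθ : 0 < P.θ) (ta : ℝ) (hta : 16 * P.T * ta ≤ P.κ * P.θ)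
    (hm2 : 2 * Real.log (1 / P.κ) ≤ (P.m - 1) * P.κ)
    (σ : K ≃ L) (hσ : GoodL P ta σ) (R D : Finset K) (hD : D ⊆ P.H) (E : ℝ) (hE0 : 0 ≤ E)
    (hE : P.b R σ < P.κ → ∑ z ∈ P.H \ D, P.al R σ z ≤ E) :
    1 / P.m * (Real.log (1 / P.κ) / 2 *
        ((#{z ∈ P.H | acc P.ask P.dec P.T (P.W \ P.blk z) σ z} - #D - E / Real.sqrt P.κ) / #P.X)
        - Real.log 2 * (#P.H / #P.X)) ≤
      (∑ ω : P.Om, Real.log (P.fac ω (R, D) σ)) / Fintype.card P.Om := by
  have hK : (0 : ℝ) < Fintype.card K := by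
    exact_mod_cast Fintype.card_pos
  have hN : (0 : ℝ) < #P.X := by exact_mod_cast hX.card_pos
  have hM : (0 : ℝ) < P.m := by exact_mod_cast hm
  have hs : 0 < Real.sqrt P.κ := Real.sqrt_pos.2 hκ
  have hs1 : Real.sqrt P.κ ≤ 1 := Real.sqrt_le_one.2 hκ1.le
  have hl2 : 0 < Real.log 2 := Real.log_pos (by norm_num)
  set lam : ℝ := Real.log (1 / P.κ) / 2 with hlam
  have hlam0 : 0 ≤ lam := by
    have : 0 ≤ Real.log (1 / P.κ) := Real.log_nonneg (by rw [le_div_iff₀ hκ]; linarith)
    positivity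
  set A : ℝ := ∑ z ∈ P.H \ D, Real.log (P.fz R σ z) with hA
  set B : ℝ := ∑ w : K, Real.log (P.fw R σ w) with hB
  have hcard : (Fintype.card P.Om : ℝ) = P.m * #P.X * Fintype.card K := by
    simp only [Par.Om, Fintype.card_prod, Fintype.card_fin, Fintype.card_coe]
    push_cast
    ring
  have hdiv : (∑ ω : P.Om, Real.log (P.fac ω (R, D) σ)) / Fintype.card P.Om =
      1 / P.m * (A / #P.X + (P.m - 1) * B / Fintype.card K) := by
    rw [sum_log_fac P hm hHX σ R D, hcard, ← hA, ← hB]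
    field_simp
  rw [hdiv]
  refine mul_le_mul_of_nonneg_left ?_ (by positivity)
  have hHD : (#(P.H \ D) : ℝ) ≤ #P.H := by exact_mod_cast card_le_card sdiff_subset
  have hA0 : -Real.log 2 * #P.H ≤ A := by
    calc -Real.log 2 * #P.H ≤ -Real.log 2 * #(P.H \ D) := by nlinarith
      _ = ∑ _z ∈ P.H \ D, -Real.log 2 := by rw [sum_const, nsmul_eq_mul]; ring
      _ ≤ A := sum_le_sum fun z _ => log_fz_ge P hκ hκ1 σ R z
  rcases lt_or_ge (P.b R σ) P.κ with hb | hb
  · -- the sums
    have hB0 : B = 0 := by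
      rw [hB]
      refine sum_eq_zero fun w _ => ?_
      simp [Par.fw, not_le.2 hb]
    have h1 : lam * (#{z ∈ P.H | acc P.ask P.dec P.T (P.W \ P.blk z) σ z} - #D -
        E / Real.sqrt P.κ) - Real.log 2 * #P.H ≤ A := by
      have h2 : ∀ z, (if acc P.ask P.dec P.T (P.W \ P.blk z) σ z then lam else 0) -
          lam * (P.al R σ z / Real.sqrt P.κ) - Real.log 2 ≤ Real.log (P.fz R σ z) := by
        intro z
        split_ifs with ha
        · have h3 := log_fz_ge' P hκ hκ1 σ R z ha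
          rw [← hlam] at h3
          linarith
        · have h3 := log_fz_ge P hκ hκ1 σ R z
          have h4 : 0 ≤ lam * (P.al R σ z / Real.sqrt P.κ) :=
            mul_nonneg hlam0 (div_nonneg (al_nonneg P R σ z) hs.le)
          linarith
      have h5 : (#{z ∈ P.H | acc P.ask P.dec P.T (P.W \ P.blk z) σ z} : ℝ) - #D ≤
          #{z ∈ P.H \ D | acc P.ask P.dec P.T (P.W \ P.blk z) σ z} := by
        have h6 : P.H.filter (fun z => acc P.ask P.dec P.T (P.W \ P.blk z) σ z) ⊆
            D ∪ (P.H \ D).filter fun z => acc P.ask P.dec P.T (P.W \ P.blk z) σ z := by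
          intro z hz
          rw [mem_filter] at hz
          by_cases hzD : z ∈ D
          · exact mem_union_left _ hzD
          · exact mem_union_right _ (mem_filter.2 ⟨mem_sdiff.2 ⟨hz.1, hzD⟩, hz.2⟩)
        have h7 := (card_le_card h6).trans (card_union_le _ _)
        have h8 : (#{z ∈ P.H | acc P.ask P.dec P.T (P.W \ P.blk z) σ z} : ℝ) ≤ #D +
          #{z ∈ P.H \ D | acc P.ask P.dec P.T (P.W \ P.blk z) σ z} := by exact_mod_cast h7
        linarith
      calc lam * (#{z ∈ P.H | acc P.ask P.dec P.T (P.W \ P.blk z) σ z} - #D -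
            E / Real.sqrt P.κ) - Real.log 2 * #P.H
          ≤ lam * (#{z ∈ P.H \ D | acc P.ask P.dec P.T (P.W \ P.blk z) σ z} -
            (∑ z ∈ P.H \ D, P.al R σ z) / Real.sqrt P.κ) - Real.log 2 * #(P.H \ D) := by
            have := hE hb
            gcongr
        _ = ∑ z ∈ P.H \ D, ((if acc P.ask P.dec P.T (P.W \ P.blk z) σ z then lam else 0) -
              lam * (P.al R σ z / Real.sqrt P.κ) - Real.log 2) := by
            rw [sum_sub_distrib, sum_sub_distrib, ← sum_filter, sum_const, sum_const,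
              nsmul_eq_mul, nsmul_eq_mul, ← mul_sum, ← sum_div]
            ring
        _ ≤ A := sum_le_sum fun z _ => h2 z
    rw [hB0]
    calc lam * ((#{z ∈ P.H | acc P.ask P.dec P.T (P.W \ P.blk z) σ z} - #D -
          E / Real.sqrt P.κ) / #P.X) - Real.log 2 * (#P.H / #P.X)
        = (lam * (#{z ∈ P.H | acc P.ask P.dec P.T (P.W \ P.blk z) σ z} - #D -
            E / Real.sqrt P.κ) - Real.log 2 * #P.H) / #P.X := by ring
      _ ≤ A / #P.X := by gcongr
      _ = A / #P.X + (P.m - 1) * 0 / Fintype.card K := by simp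
  · -- the random numbers
    have hB1 := sum_log_fw P hκ hκ1 hθ ta hta σ hσ R hb
    have hm1 : (0 : ℝ) ≤ P.m - 1 := by
      have : (1 : ℝ) ≤ P.m := by exact_mod_cast hm
      linarith
    have h1 : lam ≤ (P.m - 1) * B / Fintype.card K := by
      rw [le_div_iff₀ hK]
      calc lam * Fintype.card K ≤ (P.m - 1) * P.κ / 4 * Fintype.card K := by
            gcongr
            rw [hlam]
            linarith
        _ = (P.m - 1) * (P.κ / 4 * Fintype.card K) := by ring
        _ ≤ (P.m - 1) * B := mul_le_mul_of_nonneg_left hB1 hm1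
    have h2 : (#{z ∈ P.H | acc P.ask P.dec P.T (P.W \ P.blk z) σ z} : ℝ) ≤ #P.X := by
      exact_mod_cast (card_le_card (filter_subset _ _)).trans (card_le_card hHX)
    have h3 : ((#{z ∈ P.H | acc P.ask P.dec P.T (P.W \ P.blk z) σ z} : ℝ) - #D -
        E / Real.sqrt P.κ) / #P.X ≤ 1 := by
      rw [div_le_one hN]
      have h4 : (0 : ℝ) ≤ #D := Nat.cast_nonneg _
      have h5 : 0 ≤ E / Real.sqrt P.κ := div_nonneg hE0 hs.le
      linarith
    have h6 : lam * (((#{z ∈ P.H | acc P.ask P.dec P.T (P.W \ P.blk z) σ z} : ℝ) - #D -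
        E / Real.sqrt P.κ) / #P.X) ≤ lam * 1 := mul_le_mul_of_nonneg_left h3 hlam0
    have h7 : -Real.log 2 * (#P.H / #P.X) ≤ A / #P.X := by
      calc -Real.log 2 * (#P.H / #P.X : ℝ) = (-Real.log 2 * #P.H) / #P.X := by ring
        _ ≤ A / #P.X := by gcongr
    linarith

end Pool.Agent.GGE
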