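import Pool.Agent.GGE.Beta
import Pool.Agent.GGE.Stp
import Pool.Agent.GGE.Pok

/-! The expected logarithm of the product of the factors, for a good labelling. -/

namespace Pool.Agent.GGE

open Finset

variable {K L : Type} [Field K] [Fintype K] [Fintype L] [DecidableEq K] [DecidableEq L]

/-- the invariant of the states, `j` steps before the end -/
structure Inv (P : Par K L) (N : ℕ) (j : ℕ) (s : Par.St K) : Prop where
  sub : s.2 ⊆ P.H
  dis : ∀ z ∈ P.H \ s.2, Disjoint (P.blk z) s.1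
  card : #s.1 + j * P.T ≤ N

theorem blk_sub (P : Par K L) {z : K} (hz : z ∈ P.H) : P.blk z ⊆ P.W :=
  subset_biUnion_of_mem P.blk hz

theorem inv_step (P : Par K L) (hHX : P.H ⊆ P.X)
    (hdisj : ∀ z ∈ P.X, ∀ z' ∈ P.X, z ≠ z' → Disjoint (P.blk z) (P.blk z')) {N j : ℕ}
    {s : Par.St K} (h : Inv P N (j + 1) s) (ω : P.Om) (σ : K ≃ L) :
    Inv P N j (P.step ω s σ) := by
  have hc := h.card
  have hcT : (j + 1) * P.T = j * P.T + P.T := by ring
  unfold Par.step
  split_ifs with h1 h2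
  · obtain ⟨hz1, hz2⟩ := mem_sdiff.1 h2
    refine ⟨?_, ?_, ?_⟩
    · exact insert_subset hz1 h.sub
    · intro z hz
      obtain ⟨hz3, hz4⟩ := mem_sdiff.1 hz
      have hz5 : z ≠ ω.2.1 ∧ z ∉ s.2 := by
        rw [← not_or, ← mem_insert]
        exact hz4
      rw [disjoint_union_right]
      refine ⟨h.dis z (mem_sdiff.2 ⟨hz3, hz5.2⟩), ?_⟩
      rw [disjoint_left]
      intro x hx hx'
      refine notMem_of_mem_reads hx' (mem_sdiff.2 ⟨blk_sub P hz3 hx, ?_⟩)
      exact disjoint_left.1 (hdisj z (hHX hz3) ω.2.1 (hHX hz1) hz5.1) hx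
    · have h3 : #(s.1 ∪ reads P.ask P.T (P.W \ P.blk ω.2.1) σ ω.2.1) ≤ #s.1 + P.T :=
        (card_union_le _ _).trans (Nat.add_le_add_left card_reads_le _)
      show #(s.1 ∪ reads P.ask P.T (P.W \ P.blk ω.2.1) σ ω.2.1) + j * P.T ≤ N
      omega
  · exact ⟨h.sub, h.dis, by omega⟩
  · refine ⟨h.sub, ?_, ?_⟩
    · intro z hz
      rw [disjoint_union_right]
      refine ⟨h.dis z hz, ?_⟩
      rw [disjoint_left]
      intro x hx hx'
      exact notMem_of_mem_reads hx' (blk_sub P (mem_sdiff.1 hz).1 hx)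
    · have h3 : #(s.1 ∪ reads P.ask P.T P.W σ ω.2.2) ≤ #s.1 + P.T :=
        (card_union_le _ _).trans (Nat.add_le_add_left card_reads_le _)
      show #(s.1 ∪ reads P.ask P.T P.W σ ω.2.2) + j * P.T ≤ N
      omega

theorem card_Om (P : Par K L) :
    (Fintype.card P.Om : ℝ) = P.m * (#P.X * Fintype.card K) := by
  have : Fintype.card P.Om = Fintype.card (Fin P.m) * (Fintype.card P.X * Fintype.card K) := by
    show Fintype.card (Fin P.m × P.X × K) = _
    rw [Fintype.card_prod, Fintype.card_prod]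
  rw [this, Fintype.card_fin, Fintype.card_coe]
  push_cast
  ring

/-- the expected growth of the set of treated sums -/
theorem sum_card_step (P : Par K L) (hm : 0 < P.m) (hHX : P.H ⊆ P.X) (s : Par.St K)
    (σ : K ≃ L) :
    ∑ ω : P.Om, (#(P.step ω s σ).2 : ℝ) ≤ Fintype.card P.Om * #s.2 + #P.H * Fintype.card K := by
  have h1 : ∀ ω : P.Om, (#(P.step ω s σ).2 : ℝ) ≤ #s.2 +
      (if (ω.1 : ℕ) = 0 ∧ (ω.2.1 : K) ∈ P.H then 1 else 0) := by
    intro ω
    unfold Par.step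
    by_cases h1 : (ω.1 : ℕ) = 0
    · rw [if_pos h1]
      by_cases h2 : (ω.2.1 : K) ∈ P.H \ s.2
      · rw [if_pos h2, if_pos ⟨h1, (mem_sdiff.1 h2).1⟩]
        exact_mod_cast card_insert_le _ _
      · rw [if_neg h2]
        have : (0 : ℝ) ≤ if (ω.1 : ℕ) = 0 ∧ (ω.2.1 : K) ∈ P.H then 1 else 0 := by
          split_ifs <;> norm_num
        linarith
    · rw [if_neg h1]
      have : (0 : ℝ) ≤ if (ω.1 : ℕ) = 0 ∧ (ω.2.1 : K) ∈ P.H then 1 else 0 := by
        split_ifs <;> norm_num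
      show (#s.2 : ℝ) ≤ _
      linarith
  refine (sum_le_sum fun ω _ => h1 ω).trans ?_
  rw [sum_add_distrib, sum_const, card_univ, nsmul_eq_mul]
  have h2 : ∑ ω : P.Om, (if (ω.1 : ℕ) = 0 ∧ (ω.2.1 : K) ∈ P.H then (1 : ℝ) else 0) =
      #P.H * Fintype.card K := by
    have e1 : ∑ ω : P.Om, (if (ω.1 : ℕ) = 0 ∧ (ω.2.1 : K) ∈ P.H then (1 : ℝ) else 0) =
        ∑ i : Fin P.m, ∑ z : P.X, ∑ _w : K,
          (if (i : ℕ) = 0 ∧ (z : K) ∈ P.H then (1 : ℝ) else 0) := by
      rw [Fintype.sum_prod_type]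
      refine sum_congr rfl fun i _ => ?_
      rw [Fintype.sum_prod_type]
    have e2 : ∀ i : Fin P.m, ∑ z : P.X, ∑ _w : K,
        (if (i : ℕ) = 0 ∧ (z : K) ∈ P.H then (1 : ℝ) else 0) =
          if (i : ℕ) = 0 then (#P.H * Fintype.card K : ℝ) else 0 := by
      intro i
      split_ifs with hi
      · have e3 : ∀ z : P.X, ∑ _w : K, (if (i : ℕ) = 0 ∧ (z : K) ∈ P.H then (1 : ℝ) else 0) =
            (if (z : K) ∈ P.H then (Fintype.card K : ℝ) else 0) := by
          intro z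
          rw [sum_const, card_univ, nsmul_eq_mul]
          by_cases hz : (z : K) ∈ P.H
          · rw [if_pos ⟨hi, hz⟩, if_pos hz, mul_one]
          · rw [if_neg (fun h => hz h.2), if_neg hz, mul_zero]
        rw [sum_congr rfl fun z _ => e3 z]
        have e4 := sum_coe_sort P.X (fun z => if z ∈ P.H then (Fintype.card K : ℝ) else 0)
        rw [e4, ← sum_filter, sum_const, nsmul_eq_mul]
        congr 2
        congr 1
        ext z
        rw [mem_filter]
        exact ⟨fun h => h.2, fun h => ⟨hHX h, h⟩⟩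
      · refine sum_eq_zero fun z _ => sum_eq_zero fun w _ => ?_
        rw [if_neg (fun h => hi h.1)]
    rw [e1, sum_congr rfl fun i _ => e2 i]
    obtain ⟨m, hm1⟩ : ∃ m, P.m = m + 1 := ⟨P.m - 1, by omega⟩
    have e5 : ∀ (m' : ℕ) (hm' : m' = m + 1), ∑ i : Fin m',
        (if (i : ℕ) = 0 then (#P.H * Fintype.card K : ℝ) else 0) = #P.H * Fintype.card K := by
      rintro _ rfl
      rw [Fin.sum_univ_succ]
      simp
    exact e5 P.m hm1
  rw [h2]

open Classical in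
theorem EL_ge (hKL : Fintype.card K = Fintype.card L) (P : Par K L) (hm : 0 < P.m)
    (hX : P.X.Nonempty) (hHX : P.H ⊆ P.X) (hQ : ∀ f ∈ P.Q, f.1 ≠ 0)
    (hdisj : ∀ z ∈ P.X, ∀ z' ∈ P.X, z ≠ z' → Disjoint (P.blk z) (P.blk z'))
    (hκ : 0 < P.κ) (hκ1 : P.κ < 1) (hθ : 0 < P.θ) (ta : ℝ) (hta : 16 * P.T * ta ≤ P.κ * P.θ)
    (hm2 : 2 * Real.log (1 / P.κ) ≤ (P.m - 1) * P.κ)
    (C : ℝ) (hC0 : 0 ≤ C) (hC : ∀ f f' : K × K, f ≠ f' → f.1 ≠ 0 → f'.1 ≠ 0 →
      (#{q ∈ P.X ×ˢ P.X | fv f q.1 = fv f' q.2} : ℝ) ≤ C)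
    (k : ℕ) (hB : 2 * (P.T * (P.T + k * P.T + #P.W)) ≤ Fintype.card K)
    (σ : K ≃ L) (hσ : GoodL P ta σ) (E0 : ℝ)
    (hE0 : 2 * (P.T * (P.T + 1)) +
      2 * Real.sqrt ((k * P.T : ℝ) * (P.θ * P.T * #P.X + C * P.T ^ 2)) ≤ E0) :
    k / P.m * (Real.log (1 / P.κ) / 2 *
        ((#{z ∈ P.H | acc P.ask P.dec P.T (P.W \ P.blk z) σ z} -
          (4 * P.κ * #P.H + E0) / Real.sqrt P.κ) / #P.X)
        - Real.log 2 * (#P.H / #P.X)) -
      Real.log (1 / P.κ) / 2 * (k / P.m) ^ 2 * #P.H / (2 * (#P.X : ℝ) ^ 2) ≤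
      P.proc.EL k (∅, ∅) σ := by
  have hK : (0 : ℝ) < Fintype.card K := by exact_mod_cast Fintype.card_pos
  have hXc : (0 : ℝ) < #P.X := by exact_mod_cast card_pos.2 hX
  have hm' : (0 : ℝ) < P.m := by exact_mod_cast hm
  have hlam : 0 ≤ Real.log (1 / P.κ) / 2 := by
    have : 0 ≤ Real.log (1 / P.κ) := Real.log_nonneg (by rw [le_div_iff₀ hκ]; linarith)
    linarith
  obtain ⟨lam, hlamd⟩ : ∃ lam, lam = Real.log (1 / P.κ) / 2 := ⟨_, rfl⟩
  obtain ⟨E, hEd⟩ : ∃ E, E = 4 * P.κ * #P.H + E0 := ⟨_, rfl⟩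
  obtain ⟨a, had⟩ : ∃ a : ℝ, a = #{z ∈ P.H | acc P.ask P.dec P.T (P.W \ P.blk z) σ z} :=
    ⟨_, rfl⟩
  obtain ⟨A, hAd⟩ : ∃ A : ℝ, A = lam * ((a - E / Real.sqrt P.κ) / #P.X) -
    Real.log 2 * (#P.H / #P.X) := ⟨_, rfl⟩
  rw [← hlamd] at hlam
  have hH0 : (0 : ℝ) ≤ #P.H := Nat.cast_nonneg _
  have hE00 : 0 ≤ E0 := le_trans (by positivity) hE0
  have hE1 : 0 ≤ E := by rw [hEd]; positivity
  -- one step from a state with the invariant
  have hone : ∀ (s : Par.St K), s.2 ⊆ P.H → (∀ z ∈ P.H \ s.2, Disjoint (P.blk z) s.1) →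
      #s.1 ≤ k * P.T →
      1 / P.m * (A - lam * #s.2 / #P.X) ≤
        (∑ ω : P.Om, Real.log (P.fac ω s σ)) / Fintype.card P.Om := by
    rintro ⟨R, D⟩ h1 h2 h3
    simp only at h1 h2 h3
    have h4 : P.b R σ < P.κ → ∑ z ∈ P.H \ D, P.al R σ z ≤ E := by
      intro hb
      have h5 := sum_al_le hKL P R D σ hQ hHX hdisj h2 (by
        refine le_trans ?_ hB
        gcongr)
      have h6 := light_le P R σ C hC0 hC hθ.le
      have h7 : Real.sqrt (#R * (P.θ * P.T * #P.X + C * P.T ^ 2)) ≤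
          Real.sqrt ((k * P.T : ℝ) * (P.θ * P.T * #P.X + C * P.T ^ 2)) := by
        apply Real.sqrt_le_sqrt
        apply mul_le_mul_of_nonneg_right
        · exact_mod_cast h3
        · positivity
      have h8 : P.b R σ * #P.H ≤ P.κ * #P.H := mul_le_mul_of_nonneg_right hb.le hH0
      rw [hEd]
      push_cast at h5 hE0 ⊢
      linarith
    have h5 := one_step P hm hX hHX hκ hκ1 hθ ta hta hm2 σ hσ R D h1 E hE1 h4
    refine le_trans (le_of_eq ?_) h5
    rw [hAd, had, hlamd]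
    ring
  -- induction
  have main : ∀ (j : ℕ) (s : Par.St K), Inv P (k * P.T) j s →
      j * A / P.m - lam / (P.m * #P.X) *
        (j * #s.2 + #P.H / (P.m * #P.X) * (j * (j - 1) / 2)) ≤ P.proc.EL j s σ := by
    intro j
    induction j with
    | zero =>
      intro s _
      simp [Proc.EL]
    | succ j ih =>
      intro s hs
      have hO : (0 : ℝ) < Fintype.card P.Om := by rw [card_Om]; positivity
      have e : P.proc.EL (j + 1) s σ =
          (∑ ω : P.Om, Real.log (P.fac ω s σ)) / Fintype.card P.Om +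
            (∑ ω : P.Om, P.proc.EL j (P.step ω s σ) σ) / Fintype.card P.Om := by
        rw [← add_div, ← sum_add_distrib]
        rfl
      have h1 := hone s hs.sub hs.dis (by have := hs.card; omega)
      have h2 : (∑ ω : P.Om, (j * A / P.m - lam / (P.m * #P.X) *
          (j * #(P.step ω s σ).2 + #P.H / (P.m * #P.X) * (j * (j - 1) / 2)))) ≤
            ∑ ω : P.Om, P.proc.EL j (P.step ω s σ) σ :=
        sum_le_sum fun ω _ => ih _ (inv_step P hHX hdisj hs ω σ)
      have h3 := sum_card_step P hm hHX s σ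
      have h4 : (∑ ω : P.Om, (j * A / P.m - lam / (P.m * #P.X) *
          (j * #(P.step ω s σ).2 + #P.H / (P.m * #P.X) * (j * (j - 1) / 2)))) =
            Fintype.card P.Om * (j * A / P.m - lam / (P.m * #P.X) *
              (#P.H / (P.m * #P.X) * (j * (j - 1) / 2))) -
              lam / (P.m * #P.X) * (j * ∑ ω : P.Om, (#(P.step ω s σ).2 : ℝ)) := by
        have : ∀ ω : P.Om, (j * A / P.m - lam / (P.m * #P.X) *
          (j * #(P.step ω s σ).2 + #P.H / (P.m * #P.X) * (j * (j - 1) / 2))) =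
            (j * A / P.m - lam / (P.m * #P.X) * (#P.H / (P.m * #P.X) * (j * (j - 1) / 2))) -
              lam / (P.m * #P.X) * (j * (#(P.step ω s σ).2 : ℝ)) := fun ω => by ring
        rw [sum_congr rfl fun ω _ => this ω, sum_sub_distrib, sum_const, card_univ,
          nsmul_eq_mul, ← mul_sum, ← mul_sum]
      have h5 : lam / (P.m * #P.X) * (j * ∑ ω : P.Om, (#(P.step ω s σ).2 : ℝ)) ≤
          lam / (P.m * #P.X) * (j * (Fintype.card P.Om * #s.2 + #P.H * Fintype.card K)) := by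
        gcongr
      have h6 : (j * A / P.m - lam / (P.m * #P.X) *
              (#P.H / (P.m * #P.X) * (j * (j - 1) / 2))) -
              lam / (P.m * #P.X) * (j * (#s.2 + #P.H / (P.m * #P.X))) ≤
            (∑ ω : P.Om, P.proc.EL j (P.step ω s σ) σ) / Fintype.card P.Om := by
        rw [le_div_iff₀ hO]
        refine le_trans (le_of_eq ?_) (h4 ▸ h2 |>.trans' (sub_le_sub_left h5 _))
        rw [card_Om]
        field_simp
      rw [e]
      refine le_trans (le_of_eq ?_) (add_le_add h1 h6)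
      push_cast
      field_simp
      ring
  have hfin := main k (∅, ∅) ⟨empty_subset _, fun z _ => disjoint_empty_right _, by simp⟩
  refine le_trans ?_ hfin
  rw [← hlamd, ← had, ← hEd]
  have e1 : k / P.m * (lam * ((a - E / Real.sqrt P.κ) / #P.X) - Real.log 2 * (#P.H / #P.X)) =
      k * A / P.m := by
    rw [hAd]; ring
  rw [e1]
  have e2 : lam / (P.m * #P.X) * (k * #(∅ : Finset K) + #P.H / (P.m * #P.X) * (k * (k - 1) / 2)) =
      lam * #P.H / ((P.m * #P.X) ^ 2 * 2) * (k * (k - 1)) := by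
    rw [card_empty]
    push_cast
    field_simp
    ring
  have e3 : lam * (k / P.m) ^ 2 * #P.H / (2 * (#P.X : ℝ) ^ 2) =
      lam * #P.H / ((P.m * #P.X) ^ 2 * 2) * (k * k) := by
    field_simp
  have h7 : lam * #P.H / ((P.m * #P.X) ^ 2 * 2) * ((k : ℝ) * (k - 1)) ≤
      lam * #P.H / ((P.m * #P.X) ^ 2 * 2) * (k * k) := by
    apply mul_le_mul_of_nonneg_left _ (by positivity)
    have : (0 : ℝ) ≤ k := Nat.cast_nonneg _
    nlinarith
  show k * A / P.m - lam * (k / P.m) ^ 2 * #P.H / (2 * (#P.X : ℝ) ^ 2) ≤ k * A / P.m -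
    lam / (P.m * #P.X) * (k * #(∅ : Finset K) + #P.H / (P.m * #P.X) * (k * (k - 1) / 2))
  rw [e2, e3]
  linarith

end Pool.Agent.GGE
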