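import Mathlib
import Pool.Agent.GGE.Defs
import Pool.Agent.GGE.ELb
import Pool.Agent.GGE.Hav
import Pool.Agent.GGE.Pok
import Pool.Agent.GGE.Sup

/-!
For fixed parameters there are few good labellings.
-/

namespace Pool.Agent.GGE

open Finset

variable {K L : Type} [Field K] [Fintype K] [Fintype L] [DecidableEq K] [DecidableEq L]

theorem GoodL.hid {P : Par K L} {ta : ℝ} {σ : K ≃ L} (h : GoodL P ta σ) {D0 : ℕ}
    (χ : K → Fin D0) : GoodL (P.hid χ) ta σ := ⟨h.few, h.rare⟩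

theorem ext_empty_eq (σ : K ≃ L) : ext (∅ : Finset K) σ = univ := by
  ext τ
  simp [ext]

open Classical in
theorem core (hKL : Fintype.card K = Fintype.card L) (P : Par K L) (hm : 0 < P.m)
    (hX : P.X.Nonempty) (hQ : ∀ f ∈ P.Q, f.1 ≠ 0)
    (hdisj : ∀ z ∈ P.X, ∀ z' ∈ P.X, z ≠ z' → Disjoint (P.blk z) (P.blk z'))
    (hκ : 0 < P.κ) (hκ1 : P.κ < 1) (hθ : 0 < P.θ) (ta : ℝ) (hta : 16 * P.T * ta ≤ P.κ * P.θ)
    (hm2 : 2 * Real.log (1 / P.κ) ≤ (P.m - 1) * P.κ)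
    (C : ℝ) (hC0 : 0 ≤ C) (hC : ∀ f f' : K × K, f ≠ f' → f.1 ≠ 0 → f'.1 ≠ 0 →
      (#{q ∈ P.X ×ˢ P.X | fv f q.1 = fv f' q.2} : ℝ) ≤ C)
    (k : ℕ) (hB : 2 * (P.T * (P.T + k * P.T + #P.X * #P.Q)) ≤ Fintype.card K)
    (E0 : ℝ) (hE0 : 2 * (P.T * (P.T + 1)) +
      2 * Real.sqrt ((k * P.T : ℝ) * (P.θ * P.T * #P.X + C * P.T ^ 2)) ≤ E0)
    (D0 : ℕ) (hD0 : 0 < D0) (hTD : P.T ≤ D0) (η : ℝ) (G : Finset (K ≃ L))
    (hG : ∀ σ ∈ G, GoodL P ta σ ∧
      η * #P.X ≤ (#{z ∈ P.X | P.dec (view P.ask σ z P.T)} : ℝ)) :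
    #G * Real.exp (k / P.m * (Real.log (1 / P.κ) / 2 *
        (η * (1 / D0 - P.T / D0 ^ 2) - (4 * P.κ / D0 + E0 / #P.X) / Real.sqrt P.κ)
        - Real.log 2 / D0) -
      Real.log (1 / P.κ) / 2 * (k / P.m) ^ 2 / (2 * #P.X * D0)) ≤
      ((Fintype.card K).factorial : ℝ) := by
  have hN : (0 : ℝ) < #P.X := by exact_mod_cast card_pos.2 hX
  have hmR : (0 : ℝ) < P.m := by exact_mod_cast hm
  have hD : (0 : ℝ) < D0 := by exact_mod_cast hD0
  have hs : 0 < Real.sqrt P.κ := Real.sqrt_pos.2 hκ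
  set lam : ℝ := Real.log (1 / P.κ) / 2 with hlam
  have hlam0 : 0 ≤ lam := by
    rw [hlam]
    refine div_nonneg (Real.log_nonneg ?_) (by norm_num)
    rw [le_div_iff₀ hκ]
    linarith
  set Λ : ℝ := k / P.m * (lam *
        (η * (1 / D0 - P.T / D0 ^ 2) - (4 * P.κ / D0 + E0 / #P.X) / Real.sqrt P.κ)
        - Real.log 2 / D0) - lam * (k / P.m) ^ 2 / (2 * #P.X * D0) with hΛ
  have hXK : Nonempty P.X := ⟨⟨hX.choose, hX.choose_spec⟩⟩
  have hFm : Nonempty (Fin P.m) := ⟨⟨0, hm⟩⟩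
  have hOm : Nonempty P.Om := inferInstance
  have hFD : Nonempty (Fin D0) := ⟨⟨0, hD0⟩⟩
  set M : ℝ := (Fintype.card (K → Fin D0) : ℝ) with hM
  have hM0 : 0 < M := by
    rw [hM]
    exact_mod_cast Fintype.card_pos
  -- the expected logarithm
  have hEL : ∀ σ ∈ G, Λ ≤ (∑ χ : K → Fin D0, (P.hid χ).proc.EL k (∅, ∅) σ) / M := by
    intro σ hσ
    obtain ⟨hgood, hacc⟩ := hG σ hσ
    set aH : (K → Fin D0) → ℝ := fun χ => (#{z ∈ (P.hid χ).H |
      acc P.ask P.dec P.T ((P.hid χ).W \ (P.hid χ).blk z) σ z} : ℝ) with haH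
    have h1 : ∀ χ : K → Fin D0, k / P.m * (lam *
        ((aH χ - (4 * P.κ * #(P.hid χ).H + E0) / Real.sqrt P.κ) / #P.X)
        - Real.log 2 * (#(P.hid χ).H / #P.X)) -
      lam * (k / P.m) ^ 2 * #(P.hid χ).H / (2 * (#P.X : ℝ) ^ 2) ≤
        (P.hid χ).proc.EL k (∅, ∅) σ := by
      intro χ
      refine EL_ge hKL (P.hid χ) hm hX (filter_subset _ _) hQ hdisj hκ hκ1 hθ ta hta hm2 C hC0 hC
        k ?_ σ (hgood.hid χ) E0 hE0
      refine le_trans ?_ hB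
      have h2 : #(P.hid χ).W ≤ #P.X * #P.Q := by
        unfold Par.W
        refine card_biUnion_le.trans ?_
        refine (sum_le_card_nsmul _ _ (#P.Q) fun z _ => card_image_le).trans ?_
        rw [smul_eq_mul]
        exact Nat.mul_le_mul_right _ (card_le_card (filter_subset _ _))
      exact Nat.mul_le_mul_left _ (Nat.mul_le_mul_left _ (Nat.add_le_add_left h2 _))
    have h2 := avg_card P D0 hD0
    have h3 := avg_acc P hQ hdisj σ D0 hD0
    rw [← hM] at h2 h3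
    rw [div_eq_iff hM0.ne'] at h2
    rw [le_div_iff₀ hM0] at h3
    rw [le_div_iff₀ hM0]
    refine le_trans ?_ (sum_le_sum fun χ _ => h1 χ)
    have h4 : ∑ χ : K → Fin D0, (k / P.m * (lam *
        ((aH χ - (4 * P.κ * #(P.hid χ).H + E0) / Real.sqrt P.κ) / #P.X)
        - Real.log 2 * (#(P.hid χ).H / #P.X)) -
      lam * (k / P.m) ^ 2 * #(P.hid χ).H / (2 * (#P.X : ℝ) ^ 2)) =
        k / P.m * (lam / #P.X) * ∑ χ : K → Fin D0, aH χ -
        (k / P.m * (lam / #P.X) * (4 * P.κ / Real.sqrt P.κ) + k / P.m * Real.log 2 / #P.X +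
          lam * (k / P.m) ^ 2 / (2 * (#P.X : ℝ) ^ 2)) * ∑ χ : K → Fin D0, (#(P.hid χ).H : ℝ) -
        M * (k / P.m * (lam / #P.X) * (E0 / Real.sqrt P.κ)) := by
      have h5 : M * (k / P.m * (lam / #P.X) * (E0 / Real.sqrt P.κ)) =
          ∑ _χ : K → Fin D0, (k / P.m * (lam / #P.X) * (E0 / Real.sqrt P.κ)) := by
        rw [sum_const, nsmul_eq_mul, card_univ, hM]
      rw [h5, mul_sum, mul_sum, ← sum_sub_distrib, ← sum_sub_distrib]
      refine sum_congr rfl fun χ _ => ?_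
      field_simp
      ring
    rw [h4, h2]
    have h6 : η * #P.X * (1 / D0 - P.T / D0 ^ 2) * M ≤ ∑ χ : K → Fin D0, aH χ := by
      refine le_trans ?_ h3
      refine mul_le_mul_of_nonneg_right ?_ hM0.le
      refine mul_le_mul_of_nonneg_right hacc ?_
      rw [sub_nonneg, div_le_div_iff₀ (by positivity) hD]
      have h7 : (P.T : ℝ) ≤ D0 := by exact_mod_cast hTD
      nlinarith
    have h8 : 0 ≤ k / P.m * (lam / #P.X) := by positivity
    have h9 := mul_le_mul_of_nonneg_left h6 h8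
    refine le_trans (le_of_eq ?_) (sub_le_sub_right (sub_le_sub_right h9 _) _)
    rw [hΛ]
    field_simp
    ring
  -- Jensen
  have hexp : ∀ σ ∈ G, Real.exp Λ ≤ (∑ χ : K → Fin D0, (P.hid χ).proc.EX k (∅, ∅) σ) / M := by
    intro σ hσ
    refine (Real.exp_le_exp.2 (hEL σ hσ)).trans ?_
    have h1 := convexOn_exp.map_sum_le (t := (univ : Finset (K → Fin D0)))
      (w := fun _ => 1 / M) (p := fun χ => (P.hid χ).proc.EL k (∅, ∅) σ)
      (fun _ _ => by positivity) (by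
        rw [sum_const, nsmul_eq_mul, card_univ, ← hM]
        field_simp) (fun _ _ => Set.mem_univ _)
    simp only [smul_eq_mul] at h1
    rw [← mul_sum, ← mul_sum, one_div, inv_mul_eq_div, inv_mul_eq_div] at h1
    refine h1.trans (div_le_div_of_nonneg_right (sum_le_sum fun χ _ => ?_) hM0.le)
    have hOm' : Nonempty (P.hid χ).Om := hOm
    exact exp_EL_le (P.hid χ).proc (proc_ok (P.hid χ) hκ hκ1) k (∅, ∅) σ
  -- summation
  rcases G.eq_empty_or_nonempty with hGe | ⟨σ₀, hσ₀⟩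
  · rw [hGe]
    simp only [card_empty, Nat.cast_zero, zero_mul]
    positivity
  have hcard : (Fintype.card (K ≃ L) : ℝ) = ((Fintype.card K).factorial : ℝ) := by
    rw [Fintype.card_equiv σ₀]
  have hnn : ∀ (χ : K → Fin D0) (σ : K ≃ L), 0 ≤ (P.hid χ).proc.EX k (∅, ∅) σ := by
    intro χ σ
    have hOm' : Nonempty (P.hid χ).Om := hOm
    exact (Real.exp_pos _).le.trans
      (exp_EL_le (P.hid χ).proc (proc_ok (P.hid χ) hκ hκ1) k (∅, ∅) σ)
  calc #G * Real.exp Λ = ∑ _σ ∈ G, Real.exp Λ := by rw [sum_const, nsmul_eq_mul]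
    _ ≤ ∑ σ ∈ G, (∑ χ : K → Fin D0, (P.hid χ).proc.EX k (∅, ∅) σ) / M :=
        sum_le_sum fun σ hσ => hexp σ hσ
    _ ≤ ∑ σ : K ≃ L, (∑ χ : K → Fin D0, (P.hid χ).proc.EX k (∅, ∅) σ) / M :=
        sum_le_sum_of_subset_of_nonneg (subset_univ _) fun σ _ _ =>
          div_nonneg (sum_nonneg fun χ _ => hnn χ σ) hM0.le
    _ = (∑ χ : K → Fin D0, ∑ σ : K ≃ L, (P.hid χ).proc.EX k (∅, ∅) σ) / M := by
        rw [← sum_div, sum_comm]
    _ ≤ (∑ _χ : K → Fin D0, ((Fintype.card K).factorial : ℝ)) / M := by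
        refine div_le_div_of_nonneg_right (sum_le_sum fun χ _ => ?_) hM0.le
        have h1 := EX_le (P.hid χ).proc (proc_ok (P.hid χ) hκ hκ1) k (∅, ∅) σ₀
        have h2 : (P.hid χ).proc.rev ((∅, ∅) : Par.St K) = (∅ : Finset K) := rfl
        rw [h2, ext_empty_eq, card_univ, hcard] at h1
        exact h1
    _ = ((Fintype.card K).factorial : ℝ) := by
        rw [sum_const, nsmul_eq_mul, card_univ, ← hM]
        field_simp

end Pool.Agent.GGE
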