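import Pool.Agent.GGE.Defs

/-! Runs depend only on the labels which are read. -/

namespace Pool.Agent.GGE

open Finset

section det

variable {K L : Type*} [Mul K] [Add K] {ask : List L → K × K} {dec : List L → Prop} {T : ℕ}
  {F : Finset K} {σ τ : K → L} {y : K}

theorem clean_succ {k : ℕ} :
    clean ask F σ y (k + 1) ↔ clean ask F σ y k ∧ ps ask σ y k ∉ F := by
  unfold clean
  constructor
  · intro h
    exact ⟨fun i hi => h i (by omega), h k (by omega)⟩
  · rintro ⟨h1, h2⟩ i hi
    rcases Nat.lt_succ_iff_lt_or_eq.1 hi with h | rfl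
    · exact h1 i h
    · exact h2

theorem clean_zero : clean ask F σ y 0 := fun _ hi => absurd hi (Nat.not_lt_zero _)

theorem clean_mono {j k : ℕ} (hjk : j ≤ k) (h : clean ask F σ y k) : clean ask F σ y j :=
  fun i hi => h i (lt_of_lt_of_le hi hjk)

theorem mem_reads {x : K} :
    x ∈ reads ask T F σ y ↔ ∃ i < T, clean ask F σ y (i + 1) ∧ ps ask σ y i = x := by
  unfold reads
  simp only [mem_image, mem_filter, mem_range, and_assoc]

theorem view_congr (h : ∀ x ∈ reads ask T F σ y, τ x = σ x) {k : ℕ} (hk : k ≤ T)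
    (hc : clean ask F σ y k) : view ask τ y k = view ask σ y k := by
  induction k with
  | zero => rfl
  | succ k ih =>
    have h1 := ih (by omega) (clean_succ.1 hc).1
    have h2 : ps ask σ y k ∈ reads ask T F σ y := mem_reads.2 ⟨k, by omega, hc, rfl⟩
    show τ (fv (ask (view ask τ y k)) y) :: view ask τ y k =
      σ (fv (ask (view ask σ y k)) y) :: view ask σ y k
    rw [h1]
    congr 1
    exact h _ h2

theorem fm_congr (h : ∀ x ∈ reads ask T F σ y, τ x = σ x) {k : ℕ} (hk : k ≤ T)
    (hc : clean ask F σ y k) : fm ask τ y k = fm ask σ y k := by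
  unfold fm
  rw [view_congr h hk hc]

theorem ps_congr (h : ∀ x ∈ reads ask T F σ y, τ x = σ x) {k : ℕ} (hk : k ≤ T)
    (hc : clean ask F σ y k) : ps ask τ y k = ps ask σ y k := by
  unfold ps
  rw [fm_congr h hk hc]

theorem clean_congr (h : ∀ x ∈ reads ask T F σ y, τ x = σ x) {k : ℕ} (hk : k ≤ T) :
    clean ask F τ y k ↔ clean ask F σ y k := by
  induction k with
  | zero => exact ⟨fun _ => clean_zero, fun _ => clean_zero⟩
  | succ k ih =>
    rw [clean_succ, clean_succ, ih (by omega)]
    constructor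
    · rintro ⟨h1, h2⟩
      rw [ps_congr h (by omega) h1] at h2
      exact ⟨h1, h2⟩
    · rintro ⟨h1, h2⟩
      rw [ps_congr h (by omega) h1]
      exact ⟨h1, h2⟩

theorem reads_congr (h : ∀ x ∈ reads ask T F σ y, τ x = σ x) :
    reads ask T F τ y = reads ask T F σ y := by
  ext x
  rw [mem_reads, mem_reads]
  constructor
  · rintro ⟨i, hi, hc, rfl⟩
    have hc' := (clean_congr h (k := i + 1) (by omega)).1 hc
    exact ⟨i, hi, hc', (ps_congr h (by omega) (clean_mono (by omega) hc')).symm⟩
  · rintro ⟨i, hi, hc, rfl⟩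
    exact ⟨i, hi, (clean_congr h (k := i + 1) (by omega)).2 hc,
      ps_congr h (by omega) (clean_mono (by omega) hc)⟩

theorem acc_congr (h : ∀ x ∈ reads ask T F σ y, τ x = σ x) :
    acc ask dec T F τ y ↔ acc ask dec T F σ y := by
  unfold acc
  rw [clean_congr h le_rfl]
  constructor
  · rintro ⟨h1, h2⟩
    rw [view_congr h le_rfl h1] at h2
    exact ⟨h1, h2⟩
  · rintro ⟨h1, h2⟩
    rw [view_congr h le_rfl h1]
    exact ⟨h1, h2⟩

theorem asks_congr (h : ∀ x ∈ reads ask T F σ y, τ x = σ x) (V : Finset (K × K)) :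
    asks ask T V F τ y ↔ asks ask T V F σ y := by
  unfold asks
  constructor
  · rintro ⟨k, hk, h1, h2⟩
    have h1' := (clean_congr h hk.le).1 h1
    rw [fm_congr h hk.le h1'] at h2
    exact ⟨k, hk, h1', h2⟩
  · rintro ⟨k, hk, h1, h2⟩
    refine ⟨k, hk, (clean_congr h hk.le).2 h1, ?_⟩
    rw [fm_congr h hk.le h1]
    exact h2

theorem card_reads_le : #(reads ask T F σ y) ≤ T := by
  classical
  unfold reads
  refine card_image_le.trans ((card_filter_le _ _).trans ?_)
  rw [card_range]

theorem notMem_of_mem_reads {x : K} (h : x ∈ reads ask T F σ y) : x ∉ F := by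
  obtain ⟨i, -, hc, rfl⟩ := mem_reads.1 h
  exact (clean_succ.1 hc).2

end det

end Pool.Agent.GGE
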