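import Mathlib
import Pool.Agent.GGE.Defs
import Pool.Agent.GGE.Core
import Pool.Agent.GGE.Arr

/-!
Fixed advice and fixed set of frequent forms: few labellings are served.
-/

namespace Pool.Agent.GGE

open Finset

open Classical in
theorem pairs_le {n p : ℕ} [Fact p.Prime] (a b : Fin n → ZMod p) (S : Finset (ZMod p))
    (hS : S = (univ : Finset (Fin n × Fin n)).image fun u => a u.1 + b u.2)
    (f f' : ZMod p × ZMod p)
    (h : #{q : (Fin n × Fin n) × (Fin n × Fin n) |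
      fv f (a q.1.1 + b q.1.2) = fv f' (a q.2.1 + b q.2.2)} ≤ 3 * n) :
    #{q ∈ S ×ˢ S | fv f q.1 = fv f' q.2} ≤ 3 * n := by
  refine le_trans ?_ h
  have h1 : ({q ∈ S ×ˢ S | fv f q.1 = fv f' q.2} : Finset (ZMod p × ZMod p)) ⊆
      ({q : (Fin n × Fin n) × (Fin n × Fin n) |
        fv f (a q.1.1 + b q.1.2) = fv f' (a q.2.1 + b q.2.2)} : Finset _).image
        fun q => (a q.1.1 + b q.1.2, a q.2.1 + b q.2.2) := by
    intro q hq
    rw [mem_filter, mem_product, hS, mem_image, mem_image] at hq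
    obtain ⟨⟨⟨u, -, hu⟩, ⟨v, -, hv⟩⟩, he⟩ := hq
    rw [mem_image]
    refine ⟨(u, v), ?_, ?_⟩
    · rw [mem_filter]
      refine ⟨mem_univ _, ?_⟩
      simp only
      rw [hu, hv]
      exact he
    · exact Prod.ext hu hv
  exact (card_le_card h1).trans card_image_le

open Classical in
theorem fixedQ {n p : ℕ} [Fact p.Prime] {L : Type} [Fintype L] [DecidableEq L]
    (hL : Fintype.card L = p) (a b : Fin n → ZMod p)
    (hinj : ∀ i j i' j', a i + b j = a i' + b j' → i = i' ∧ j = j')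
    (hpair : ∀ f f' : ZMod p × ZMod p, f ≠ f' → f.1 ≠ 0 → f'.1 ≠ 0 →
      #{q : (Fin n × Fin n) × (Fin n × Fin n) |
        fv f (a q.1.1 + b q.1.2) = fv f' (a q.2.1 + b q.2.2)} ≤ 3 * n)
    (ask : List L → ZMod p × ZMod p) (dec : List L → Prop) (T : ℕ) (hT : 1 ≤ T)
    (κ θ ta e η : ℝ) (m s : ℕ) (hn : 64 ≤ (n : ℝ)) (he : 0 < e) (hη : 0 < η) (hη1 : η ≤ 1)
    (hκ : κ = (n : ℝ) ^ (-e)) (hθ : 0 < θ) (hta0 : 0 < ta)
    (hm : m = ⌈2 * Real.log (1 / κ) / κ⌉₊ + 1) (hs : s = ⌊η * (n : ℝ) ^ 2 / 16⌋₊)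
    (hκ1 : κ < 1) (hκ2 : Real.sqrt κ ≤ η / 64)
    (hlog : 8 * Real.log 2 ≤ Real.log (1 / κ) / 2 * (η / 2)) (hta : 16 * T * ta ≤ κ * θ)
    (hmn : m ≤ n) (hs1 : η * (n : ℝ) ^ 2 / 32 ≤ s)
    (hE : 128 * T * (2 * (T * (T + 1)) +
        2 * Real.sqrt ((m * s * T : ℝ) * (θ * T * (n : ℝ) ^ 2 + 3 * n * T ^ 2))) ≤
        η / 2 * (n : ℝ) ^ 2 * Real.sqrt κ)
    (hTa : (T / ta) ^ 2 * (3 * n) ≤ η / 2 * (n : ℝ) ^ 2) (hTn : T / ta ≤ n) (hTn' : T ≤ n)
    (hp : (n : ℝ) ^ 6 ≤ p)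
    (Q : Finset (ZMod p × ZMod p)) (hQ : ∀ f ∈ Q, f.1 ≠ 0) (hQc : (#Q : ℝ) ≤ T / ta)
    (G : Finset (ZMod p ≃ L))
    (hG : ∀ σ ∈ G, (#{w : ZMod p | dec (view ask σ w T)} : ℝ) ≤ κ / 16 * p ∧
      (∀ f : ZMod p × ZMod p, f ∉ Q → f.1 ≠ 0 →
        (#{q ∈ (univ : Finset (ZMod p)) ×ˢ range T | fm ask σ q.1 q.2 = f} : ℝ) ≤ ta * p) ∧
      η * (n : ℝ) ^ 2 ≤ (#{z ∈ (univ : Finset (Fin n × Fin n)).image fun u => a u.1 + b u.2 |
        dec (view ask σ z T)} : ℝ)) :
    #G * Real.exp (η ^ 2 * e / 4096 * (n : ℝ) ^ 2 * Real.log n / T) ≤ (p.factorial : ℝ) := by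
  have hn0 : (0 : ℝ) < n := by linarith
  have hκ0 : 0 < κ := by rw [hκ]; positivity
  have hTR : (1 : ℝ) ≤ T := by exact_mod_cast hT
  have hT0 : (0 : ℝ) < T := by linarith
  have hcK : Fintype.card (ZMod p) = p := ZMod.card p
  set S : Finset (ZMod p) := (univ : Finset (Fin n × Fin n)).image fun u => a u.1 + b u.2 with hS
  have hScard : #S = n ^ 2 := by
    rw [hS, card_image_of_injective]
    · rw [card_univ, Fintype.card_prod, Fintype.card_fin, sq]
    · intro u v huv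
      obtain ⟨h1, h2⟩ := hinj _ _ _ _ huv
      exact Prod.ext h1 h2
  have hSp : ∀ f f' : ZMod p × ZMod p, f ≠ f' → f.1 ≠ 0 → f'.1 ≠ 0 →
      #{q ∈ S ×ˢ S | fv f q.1 = fv f' q.2} ≤ 3 * n := fun f f' h1 h2 h3 =>
    pairs_le a b S hS f f' (hpair f f' h1 h2 h3)
  obtain ⟨X, hXS, hXc, hdisj⟩ := select S Q hQ (3 * n) fun f hf f' hf' hne =>
    hSp f f' hne (hQ f hf) (hQ f' hf')
  have hQ2 : ((#Q : ℝ)) ^ 2 * (3 * n) ≤ η / 2 * (n : ℝ) ^ 2 := by
    refine le_trans ?_ hTa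
    have : (#Q : ℝ) ^ 2 ≤ (T / ta) ^ 2 := pow_le_pow_left₀ (Nat.cast_nonneg _) hQc 2
    exact mul_le_mul_of_nonneg_right this (by positivity)
  have hXc' : (n : ℝ) ^ 2 ≤ #X + η / 2 * (n : ℝ) ^ 2 := by
    rw [hScard] at hXc
    have h1 : ((n : ℝ)) ^ 2 ≤ #X + (#Q : ℝ) ^ 2 * (3 * n) := by exact_mod_cast hXc
    linarith
  have hn2 : (0 : ℝ) < (n : ℝ) ^ 2 := by positivity
  have hXhalf : (n : ℝ) ^ 2 / 2 ≤ #X := by nlinarith
  have hXle : (#X : ℝ) ≤ (n : ℝ) ^ 2 := by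
    have := card_le_card hXS
    rw [hScard] at this
    exact_mod_cast this
  have hXpos : (0 : ℝ) < #X := by linarith
  have hXne : X.Nonempty := by
    rw [← card_pos]
    exact_mod_cast hXpos
  have hm0 : 0 < m := by omega
  have hmR : (0 : ℝ) < m := by exact_mod_cast hm0
  set P : Par (ZMod p) L := ⟨ask, dec, T, Q, X, ∅, κ, θ, m⟩ with hP
  have hm2 : 2 * Real.log (1 / κ) ≤ ((m : ℝ) - 1) * κ := by
    have h1 : 2 * Real.log (1 / κ) / κ ≤ ⌈2 * Real.log (1 / κ) / κ⌉₊ := Nat.le_ceil _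
    rw [div_le_iff₀ hκ0] at h1
    rw [hm]
    push_cast
    linarith
  set E0 : ℝ := 2 * (T * (T + 1)) +
        2 * Real.sqrt ((m * s * T : ℝ) * (θ * T * (n : ℝ) ^ 2 + 3 * n * T ^ 2)) with hE0
  have hsn : (s : ℝ) ≤ η * (n : ℝ) ^ 2 / 16 := by
    rw [hs]
    exact Nat.floor_le (by positivity)
  have hs2 : s ≤ n ^ 2 := by
    have h1 : (s : ℝ) ≤ (n : ℝ) ^ 2 := by nlinarith
    exact_mod_cast h1
  have hQn : #Q ≤ n := by
    have : (#Q : ℝ) ≤ n := hQc.trans hTn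
    exact_mod_cast this
  have hXn : #X ≤ n ^ 2 := by
    rw [← hScard]
    exact card_le_card hXS
  have hn64 : 64 ≤ n := by exact_mod_cast hn
  have hpn : n ^ 6 ≤ p := by exact_mod_cast hp
  have hB : 2 * (T * (T + (m * s) * T + #X * #Q)) ≤ p := by
    refine le_trans ?_ hpn
    have h1 : m * s ≤ n ^ 3 := by
      calc m * s ≤ n * n ^ 2 := Nat.mul_le_mul hmn hs2
        _ = n ^ 3 := by ring
    have h2 : #X * #Q ≤ n ^ 3 := by
      calc #X * #Q ≤ n ^ 2 * n := Nat.mul_le_mul hXn hQn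
        _ = n ^ 3 := by ring
    have h3 : (m * s) * T ≤ n ^ 4 := by
      calc (m * s) * T ≤ n ^ 3 * n := Nat.mul_le_mul h1 hTn'
        _ = n ^ 4 := by ring
    have h4 : n ^ 3 ≤ n ^ 4 := Nat.pow_le_pow_right (by omega) (by omega)
    have h5 : T ≤ n ^ 4 := by
      calc T ≤ n := hTn'
        _ = n ^ 1 := (pow_one n).symm
        _ ≤ n ^ 4 := Nat.pow_le_pow_right (by omega) (by omega)
    calc 2 * (T * (T + (m * s) * T + #X * #Q)) ≤ 2 * (n * (n ^ 4 + n ^ 4 + n ^ 4)) := by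
          gcongr
          exact h2.trans h4
      _ = 6 * n ^ 5 := by ring
      _ ≤ n * n ^ 5 := Nat.mul_le_mul_right _ (by omega)
      _ = n ^ 6 := by ring
  -- the main inequality
  have hcore := core (K := ZMod p) (L := L) (by rw [hcK, hL]) P hm0 hXne hQ hdisj hκ0 hκ1 hθ ta
    hta hm2 (3 * n) (by positivity) (fun f f' h1 h2 h3 => by
      have h4 : #{q ∈ X ×ˢ X | fv f q.1 = fv f' q.2} ≤ 3 * n := by
        refine le_trans (card_le_card ?_) (hSp f f' h1 h2 h3)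
        exact filter_subset_filter _ (product_subset_product hXS hXS)
      exact_mod_cast h4) (m * s) (by rw [hcK]; exact hB) E0 (by
      rw [hE0]
      have h5 : Real.sqrt (((m * s : ℕ) * T : ℝ) * (θ * T * #X + 3 * n * T ^ 2)) ≤
          Real.sqrt ((m * s * T : ℝ) * (θ * T * (n : ℝ) ^ 2 + 3 * n * T ^ 2)) := by
        refine Real.sqrt_le_sqrt ?_
        push_cast
        gcongr
      simp only [hP]
      linarith) (8 * T) (by omega) (by simp only [hP]; omega) (η / 2) G (by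
      intro σ hσ
      obtain ⟨h1, h2, h3⟩ := hG σ hσ
      refine ⟨⟨?_, ?_⟩, ?_⟩
      · rw [hcK]
        exact h1
      · rw [hcK]
        exact h2
      · have h4 : #{z ∈ S | dec (view ask σ z T)} ≤
            #{z ∈ X | dec (view ask σ z T)} + #(S \ X) := by
          have h5 : ({z ∈ S | dec (view ask σ z T)} : Finset (ZMod p)) ⊆
              ({z ∈ X | dec (view ask σ z T)} : Finset (ZMod p)) ∪ (S \ X) := by
            intro z hz
            rw [mem_filter] at hz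
            rw [mem_union, mem_filter, mem_sdiff]
            by_cases hzX : z ∈ X
            · exact Or.inl ⟨hzX, hz.2⟩
            · exact Or.inr ⟨hz.1, hzX⟩
          exact (card_le_card h5).trans (card_union_le _ _)
        have h6 : #(S \ X) = n ^ 2 - #X := by rw [card_sdiff_of_subset hXS, hScard]
        have h7 : (#(S \ X) : ℝ) = (n : ℝ) ^ 2 - #X := by
          rw [h6, Nat.cast_sub hXn]
          push_cast
          ring
        have h8 : (#{z ∈ S | dec (view ask σ z T)} : ℝ) ≤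
            #{z ∈ X | dec (view ask σ z T)} + (n : ℝ) ^ 2 - #X := by
          have h9 : (#{z ∈ S | dec (view ask σ z T)} : ℝ) ≤
            #{z ∈ X | dec (view ask σ z T)} + #(S \ X) := by exact_mod_cast h4
          linarith
        change η / 2 * #X ≤ (#{z ∈ X | dec (view ask σ z T)} : ℝ)
        nlinarith)
  rw [hcK] at hcore
  refine le_trans (mul_le_mul_of_nonneg_left (Real.exp_le_exp.2 ?_) (Nat.cast_nonneg _)) hcore
  -- the exponent
  simp only [hP]
  have hlogκ : Real.log (1 / κ) = e * Real.log n := by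
    rw [hκ, one_div, ← Real.rpow_neg hn0.le, neg_neg, Real.log_rpow hn0]
  have hlogn : 0 < Real.log n := Real.log_pos (by linarith)
  set lam : ℝ := Real.log (1 / κ) / 2 with hlam
  have hlam' : lam = e * Real.log n / 2 := by rw [hlam, hlogκ]
  have hlam0 : 0 < lam := by rw [hlam']; positivity
  have hsq : 0 < Real.sqrt κ := Real.sqrt_pos.2 hκ0
  have hsR : (0 : ℝ) ≤ s := Nat.cast_nonneg _
  have hms : (((m * s : ℕ) : ℝ)) / (m : ℝ) = s := by
    push_cast
    field_simp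
  rw [hms]
  push_cast
  -- the terms
  have t1 : η / 2 * (1 / (8 * T) - T / (8 * (T : ℝ)) ^ 2) = 7 * (η / (128 * T)) := by
    field_simp
    ring
  have t2 : (4 * κ / (8 * T) + E0 / #X) / Real.sqrt κ ≤ 2 * (η / (128 * T)) := by
    rw [add_div]
    have h1 : 4 * κ / (8 * T) / Real.sqrt κ ≤ η / (128 * T) := by
      have h2 : 4 * κ / (8 * T) / Real.sqrt κ = Real.sqrt κ / (2 * T) := by
        have h3 : κ = Real.sqrt κ * Real.sqrt κ := (Real.mul_self_sqrt hκ0.le).symm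
        rw [div_div, div_eq_div_iff (by positivity) (by positivity)]
        nth_rw 1 [h3]
        ring
      rw [h2, div_le_div_iff₀ (by positivity) (by positivity)]
      nlinarith
    have h4 : E0 / #X / Real.sqrt κ ≤ η / (128 * T) := by
      rw [div_div, div_le_div_iff₀ (by positivity) (by positivity)]
      have h5 : η / 2 * (n : ℝ) ^ 2 * Real.sqrt κ ≤ η * (#X * Real.sqrt κ) := by
        have h6 : η / 2 * (n : ℝ) ^ 2 ≤ η * #X := by nlinarith
        have h7 := mul_le_mul_of_nonneg_right h6 hsq.le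
        linarith
      calc E0 * (128 * T) = 128 * T * E0 := by ring
        _ ≤ _ := hE.trans h5
    linarith
  have t3 : Real.log 2 / (8 * T) ≤ lam * (η / (128 * T)) := by
    rw [← mul_div_assoc, div_le_div_iff₀ (by positivity) (by positivity)]
    nlinarith
  have t4 : lam * (s : ℝ) ^ 2 / (2 * #X * (8 * T)) ≤ s * (lam * (η / (128 * T))) := by
    have h1 : (s : ℝ) ≤ η / 8 * #X := by nlinarith
    have h2 : (s : ℝ) / (16 * #X * T) ≤ η / (128 * T) := by
      rw [div_le_div_iff₀ (by positivity) (by positivity)]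
      nlinarith
    calc lam * (s : ℝ) ^ 2 / (2 * #X * (8 * T)) = s * (lam * (s / (16 * #X * T))) := by
          field_simp
          ring
      _ ≤ _ := by gcongr
  have t5 : s * (lam * (3 * (η / (128 * T)))) ≤
      s * (lam * (η / 2 * (1 / (8 * T) - T / (8 * (T : ℝ)) ^ 2) -
        (4 * κ / (8 * T) + E0 / #X) / Real.sqrt κ) - Real.log 2 / (8 * T)) -
      lam * (s : ℝ) ^ 2 / (2 * #X * (8 * T)) := by
    rw [t1]
    have h1 : lam * (5 * (η / (128 * T))) ≤ lam * (7 * (η / (128 * T)) -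
        (4 * κ / (8 * T) + E0 / #X) / Real.sqrt κ) :=
      mul_le_mul_of_nonneg_left (by linarith) hlam0.le
    have h2 : s * (lam * (4 * (η / (128 * T)))) ≤ s * (lam * (7 * (η / (128 * T)) -
        (4 * κ / (8 * T) + E0 / #X) / Real.sqrt κ) - Real.log 2 / (8 * T)) := by
      refine mul_le_mul_of_nonneg_left ?_ hsR
      linarith
    linarith
  refine le_trans ?_ t5
  have h1 : η * (n : ℝ) ^ 2 / 32 * (lam * (3 * (η / (128 * T)))) ≤
      s * (lam * (3 * (η / (128 * T)))) := mul_le_mul_of_nonneg_right hs1 (by positivity)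
  refine le_trans ?_ h1
  rw [hlam']
  have h2 : η * (n : ℝ) ^ 2 / 32 * (e * Real.log n / 2 * (3 * (η / (128 * T)))) =
      3 / 8192 * (η ^ 2 * e * (n : ℝ) ^ 2 * Real.log n / T) := by
    field_simp
    ring
  have h3 : η ^ 2 * e / 4096 * (n : ℝ) ^ 2 * Real.log n / T =
      2 / 8192 * (η ^ 2 * e * (n : ℝ) ^ 2 * Real.log n / T) := by
    field_simp
    ring
  rw [h2, h3]
  have h4 : 0 ≤ η ^ 2 * e * (n : ℝ) ^ 2 * Real.log n / T := by positivity
  nlinarith

end Pool.Agent.GGE
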