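import Mathlib
import Pool.Agent.GGE.Defs

/-!
# 3SUM-Indexing in the generic group model, adaptive queries: the model

The group elements are the elements of `K` (the integers modulo a prime), known only by their
labels `σ : K → L` (an injective map).  The memory of a structure is an advice value `α < H`, an
arbitrary function of `σ` and of the arrays, read for free.  The query `y` reads one label after
the other, each time the label of a number `c y + g`, where `(c, g) = ask α l` may depend on the
advice and on the list `l` of the labels read so far.
-/

namespace Pool.Agent.GGE

/-- an adaptive structure with `H` advice values: the next pair `(c, g)` and the decision, as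
functions of the advice and of the list of the labels read so far (the latest first) -/
structure AScheme (K L : Type*) (H : ℕ) where
  ask : Fin H → List L → K × K
  dec : Fin H → List L → Prop

variable {K L : Type*} {H n : ℕ}

/-- `z` is the sum of an entry of the first array and of an entry of the second one -/
def IsSum [Add K] (a b : Fin n → K) (z : K) : Prop := ∃ i j, a i + b j = z

/-- with the labelling `σ` and the advice `α` the structure accepts `z` after `T` reads -/
def Accepts [Mul K] [Add K] (P : AScheme K L H) (T : ℕ) (σ : K → L) (α : Fin H) (z : K) : Prop :=
  P.dec α (view (P.ask α) σ z T)

/-- some advice makes the structure reject at most `E` sums and accept at most `F` other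
elements -/
def Works [Mul K] [Add K] (P : AScheme K L H) (T : ℕ) (a b : Fin n → K) (E F : ℕ) (σ : K → L) :
    Prop :=
  ∃ α, Set.encard {z | IsSum a b z ∧ ¬ Accepts P T σ α z} ≤ E ∧
    Set.encard {z | ¬ IsSum a b z ∧ Accepts P T σ α z} ≤ F

end Pool.Agent.GGE
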