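import Mathlib
import Pool.Agent.GGE.Mod

/-!
# 3SUM-Indexing, generic model, adaptive queries: from bijective labellings to injective ones
-/

namespace Pool.Agent.GGE

open Finset

/-- the lower bound for bijections (Fin.lean) -/
def LowerB : Prop := ∀ ε η : ℝ, 0 < ε → 0 < η → ∃ c : ℝ, 0 < c ∧ ∃ C n₀ : ℕ, ∀ n ≥ n₀,
    ∀ p : ℕ, p.Prime → n ^ C ≤ p → p ≤ 2 ^ n →
    ∃ Bad : Finset ((Fin n → ZMod p) × (Fin n → ZMod p)), n * Bad.card ≤ p ^ (2 * n) ∧
      ∀ a b, (a, b) ∉ Bad → ∀ (L : Type) [Finite L], Nat.card L = p →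
        ∀ (H T E F : ℕ) (P : AScheme (ZMod p) L H), 1 ≤ T → T ^ 100 ≤ n →
        (E : ℝ) ≤ (1 - η) * (n : ℝ) ^ 2 → (F : ℝ) ≤ p / (n : ℝ) ^ ε →
        (Nat.card {σ : ZMod p ≃ L // Works P T a b E F σ} : ℝ) *
          (n : ℝ) ^ (c * (n : ℝ) ^ 2 / T) ≤ H * (p.factorial : ℝ)

/-- the lower bound for injections -/
def LowerI : Prop := ∀ ε η : ℝ, 0 < ε → 0 < η → ∃ c : ℝ, 0 < c ∧ ∃ C n₀ : ℕ, ∀ n ≥ n₀,
    ∀ p : ℕ, p.Prime → n ^ C ≤ p → p ≤ 2 ^ n →
    ∃ Bad : Finset ((Fin n → ZMod p) × (Fin n → ZMod p)), n * Bad.card ≤ p ^ (2 * n) ∧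
      ∀ a b, (a, b) ∉ Bad → ∀ (L : Type) [Finite L]
        (H T E F : ℕ) (P : AScheme (ZMod p) L H), 1 ≤ T → T ^ 100 ≤ n →
        (E : ℝ) ≤ (1 - η) * (n : ℝ) ^ 2 → (F : ℝ) ≤ p / (n : ℝ) ^ ε →
        (Nat.card {σ : ZMod p → L // Function.Injective σ ∧ Works P T a b E F σ} : ℝ) *
          (n : ℝ) ^ (c * (n : ℝ) ^ 2 / T) ≤ H * Nat.card {σ : ZMod p → L // Function.Injective σ}

/-- the structure restricted to the labels of `S` -/
def AScheme.restrict {K L : Type*} {H : ℕ} (P : AScheme K L H) (S : Finset L) :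
    AScheme K S H where
  ask α l := P.ask α (l.map Subtype.val)
  dec α l := P.dec α (l.map Subtype.val)

theorem view_restrict {K L : Type*} [Mul K] [Add K] (ask : List L → K × K) (S : Finset L)
    (σ : K → S) (y : K) (k : ℕ) :
    (view (fun l : List S => ask (l.map Subtype.val)) σ y k).map Subtype.val =
      view ask (fun x => (σ x : L)) y k := by
  induction k with
  | zero => rfl
  | succ k ih =>
    simp only [view, List.map_cons]
    rw [ih]

theorem works_restrict {K L : Type*} [Mul K] [Add K] {H n : ℕ} (P : AScheme K L H) (T : ℕ)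
    (a b : Fin n → K) (E F : ℕ) (S : Finset L) (σ : K → S) :
    Works (P.restrict S) T a b E F σ ↔ Works P T a b E F fun x => (σ x : L) := by
  have h : ∀ α z, Accepts (P.restrict S) T σ α z ↔ Accepts P T (fun x => (σ x : L)) α z := by
    intro α z
    unfold Accepts AScheme.restrict
    dsimp only
    rw [view_restrict]
  unfold Works
  simp only [h]

open Classical in
/-- bijections onto `S` and injections with image `S` -/
theorem card_image_eq {K L : Type} [Fintype K] [DecidableEq K] [Fintype L] (W : (K → L) → Prop) (S : Finset L) :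
    Nat.card {σ : K ≃ S // W fun x => (σ x : L)} =
      #{σ : K → L | (Function.Injective σ ∧ W σ) ∧ univ.image σ = S} := by
  rw [← Fintype.card_subtype, ← Nat.card_eq_fintype_card]
  refine Nat.card_congr (Equiv.ofBijective (fun σ => ⟨fun x => (σ.1 x : L), ?_⟩) ⟨?_, ?_⟩)
  · refine ⟨⟨Subtype.val_injective.comp σ.1.injective, σ.2⟩, ?_⟩
    ext l
    rw [mem_image]
    constructor
    · rintro ⟨x, -, rfl⟩
      exact (σ.1 x).2
    · intro hl
      exact ⟨σ.1.symm ⟨l, hl⟩, mem_univ _, by simp⟩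
  · rintro ⟨σ, hσ⟩ ⟨τ, hτ⟩ h
    rw [Subtype.mk.injEq] at h ⊢
    ext x
    exact congrFun h x
  · rintro ⟨σ, ⟨hi, hW⟩, hS⟩
    have hm : ∀ x, σ x ∈ S := fun x => by rw [← hS]; exact mem_image_of_mem _ (mem_univ _)
    refine ⟨⟨Equiv.ofBijective (fun x => (⟨σ x, hm x⟩ : S)) ⟨?_, ?_⟩, hW⟩, rfl⟩
    · intro x y hxy
      exact hi (congrArg Subtype.val hxy)
    · rintro ⟨l, hl⟩
      rw [← hS, mem_image] at hl
      obtain ⟨x, -, rfl⟩ := hl
      exact ⟨x, rfl⟩

open Classical in
theorem lowerI_of_lowerB (h : LowerB) : LowerI := by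
  intro ε η hε hη
  obtain ⟨c, hc, C, n₀, h1⟩ := h ε η hε hη
  refine ⟨c, hc, C, n₀, fun n hn p hp hnp hpn => ?_⟩
  obtain ⟨Bad, hBad, h2⟩ := h1 n hn p hp hnp hpn
  refine ⟨Bad, hBad, fun a b hab L _ H T E F P hT hTn hE hF => ?_⟩
  have : Fact p.Prime := ⟨hp⟩
  have := Fintype.ofFinite L
  set X : ℝ := (n : ℝ) ^ (c * (n : ℝ) ^ 2 / T) with hX
  have hX0 : 0 ≤ X := by positivity
  obtain ⟨V, hV⟩ : ∃ V : (ZMod p → L) → Prop, ∀ σ, V σ := ⟨fun _ => True, fun _ => trivial⟩
  -- one image
  have h3 : ∀ S : Finset L,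
      (#{σ : ZMod p → L | (Function.Injective σ ∧ Works P T a b E F σ) ∧ univ.image σ = S} : ℝ) *
        X ≤ H * #{σ : ZMod p → L | (Function.Injective σ ∧ V σ) ∧ univ.image σ = S} := by
    intro S
    by_cases hS : #S = p
    · have h4 := h2 a b hab S (by simpa using hS) H T E F (P.restrict S) hT hTn hE hF
      have h5 : Nat.card {σ : ZMod p ≃ S // Works (P.restrict S) T a b E F σ} =
          #{σ : ZMod p → L |
            (Function.Injective σ ∧ Works P T a b E F σ) ∧ univ.image σ = S} := by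
        rw [← card_image_eq (fun σ => Works P T a b E F σ) S]
        simp only [works_restrict]
      have h6 : p.factorial =
          #{σ : ZMod p → L | (Function.Injective σ ∧ V σ) ∧ univ.image σ = S} := by
        rw [← card_image_eq V S]
        have e : ZMod p ≃ S := Fintype.equivOfCardEq (by rw [ZMod.card, Fintype.card_coe, hS])
        rw [Nat.card_congr (Equiv.subtypeUnivEquiv fun _ => hV _), Nat.card_eq_fintype_card,
          Fintype.card_equiv e, ZMod.card]
      rw [h5] at h4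
      rw [← h6]
      exact h4
    · have h4 : #{σ : ZMod p → L |
          (Function.Injective σ ∧ Works P T a b E F σ) ∧ univ.image σ = S} = 0 := by
        rw [card_eq_zero, filter_eq_empty_iff]
        rintro σ - ⟨⟨hi, -⟩, rfl⟩
        apply hS
        rw [card_image_of_injective _ hi, card_univ, ZMod.card]
      rw [h4]
      simp only [Nat.cast_zero, zero_mul]
      positivity
  -- the sum over the images
  have h4 : ∀ W : (ZMod p → L) → Prop, Nat.card {σ : ZMod p → L // Function.Injective σ ∧ W σ} =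
      ∑ S : Finset L, #{σ : ZMod p → L | (Function.Injective σ ∧ W σ) ∧ univ.image σ = S} := by
    intro W
    rw [Nat.card_eq_fintype_card, Fintype.card_subtype,
      card_eq_sum_card_fiberwise (f := fun σ : ZMod p → L => univ.image σ)
        (t := (univ : Finset (Finset L))) (fun _ _ => mem_coe.2 (mem_univ _))]
    simp only [filter_filter]
  have h5 : Nat.card {σ : ZMod p → L // Function.Injective σ} =
      ∑ S : Finset L, #{σ : ZMod p → L | (Function.Injective σ ∧ V σ) ∧ univ.image σ = S} := by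
    rw [← h4 V]
    simp [hV]
  rw [h4 (fun σ => Works P T a b E F σ), h5]
  push_cast
  rw [sum_mul, mul_sum]
  exact sum_le_sum fun S _ => h3 S

end Pool.Agent.GGE
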