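import Mathlib

/-!
The numerical facts.
-/

namespace Pool.Agent.GGE

open Filter Topology Asymptotics

/-- a smaller power is eventually at most any multiple of a larger one -/
theorem num_pow {a b c : ℝ} (hab : a < b) (hc : 0 < c) :
    ∀ᶠ x : ℝ in atTop, x ^ a ≤ c * x ^ b := by
  have h := (tendsto_rpow_atTop (sub_pos.2 hab)).eventually_ge_atTop (1 / c)
  filter_upwards [h, eventually_gt_atTop (0 : ℝ)] with x hx hx0
  have h1 : x ^ b = x ^ a * x ^ (b - a) := by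
    rw [← Real.rpow_add hx0]
    congr 1
    ring
  rw [div_le_iff₀ hc] at hx
  have h2 : 0 < x ^ a := Real.rpow_pos_of_pos hx0 _
  rw [h1]
  calc x ^ a = x ^ a * 1 := (mul_one _).symm
    _ ≤ x ^ a * (x ^ (b - a) * c) := mul_le_mul_of_nonneg_left hx h2.le
    _ = c * (x ^ a * x ^ (b - a)) := by ring

/-- the logarithm is eventually at most any multiple of a power -/
theorem num_log {b c : ℝ} (hb : 0 < b) (hc : 0 < c) :
    ∀ᶠ x : ℝ in atTop, Real.log x ≤ c * x ^ b := by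
  have h := (isLittleO_log_rpow_atTop hb).def hc
  filter_upwards [h, eventually_ge_atTop (1 : ℝ)] with x hx hx0
  rwa [Real.norm_of_nonneg (Real.log_nonneg hx0),
    Real.norm_of_nonneg (Real.rpow_nonneg (by linarith) _)] at hx

/-- products of powers -/
theorem num_mul {x : ℝ} (hx : 0 < x) {a b c : ℝ} (h : a + b = c) : x ^ a * x ^ b = x ^ c := by
  rw [← Real.rpow_add hx, h]

theorem num_T {x T : ℝ} (hT : 0 ≤ T) (h : T ^ 100 ≤ x) : T ≤ x ^ (1 / 100 : ℝ) := by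
  have h2 : T = (T ^ (100 : ℕ)) ^ (1 / 100 : ℝ) := by
    rw [← Real.rpow_natCast, ← Real.rpow_mul hT]
    norm_num
  rw [h2]
  exact Real.rpow_le_rpow (by positivity) h (by norm_num)

theorem num_T2 {x T : ℝ} (hx : 0 < x) (hT : 0 ≤ T) (h : T ≤ x ^ (1 / 100 : ℝ)) :
    T ^ 2 ≤ x ^ (2 / 100 : ℝ) := by
  rw [← num_mul hx (show (1 / 100 : ℝ) + 1 / 100 = 2 / 100 by norm_num), sq]
  exact mul_le_mul h h hT (by positivity)

theorem num_Tta {x T : ℝ} (hx : 0 < x) (h : T ≤ x ^ (1 / 100 : ℝ)) :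
    T / x ^ (-(1 / 5 : ℝ)) ≤ x ^ (21 / 100 : ℝ) := by
  rw [Real.rpow_neg hx.le, div_inv_eq_mul,
    ← num_mul hx (show (1 / 100 : ℝ) + 1 / 5 = 21 / 100 by norm_num)]
  exact mul_le_mul_of_nonneg_right h (by positivity)

theorem num_s {x η : ℝ} (hη : 0 < η) (hη1 : η ≤ 1) :
    ((⌊η * x ^ 2 / 16⌋₊ : ℕ) : ℝ) ≤ x ^ 2 := by
  have h1 : ((⌊η * x ^ 2 / 16⌋₊ : ℕ) : ℝ) ≤ η * x ^ 2 / 16 := Nat.floor_le (by positivity)
  have h3 : 0 ≤ x ^ 2 := by positivity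
  have h4 : η * x ^ 2 ≤ 1 * x ^ 2 := mul_le_mul_of_nonneg_right hη1 h3
  linarith

theorem num_m {x e : ℝ} (hx : 1 ≤ x) (he : 0 < e) (he1 : e ≤ 1 / 100)
    (e4 : Real.log x ≤ x ^ (1 / 200 : ℝ)) (e5 : x ^ (3 / 200 : ℝ) ≤ 1 / 6 * x ^ (2 / 100 : ℝ))
    (e6 : 1 ≤ 1 / 6 * x ^ (2 / 100 : ℝ)) :
    ((⌈2 * Real.log (1 / x ^ (-e)) / x ^ (-e)⌉₊ + 1 : ℕ) : ℝ) ≤ x ^ (2 / 100 : ℝ) := by
  have x0 : 0 < x := by linarith
  have hlx : 0 ≤ Real.log x := Real.log_nonneg hx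
  have hlogk : Real.log (1 / x ^ (-e)) = e * Real.log x := by
    rw [one_div, Real.log_inv, Real.log_rpow x0]
    ring
  have hkinv : 1 / x ^ (-e) ≤ x ^ (1 / 100 : ℝ) := by
    rw [one_div, ← Real.rpow_neg x0.le, neg_neg]
    exact Real.rpow_le_rpow_of_exponent_le hx he1
  have h4 : e * Real.log x ≤ 1 * Real.log x := by
    refine mul_le_mul_of_nonneg_right ?_ hlx
    linarith
  have h5 : 2 * (e * Real.log x) ≤ 2 * x ^ (1 / 200 : ℝ) := by linarith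
  have h0 : 0 ≤ 1 / x ^ (-e) := by positivity
  have h1 : 2 * Real.log (1 / x ^ (-e)) / x ^ (-e) ≤ 2 * x ^ (3 / 200 : ℝ) := by
    rw [hlogk]
    calc 2 * (e * Real.log x) / x ^ (-e) = 2 * (e * Real.log x) * (1 / x ^ (-e)) := by ring
      _ ≤ 2 * x ^ (1 / 200 : ℝ) * x ^ (1 / 100 : ℝ) :=
        mul_le_mul h5 hkinv h0 (by positivity)
      _ = 2 * x ^ (3 / 200 : ℝ) := by
        rw [mul_assoc, num_mul x0 (show (1 / 200 : ℝ) + 1 / 100 = 3 / 200 by norm_num)]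
  have h2 : (0 : ℝ) ≤ 2 * Real.log (1 / x ^ (-e)) / x ^ (-e) := by
    rw [hlogk]
    positivity
  have h3 := (Nat.ceil_lt_add_one h2).le
  push_cast
  linarith

theorem num4 {x e T : ℝ} (hx : 1 ≤ x) (he1 : e ≤ 1 / 100)
    (hT : T ≤ x ^ (1 / 100 : ℝ))
    (e3 : x ^ (-(19 / 100) : ℝ) ≤ 1 / 16 * x ^ (-(11 / 100) : ℝ)) :
    16 * T * x ^ (-(1 / 5) : ℝ) ≤ x ^ (-e) * x ^ (-(1 / 10) : ℝ) := by
  have x0 : 0 < x := by linarith
  have h1 : x ^ (-(11 / 100) : ℝ) ≤ x ^ (-e) * x ^ (-(1 / 10) : ℝ) := by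
    rw [← Real.rpow_add x0]
    refine Real.rpow_le_rpow_of_exponent_le hx ?_
    linarith
  have h2 : T * x ^ (-(1 / 5) : ℝ) ≤ x ^ (-(19 / 100) : ℝ) := by
    rw [← num_mul x0 (show (1 / 100 : ℝ) + -(1 / 5) = -(19 / 100) by norm_num)]
    exact mul_le_mul_of_nonneg_right hT (by positivity)
  linarith

theorem num7a {x T m s θ : ℝ} (hx : 1 ≤ x) (hT0 : 0 ≤ T) (hT : T ≤ x ^ (1 / 100 : ℝ))
    (hm0 : 0 ≤ m) (hs0 : 0 ≤ s) (hm : m ≤ x ^ (2 / 100 : ℝ)) (hs : s ≤ x ^ (2 : ℝ))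
    (hθ : θ = x ^ (-(1 / 10) : ℝ)) (e9 : x ^ (102 / 100 : ℝ) ≤ 1 / 3 * x ^ (191 / 100 : ℝ)) :
    Real.sqrt ((m * s * T : ℝ) * (θ * T * x ^ (2 : ℝ) + 3 * x * T ^ 2)) ≤
      3 / 2 * x ^ (197 / 100 : ℝ) := by
  have x0 : 0 < x := by linarith
  have h1 : m * s * T ≤ x ^ (203 / 100 : ℝ) := by
    have h2 : x ^ (2 / 100 : ℝ) * x ^ (2 : ℝ) * x ^ (1 / 100 : ℝ) = x ^ (203 / 100 : ℝ) := by
      rw [← Real.rpow_add x0, ← Real.rpow_add x0]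
      norm_num
    rw [← h2]
    exact mul_le_mul (mul_le_mul hm hs hs0 (by positivity)) hT hT0 (by positivity)
  have h4 : θ * T * x ^ (2 : ℝ) ≤ x ^ (191 / 100 : ℝ) := by
    have h5 : x ^ (-(1 / 10) : ℝ) * x ^ (1 / 100 : ℝ) * x ^ (2 : ℝ) = x ^ (191 / 100 : ℝ) := by
      rw [← Real.rpow_add x0, ← Real.rpow_add x0]
      norm_num
    rw [← h5, hθ]
    exact mul_le_mul_of_nonneg_right (mul_le_mul_of_nonneg_left hT (by positivity)) (by positivity)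
  have h6 : x * T ^ 2 ≤ x ^ (102 / 100 : ℝ) := by
    rw [← num_mul x0 (show (1 : ℝ) + 2 / 100 = 102 / 100 by norm_num), Real.rpow_one]
    exact mul_le_mul_of_nonneg_left (num_T2 x0 hT0 hT) x0.le
  have h3 : θ * T * x ^ (2 : ℝ) + 3 * x * T ^ 2 ≤ 2 * x ^ (191 / 100 : ℝ) := by
    linarith
  have hθ0 : 0 ≤ θ := by rw [hθ]; positivity
  refine Real.sqrt_le_iff.2 ⟨by positivity, ?_⟩
  have h9 : (3 / 2 * x ^ (197 / 100 : ℝ)) ^ 2 = 9 / 4 * x ^ (394 / 100 : ℝ) := by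
    rw [mul_pow, sq (x ^ (197 / 100 : ℝ)),
      num_mul x0 (show (197 / 100 : ℝ) + 197 / 100 = 394 / 100 by norm_num)]
    norm_num
  rw [h9]
  calc (m * s * T : ℝ) * (θ * T * x ^ (2 : ℝ) + 3 * x * T ^ 2)
      ≤ x ^ (203 / 100 : ℝ) * (2 * x ^ (191 / 100 : ℝ)) :=
        mul_le_mul h1 h3 (by positivity) (by positivity)
    _ = 2 * x ^ (394 / 100 : ℝ) := by
        rw [← num_mul x0 (show (203 / 100 : ℝ) + 191 / 100 = 394 / 100 by norm_num)]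
        ring
    _ ≤ 9 / 4 * x ^ (394 / 100 : ℝ) := by
        have h11 : 0 < x ^ (394 / 100 : ℝ) := by positivity
        linarith

theorem num7 {x T m s θ e η : ℝ} (hx : 1 ≤ x) (hη : 0 < η) (he1 : e ≤ 1 / 100)
    (hT1 : 1 ≤ T) (hT : T ≤ x ^ (1 / 100 : ℝ))
    (hm0 : 0 ≤ m) (hs0 : 0 ≤ s) (hm : m ≤ x ^ (2 / 100 : ℝ)) (hs : s ≤ x ^ (2 : ℝ))
    (hθ : θ = x ^ (-(1 / 10) : ℝ)) (e9 : x ^ (102 / 100 : ℝ) ≤ 1 / 3 * x ^ (191 / 100 : ℝ))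
    (e8 : x ^ (2 / 100 : ℝ) ≤ 1 / 4 * x ^ (197 / 100 : ℝ))
    (e10 : x ^ (198 / 100 : ℝ) ≤ η / 1024 * x ^ (1995 / 1000 : ℝ)) :
    128 * T * (2 * (T * (T + 1)) +
        2 * Real.sqrt ((m * s * T : ℝ) * (θ * T * x ^ (2 : ℝ) + 3 * x * T ^ 2))) ≤
        η / 2 * x ^ (2 : ℝ) * x ^ (-(e / 2)) := by
  have x0 : 0 < x := by linarith
  have h8 := num7a hx (by linarith) hT hm0 hs0 hm hs hθ e9
  set r := Real.sqrt ((m * s * T : ℝ) * (θ * T * x ^ (2 : ℝ) + 3 * x * T ^ 2)) with hr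
  have hr0 : 0 ≤ r := Real.sqrt_nonneg _
  have hT2 := num_T2 x0 (by linarith) hT
  have h12 : T * (T + 1) ≤ 2 * x ^ (2 / 100 : ℝ) := by nlinarith
  have h13 : 2 * (T * (T + 1)) + 2 * r ≤ 4 * x ^ (197 / 100 : ℝ) := by linarith
  have h14 : x ^ (1995 / 1000 : ℝ) ≤ x ^ (2 : ℝ) * x ^ (-(e / 2)) := by
    rw [← Real.rpow_add x0]
    refine Real.rpow_le_rpow_of_exponent_le hx ?_
    linarith
  have h16 : 0 ≤ 2 * (T * (T + 1)) + 2 * r := by positivity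
  calc 128 * T * (2 * (T * (T + 1)) + 2 * r)
      ≤ 128 * x ^ (1 / 100 : ℝ) * (4 * x ^ (197 / 100 : ℝ)) :=
        mul_le_mul (by linarith) h13 h16 (by positivity)
    _ = 512 * x ^ (198 / 100 : ℝ) := by
        rw [← num_mul x0 (show (1 / 100 : ℝ) + 197 / 100 = 198 / 100 by norm_num)]
        ring
    _ ≤ η / 2 * x ^ (1995 / 1000 : ℝ) := by linarith
    _ ≤ η / 2 * (x ^ (2 : ℝ) * x ^ (-(e / 2))) := mul_le_mul_of_nonneg_left h14 (by positivity)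
    _ = η / 2 * x ^ (2 : ℝ) * x ^ (-(e / 2)) := by ring

theorem num8 {x r η : ℝ} (hx : 1 ≤ x) (hr0 : 0 ≤ r) (hr : r ≤ x ^ (21 / 100 : ℝ))
    (e11 : x ^ (142 / 100 : ℝ) ≤ η / 6 * x ^ (2 : ℝ)) :
    r ^ 2 * (3 * x) ≤ η / 2 * x ^ (2 : ℝ) := by
  have x0 : 0 < x := by linarith
  have h0 : r ^ 2 ≤ x ^ (42 / 100 : ℝ) := by
    rw [← num_mul x0 (show (21 / 100 : ℝ) + 21 / 100 = 42 / 100 by norm_num), sq]
    exact mul_le_mul hr hr hr0 (by positivity)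
  have h1 : r ^ 2 * x ≤ x ^ (142 / 100 : ℝ) := by
    rw [← num_mul x0 (show (42 / 100 : ℝ) + 1 = 142 / 100 by norm_num), Real.rpow_one]
    exact mul_le_mul_of_nonneg_right h0 x0.le
  linarith

theorem num9 {x r η e T : ℝ} (hx : 64 ≤ x) (hη : 0 < η) (he : 0 < e) (hT1 : 1 ≤ T)
    (hT : T ≤ x ^ (1 / 100 : ℝ)) (hr0 : 0 ≤ r) (hr : r ≤ x ^ (21 / 100 : ℝ))
    (e12 : x ^ (121 / 100 : ℝ) ≤ η ^ 2 * e / 8192 / 6 * x ^ (199 / 100 : ℝ)) :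
    3 * (r + 1) * (x * Real.log 2) ≤ η ^ 2 * e / 8192 * x ^ (2 : ℝ) * Real.log x / T := by
  have x0 : 0 < x := by linarith
  have x1 : 1 ≤ x := by linarith
  have hTp : 0 < T := by linarith
  have h1 : (r + 1) * x ≤ 2 * x ^ (121 / 100 : ℝ) := by
    have h3 : 1 ≤ x ^ (21 / 100 : ℝ) := Real.one_le_rpow x1 (by norm_num)
    rw [← num_mul x0 (show (21 / 100 : ℝ) + 1 = 121 / 100 by norm_num), Real.rpow_one,
      ← mul_assoc]
    refine mul_le_mul_of_nonneg_right ?_ x0.le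
    linarith
  have h4 : Real.log 2 ≤ 1 := by
    have := Real.log_two_lt_d9
    linarith
  have h5 : 3 * (r + 1) * (x * Real.log 2) ≤ 6 * x ^ (121 / 100 : ℝ) := by
    calc 3 * (r + 1) * (x * Real.log 2) = 3 * ((r + 1) * x) * Real.log 2 := by ring
      _ ≤ 3 * ((r + 1) * x) * 1 := mul_le_mul_of_nonneg_left h4 (by positivity)
      _ ≤ 6 * x ^ (121 / 100 : ℝ) := by linarith
  have h11 : 1 ≤ Real.log x := by
    have h12 : Real.log (Real.exp 1) ≤ Real.log x :=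
      Real.log_le_log (Real.exp_pos _) (by linarith [Real.exp_one_lt_d9])
    rwa [Real.log_exp] at h12
  have h8 : x ^ (199 / 100 : ℝ) ≤ x ^ (2 : ℝ) * Real.log x / T := by
    rw [le_div_iff₀ hTp]
    calc x ^ (199 / 100 : ℝ) * T ≤ x ^ (199 / 100 : ℝ) * x ^ (1 / 100 : ℝ) :=
        mul_le_mul_of_nonneg_left hT (by positivity)
      _ = x ^ (2 : ℝ) * 1 := by
        rw [num_mul x0 (show (199 / 100 : ℝ) + 1 / 100 = 2 by norm_num), mul_one]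
      _ ≤ x ^ (2 : ℝ) * Real.log x := mul_le_mul_of_nonneg_left h11 (by positivity)
  have hc0 : 0 < η ^ 2 * e / 8192 := by positivity
  calc 3 * (r + 1) * (x * Real.log 2) ≤ 6 * x ^ (121 / 100 : ℝ) := h5
    _ ≤ η ^ 2 * e / 8192 * x ^ (199 / 100 : ℝ) := by linarith
    _ ≤ η ^ 2 * e / 8192 * (x ^ (2 : ℝ) * Real.log x / T) := mul_le_mul_of_nonneg_left h8 hc0.le
    _ = η ^ 2 * e / 8192 * x ^ (2 : ℝ) * Real.log x / T := by ring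

theorem num_ev (e η : ℝ) (he : 0 < e) (hη : 0 < η) :
    ∀ᶠ x : ℝ in atTop, 64 ≤ x ∧ x ^ (-(e / 2)) ≤ η / 64 * x ^ (0 : ℝ) ∧
      32 * Real.log 2 / (e * η) ≤ Real.log x ∧
      x ^ (-(19 / 100) : ℝ) ≤ 1 / 16 * x ^ (-(11 / 100) : ℝ) ∧
      Real.log x ≤ 1 * x ^ (1 / 200 : ℝ) ∧
      x ^ (3 / 200 : ℝ) ≤ 1 / 6 * x ^ (2 / 100 : ℝ) ∧
      x ^ (0 : ℝ) ≤ 1 / 6 * x ^ (2 / 100 : ℝ) ∧
      x ^ (0 : ℝ) ≤ η / 32 * x ^ (2 : ℝ) ∧
      x ^ (2 / 100 : ℝ) ≤ 1 / 4 * x ^ (197 / 100 : ℝ) ∧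
      x ^ (102 / 100 : ℝ) ≤ 1 / 3 * x ^ (191 / 100 : ℝ) ∧
      x ^ (198 / 100 : ℝ) ≤ η / 1024 * x ^ (1995 / 1000 : ℝ) ∧
      x ^ (142 / 100 : ℝ) ≤ η / 6 * x ^ (2 : ℝ) ∧
      x ^ (121 / 100 : ℝ) ≤ η ^ 2 * e / 8192 / 6 * x ^ (199 / 100 : ℝ) ∧
      x ^ (21 / 100 : ℝ) ≤ 1 * x ^ (1 : ℝ) ∧ x ^ (2 / 100 : ℝ) ≤ 1 * x ^ (1 : ℝ) := by
  have hη2 : 0 < η ^ 2 * e / 8192 / 6 := by positivity
  refine (eventually_ge_atTop 64).and ((num_pow (by linarith) (by positivity)).and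
    ((Real.tendsto_log_atTop.eventually_ge_atTop _).and
    ((num_pow (by norm_num) (by positivity)).and
    ((num_log (by norm_num) (by positivity)).and
    ((num_pow (by norm_num) (by positivity)).and
    ((num_pow (by norm_num) (by positivity)).and
    ((num_pow (by norm_num) (by positivity)).and
    ((num_pow (by norm_num) (by positivity)).and
    ((num_pow (by norm_num) (by positivity)).and
    ((num_pow (by norm_num) (by positivity)).and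
    ((num_pow (by norm_num) (by positivity)).and
    ((num_pow (by norm_num) hη2).and
    ((num_pow (by norm_num) (by positivity)).and
    (num_pow (by norm_num) (by positivity)))))))))))))))

theorem num (e η : ℝ) (he : 0 < e) (he1 : e ≤ 1 / 100) (hη : 0 < η) (hη1 : η ≤ 1) :
    ∃ n₀ : ℕ, 2 ≤ n₀ ∧ ∀ n : ℕ, n₀ ≤ n → ∀ T : ℕ, 1 ≤ T → T ^ 100 ≤ n →
      ∀ κ θ ta : ℝ, κ = (n : ℝ) ^ (-e) → θ = (n : ℝ) ^ (-(1 / 10 : ℝ)) →
        ta = (n : ℝ) ^ (-(1 / 5 : ℝ)) →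
      ∀ m s : ℕ, m = ⌈2 * Real.log (1 / κ) / κ⌉₊ + 1 → s = ⌊η * (n : ℝ) ^ 2 / 16⌋₊ →
      κ < 1 ∧ Real.sqrt κ ≤ η / 64 ∧ 8 * Real.log 2 ≤ Real.log (1 / κ) / 2 * (η / 2) ∧
      16 * T * ta ≤ κ * θ ∧ m ≤ n ∧ η * (n : ℝ) ^ 2 / 32 ≤ s ∧
      128 * T * (2 * (T * (T + 1)) +
        2 * Real.sqrt ((m * s * T : ℝ) * (θ * T * (n : ℝ) ^ 2 + 3 * n * T ^ 2))) ≤
        η / 2 * (n : ℝ) ^ 2 * Real.sqrt κ ∧
      (T / ta) ^ 2 * (3 * n) ≤ η / 2 * (n : ℝ) ^ 2 ∧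
      3 * (T / ta + 1) * (n * Real.log 2) ≤ η ^ 2 * e / 8192 * (n : ℝ) ^ 2 * Real.log n / T ∧
      T / ta ≤ n ∧ 64 ≤ (n : ℝ) := by
  obtain ⟨n₀, hn₀⟩ := eventually_atTop.1
    (tendsto_natCast_atTop_atTop.eventually (num_ev e η he hη))
  refine ⟨max n₀ 2, le_max_right _ _, fun n hn T hT hTn κ θ ta hκ hθ hta m s hm hs => ?_⟩
  obtain ⟨h64, e1, e2, e3, e4, e5, e6, e7, e8, e9, e10, e11, e12, e13, e14⟩ :=
    hn₀ n (le_trans (le_max_left _ _) hn)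
  clear hn₀
  have x0 : 0 < (n : ℝ) := by linarith
  have x1 : 1 ≤ (n : ℝ) := by linarith
  have hx2 : (n : ℝ) ^ (2 : ℕ) = (n : ℝ) ^ (2 : ℝ) := by
    rw [← Real.rpow_natCast]
    norm_num
  have hT0 : (1 : ℝ) ≤ T := by exact_mod_cast hT
  have hTx : (T : ℝ) ≤ (n : ℝ) ^ (1 / 100 : ℝ) :=
    num_T (by linarith) (by exact_mod_cast hTn)
  rw [Real.rpow_zero, mul_one] at e1
  rw [one_mul] at e4
  rw [Real.rpow_zero] at e6 e7
  rw [one_mul, Real.rpow_one] at e13 e14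
  have hκ0 : 0 < κ := by rw [hκ]; exact Real.rpow_pos_of_pos x0 _
  have hlogk : Real.log (1 / κ) = e * Real.log n := by
    rw [hκ, one_div, Real.log_inv, Real.log_rpow x0]
    ring
  have hsq : Real.sqrt κ = (n : ℝ) ^ (-(e / 2)) := by
    rw [hκ, Real.sqrt_eq_rpow, ← Real.rpow_mul x0.le]
    congr 1
    ring
  have hta0 : 0 < ta := by rw [hta]; exact Real.rpow_pos_of_pos x0 _
  have hr0 : 0 ≤ T / ta := div_nonneg (by linarith) hta0.le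
  have hr : T / ta ≤ (n : ℝ) ^ (21 / 100 : ℝ) := by
    rw [hta]
    exact num_Tta x0 hTx
  have hmx : (m : ℝ) ≤ (n : ℝ) ^ (2 / 100 : ℝ) := by
    rw [hm, hκ]
    exact num_m x1 he he1 e4 e5 e6
  have hsx : (s : ℝ) ≤ (n : ℝ) ^ (2 : ℝ) := by
    rw [hs, ← hx2]
    exact num_s hη hη1
  refine ⟨?_, ?_, ?_, ?_, ?_, ?_, ?_, ?_, ?_, ?_, h64⟩
  · rw [hκ]
    exact Real.rpow_lt_one_of_one_lt_of_neg (by linarith) (by linarith)
  · rw [hsq]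
    exact e1
  · rw [hlogk]
    rw [div_le_iff₀ (by positivity)] at e2
    linarith
  · rw [hta, hκ, hθ]
    exact num4 x1 he1 hTx e3
  · have h1 : (m : ℝ) ≤ n := by linarith
    exact_mod_cast h1
  · have h1 : η * (n : ℝ) ^ 2 / 16 < s + 1 := by
      rw [hs]
      exact Nat.lt_floor_add_one _
    rw [hx2] at h1 ⊢
    linarith
  · rw [hsq, hx2]
    exact num7 x1 hη he1 hT0 hTx (Nat.cast_nonneg _) (Nat.cast_nonneg _) hmx hsx hθ e9 e8 e10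
  · rw [hx2]
    exact num8 x1 hr0 hr e11
  · rw [hx2]
    exact num9 h64 hη he hT0 hTx hr0 hr e12
  · linarith

end Pool.Agent.GGE
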