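import Mathlib
import Pool.Agent.GGE.Mod
import Pool.Agent.GGE.Fix
import Pool.Agent.GGE.Num
import Pool.Agent.GGE.Arr
import Pool.Agent.GGE.Inj

/-!
The lower bound for bijective labellings.
-/

namespace Pool.Agent.GGE

open Finset

open Classical in
/-- the number of small sets -/
theorem card_small {α : Type} [Fintype α] (r : ℕ) :
    #{Q : Finset α | #Q ≤ r} ≤ (Fintype.card α + 1) ^ r := by
  have h1 : (Finset.univ.filter fun Q : Finset α => #Q ≤ r) ⊆
      (univ : Finset (Fin r → Option α)).image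
        fun g => univ.biUnion fun i => (g i).toFinset := by
    intro Q hQ
    rw [mem_filter] at hQ
    rw [mem_image]
    refine ⟨fun i => Q.toList[(i : ℕ)]?, mem_univ _, ?_⟩
    ext f
    rw [mem_biUnion]
    constructor
    · rintro ⟨i, -, hi⟩
      rw [Option.mem_toFinset, Option.mem_def] at hi
      have := List.mem_of_getElem? hi
      rwa [mem_toList] at this
    · intro hf
      rw [← mem_toList] at hf
      obtain ⟨i, hi, he⟩ := List.mem_iff_getElem.1 hf
      have hir : i < r := by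
        rw [length_toList] at hi
        omega
      refine ⟨⟨i, hir⟩, mem_univ _, ?_⟩
      rw [Option.mem_toFinset, Option.mem_def]
      simp only
      rw [List.getElem?_eq_getElem hi, he]
  refine (card_le_card h1).trans (card_image_le.trans ?_)
  rw [card_univ, Fintype.card_fun, Fintype.card_fin, Fintype.card_option]

open Classical in
/-- the union bound over the frequent forms, for a fixed advice -/
theorem fixedAdvice {p : ℕ} [Fact p.Prime] {L : Type} [Fintype L] [DecidableEq L]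
    (ask : List L → ZMod p × ZMod p) (T : ℕ) (ta A : ℝ) (hta0 : 0 < ta)
    (hlogp : 3 * (T / ta) * Real.log p ≤ A / 2)
    (G : Finset (ZMod p ≃ L)) (hG : ∀ Q : Finset (ZMod p × ZMod p), (∀ f ∈ Q, f.1 ≠ 0) →
      (#Q : ℝ) ≤ T / ta → (#{σ ∈ G | ∀ f : ZMod p × ZMod p, f ∉ Q → f.1 ≠ 0 →
        (#{q ∈ (univ : Finset (ZMod p)) ×ˢ range T | fm ask (σ : ZMod p ≃ L) q.1 q.2 = f} : ℝ) ≤
          ta * p} : ℝ) * Real.exp A ≤ (p.factorial : ℝ)) :
    (#G : ℝ) * Real.exp (A / 2) ≤ (p.factorial : ℝ) := by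
  have hp : p.Prime := Fact.out
  have hpR : (0 : ℝ) < p := by exact_mod_cast hp.pos
  set r : ℕ := ⌊(T : ℝ) / ta⌋₊ with hr
  have hTta : (0 : ℝ) ≤ T / ta := by positivity
  set QQ : Finset (Finset (ZMod p × ZMod p)) :=
    {Q : Finset (ZMod p × ZMod p) | #Q ≤ r ∧ ∀ f ∈ Q, f.1 ≠ 0} with hQQ
  set GQ : Finset (ZMod p × ZMod p) → Finset (ZMod p ≃ L) := fun Q =>
    G.filter fun σ : ZMod p ≃ L => ∀ f : ZMod p × ZMod p, f ∉ Q → f.1 ≠ 0 →
        (#{q ∈ (univ : Finset (ZMod p)) ×ˢ range T | fm ask σ q.1 q.2 = f} : ℝ) ≤ ta * p with hGQ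
  have hcover : G ⊆ QQ.biUnion GQ := by
    intro σ hσ
    rw [mem_biUnion]
    set Q : Finset (ZMod p × ZMod p) := univ.filter fun f => f.1 ≠ 0 ∧ ta * p <
      (#{q ∈ (univ : Finset (ZMod p)) ×ˢ range T | fm ask σ q.1 q.2 = f} : ℝ) with hQ
    refine ⟨Q, ?_, ?_⟩
    · rw [hQQ, mem_filter]
      refine ⟨mem_univ _, ?_, ?_⟩
      · rw [hr]
        refine Nat.le_floor ?_
        rw [le_div_iff₀ hta0]
        have h1 : #Q • (ta * p) ≤ ∑ f ∈ Q,
            (#{q ∈ (univ : Finset (ZMod p)) ×ˢ range T | fm ask σ q.1 q.2 = f} : ℝ) := by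
          refine card_nsmul_le_sum _ _ _ fun f hf => ?_
          rw [hQ, mem_filter] at hf
          exact hf.2.2.le
        have h2 : ∑ f ∈ Q,
            #{q ∈ (univ : Finset (ZMod p)) ×ˢ range T | fm ask σ q.1 q.2 = f} ≤ p * T := by
          rw [← card_biUnion]
          · have h3 : #((univ : Finset (ZMod p)) ×ˢ range T) = p * T := by
              rw [card_product, card_univ, ZMod.card, card_range]
            rw [← h3]
            refine card_le_card ?_
            intro q hq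
            rw [mem_biUnion] at hq
            obtain ⟨f, -, hq⟩ := hq
            exact (mem_filter.1 hq).1
          · intro f _ f' _ hne
            change Disjoint _ _
            rw [Finset.disjoint_left]
            intro q h1 h2
            rw [mem_filter] at h1 h2
            exact hne (h1.2.symm.trans h2.2)
        have h3 : (#Q : ℝ) * (ta * p) ≤ p * T := by
          rw [nsmul_eq_mul] at h1
          refine h1.trans ?_
          exact_mod_cast h2
        nlinarith
      · intro f hf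
        rw [hQ, mem_filter] at hf
        exact hf.2.1
    · simp only [hGQ, mem_filter]
      refine ⟨hσ, fun f hf hf0 => ?_⟩
      by_contra hcon
      push Not at hcon
      apply hf
      rw [hQ, mem_filter]
      exact ⟨mem_univ _, hf0, hcon⟩
  have hQle : ∀ Q ∈ QQ, (#(GQ Q) : ℝ) ≤ (p.factorial : ℝ) / Real.exp A := by
    intro Q hQ
    rw [hQQ, mem_filter] at hQ
    rw [le_div_iff₀ (Real.exp_pos _)]
    have h1 : (#Q : ℝ) ≤ T / ta := by
      have h2 : (#Q : ℝ) ≤ r := by exact_mod_cast hQ.2.1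
      exact h2.trans (Nat.floor_le hTta)
    exact hG Q hQ.2.2 h1
  have hGle : (#G : ℝ) ≤ #QQ * ((p.factorial : ℝ) / Real.exp A) := by
    have h1 : #G ≤ ∑ Q ∈ QQ, #(GQ Q) := (card_le_card hcover).trans card_biUnion_le
    have h2 : (#G : ℝ) ≤ ∑ Q ∈ QQ, (#(GQ Q) : ℝ) := by exact_mod_cast h1
    refine h2.trans ((sum_le_card_nsmul _ _ _ hQle).trans ?_)
    rw [nsmul_eq_mul]
  have hcard : (#QQ : ℝ) ≤ Real.exp (A / 2) := by
    have h1 : #QQ ≤ (Fintype.card (ZMod p × ZMod p) + 1) ^ r := by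
      refine le_trans (card_le_card ?_) (card_small r)
      intro Q hQ
      rw [hQQ, mem_filter] at hQ
      rw [mem_filter]
      exact ⟨mem_univ _, hQ.2.1⟩
    rw [Fintype.card_prod, ZMod.card] at h1
    have h2 : p * p + 1 ≤ p ^ 3 := by
      have h3 := hp.two_le
      nlinarith [Nat.mul_le_mul h3 (Nat.le_refl (p * p))]
    have h4 : (#QQ : ℝ) ≤ ((p : ℝ) ^ 3) ^ r := by
      have h5 := h1.trans (Nat.pow_le_pow_left h2 r)
      exact_mod_cast h5
    refine h4.trans ?_
    have h6 : ((p : ℝ) ^ 3) ^ r = Real.exp (3 * r * Real.log p) := by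
      rw [← pow_mul, ← Real.rpow_natCast, Real.rpow_def_of_pos hpR]
      push_cast
      ring_nf
    rw [h6]
    refine Real.exp_le_exp.2 (le_trans ?_ hlogp)
    have h7 : (r : ℝ) ≤ T / ta := Nat.floor_le hTta
    have h8 : 0 ≤ Real.log p := Real.log_natCast_nonneg p
    gcongr
  have hf0 : (0 : ℝ) < (p.factorial : ℝ) := by exact_mod_cast p.factorial_pos
  calc (#G : ℝ) * Real.exp (A / 2)
      ≤ #QQ * ((p.factorial : ℝ) / Real.exp A) * Real.exp (A / 2) :=
        mul_le_mul_of_nonneg_right hGle (Real.exp_pos _).le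
    _ ≤ Real.exp (A / 2) * ((p.factorial : ℝ) / Real.exp A) * Real.exp (A / 2) := by
        gcongr
    _ = (p.factorial : ℝ) := by
        have h1 : Real.exp A = Real.exp (A / 2) * Real.exp (A / 2) := by
          rw [← Real.exp_add]
          ring_nf
        rw [h1]
        field_simp

open Classical in
/-- a labelling which is served has few accepted numbers and many accepted sums -/
theorem works_imp {n p : ℕ} [Fact p.Prime] {L : Type} {H : ℕ} (P : AScheme (ZMod p) L H)
    (T E F : ℕ) (a b : Fin n → ZMod p) (S : Finset (ZMod p))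
    (hS : S = (univ : Finset (Fin n × Fin n)).image fun u => a u.1 + b u.2)
    (σ : ZMod p → L) (h : Works P T a b E F σ) :
    ∃ α : Fin H, (#{w : ZMod p | P.dec α (view (P.ask α) σ w T)} : ℝ) ≤ #S + F ∧
      (#S : ℝ) ≤ (#{z ∈ S | P.dec α (view (P.ask α) σ z T)} : ℝ) + E := by
  obtain ⟨α, h1, h2⟩ := h
  have hmem : ∀ z, z ∈ S ↔ IsSum a b z := by
    intro z
    rw [hS, mem_image]
    constructor
    · rintro ⟨u, -, hu⟩
      exact ⟨u.1, u.2, hu⟩
    · rintro ⟨i, j, hij⟩
      exact ⟨(i, j), mem_univ _, hij⟩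
  have e1 : {z | IsSum a b z ∧ ¬ Accepts P T σ α z} =
      ((S.filter fun z => ¬ P.dec α (view (P.ask α) σ z T) : Finset (ZMod p)) :
        Set (ZMod p)) := by
    ext z
    simp [hmem, Accepts]
  have e2 : {z | ¬ IsSum a b z ∧ Accepts P T σ α z} =
      (((univ : Finset (ZMod p)).filter fun z => z ∉ S ∧ P.dec α (view (P.ask α) σ z T) :
        Finset (ZMod p)) : Set (ZMod p)) := by
    ext z
    simp [hmem, Accepts]
  rw [e1, Set.encard_coe_eq_coe_finsetCard] at h1
  rw [e2, Set.encard_coe_eq_coe_finsetCard] at h2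
  have h1' : #(S.filter fun z => ¬ P.dec α (view (P.ask α) σ z T)) ≤ E := by exact_mod_cast h1
  have h2' : #((univ : Finset (ZMod p)).filter fun z => z ∉ S ∧
      P.dec α (view (P.ask α) σ z T)) ≤ F := by exact_mod_cast h2
  refine ⟨α, ?_, ?_⟩
  · have h3 : ({w : ZMod p | P.dec α (view (P.ask α) σ w T)} : Finset (ZMod p)) ⊆
        S ∪ ((univ : Finset (ZMod p)).filter fun z => z ∉ S ∧
          P.dec α (view (P.ask α) σ z T)) := by
      intro z hz
      rw [mem_filter] at hz
      rw [mem_union, mem_filter]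
      by_cases hzS : z ∈ S
      · exact Or.inl hzS
      · exact Or.inr ⟨mem_univ _, hzS, hz.2⟩
    have h4 := (card_le_card h3).trans (card_union_le _ _)
    have h5 : #{w : ZMod p | P.dec α (view (P.ask α) σ w T)} ≤ #S + F := by omega
    exact_mod_cast h5
  · have h3 := card_filter_add_card_filter_not (s := S)
      (fun z => P.dec α (view (P.ask α) σ z T))
    have h4 : #S ≤ #{z ∈ S | P.dec α (view (P.ask α) σ z T)} + E := by omega
    exact_mod_cast h4

theorem lowerB : LowerB := by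
  classical
  intro ε η hε hη
  set η1 : ℝ := min η 1 with hη1
  set e : ℝ := min (ε / 2) (1 / 100) with he
  have hη1pos : 0 < η1 := lt_min hη one_pos
  have hη1le : η1 ≤ 1 := min_le_right _ _
  have hepos : 0 < e := lt_min (by linarith) (by norm_num)
  have hele : e ≤ 1 / 100 := min_le_right _ _
  have hele2 : e ≤ ε / 2 := min_le_left _ _
  obtain ⟨n1, hn1, hnum⟩ := num e η1 hepos hele hη1pos hη1le
  obtain ⟨C1, n2, harr⟩ := arrays
  obtain ⟨n3, hn3⟩ : ∃ n3 : ℕ, ∀ n ≥ n3, (32 : ℝ) ≤ (n : ℝ) ^ (ε / 2) := by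
    have h1 : Filter.Tendsto (fun n : ℕ => (n : ℝ) ^ (ε / 2)) Filter.atTop Filter.atTop :=
      (tendsto_rpow_atTop (by linarith)).comp tendsto_natCast_atTop_atTop
    obtain ⟨n3, h⟩ := Filter.eventually_atTop.1 (h1.eventually_ge_atTop 32)
    exact ⟨n3, h⟩
  refine ⟨η1 ^ 2 * e / 8192, by positivity, max C1 10, max n1 (max n2 n3), ?_⟩
  intro n hn p hp hpC hp2
  have hpF : Fact p.Prime := ⟨hp⟩
  have hnn1 : n1 ≤ n := (le_max_left _ _).trans hn
  have hnn2 : n2 ≤ n := ((le_max_left _ _).trans (le_max_right _ _)).trans hn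
  have hnn3 : n3 ≤ n := ((le_max_right _ _).trans (le_max_right _ _)).trans hn
  have hnpos : 0 < n := by omega
  obtain ⟨Bad, hBad, hab⟩ := harr n hnn2 p ((Nat.pow_le_pow_right hnpos (le_max_left _ _)).trans hpC)
  refine ⟨Bad, hBad, ?_⟩
  intro a b hab' L _ hL H T E F P hT hTn hE hF
  have hLF : Fintype L := Fintype.ofFinite L
  have hLc : Fintype.card L = p := by rw [← hL, Nat.card_eq_fintype_card]
  obtain ⟨hinj, hpair⟩ := hab a b hab'
  set κ : ℝ := (n : ℝ) ^ (-e) with hκ
  set θ : ℝ := (n : ℝ) ^ (-(1 / 10 : ℝ)) with hθ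
  set ta : ℝ := (n : ℝ) ^ (-(1 / 5 : ℝ)) with hta
  obtain ⟨q1, q2, q3, q4, q5, q6, q7, q8, q9, q10, q11⟩ :=
    hnum n hnn1 T hT hTn κ θ ta rfl rfl rfl _ _ rfl rfl
  have hn0 : (0 : ℝ) < n := by exact_mod_cast hnpos
  have hn1R : (1 : ℝ) ≤ n := by linarith
  have hκ0 : 0 < κ := by rw [hκ]; positivity
  have hθ0 : 0 < θ := by rw [hθ]; positivity
  have hta0 : 0 < ta := by rw [hta]; positivity
  have hpR : (0 : ℝ) < p := by exact_mod_cast hp.pos
  have hp10 : (n : ℝ) ^ 10 ≤ p := by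
    have h1 : n ^ 10 ≤ p := (Nat.pow_le_pow_right hnpos (le_max_right _ _)).trans hpC
    exact_mod_cast h1
  have hp6 : (n : ℝ) ^ 6 ≤ p := (pow_le_pow_right₀ hn1R (by norm_num)).trans hp10
  have hTle : T ≤ n := by
    refine le_trans ?_ hTn
    calc T = T ^ 1 := (pow_one T).symm
      _ ≤ T ^ 100 := Nat.pow_le_pow_right hT (by norm_num)
  have hT0 : (0 : ℝ) < T := by exact_mod_cast hT
  set A : ℝ := η1 ^ 2 * e / 4096 * (n : ℝ) ^ 2 * Real.log n / T with hA
  have hA2 : A / 2 = η1 ^ 2 * e / 8192 * (n : ℝ) ^ 2 * Real.log n / T := by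
    rw [hA]
    ring
  set S : Finset (ZMod p) := (univ : Finset (Fin n × Fin n)).image fun u => a u.1 + b u.2 with hS
  have hScard : #S = n ^ 2 := by
    rw [hS, card_image_of_injective]
    · rw [card_univ, Fintype.card_prod, Fintype.card_fin, sq]
    · intro u v huv
      obtain ⟨h1, h2⟩ := hinj _ _ _ _ huv
      exact Prod.ext h1 h2
  -- few accepted numbers
  have hfew : (#S : ℝ) + F ≤ κ / 16 * p := by
    have h1 : (F : ℝ) ≤ κ / 32 * p := by
      refine hF.trans ?_
      rw [div_le_iff₀ (by positivity)]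
      have h2 : (1 : ℝ) ≤ κ / 32 * (n : ℝ) ^ ε := by
        have h3 : κ * (n : ℝ) ^ ε = (n : ℝ) ^ (ε - e) := by
          rw [hκ, ← Real.rpow_add hn0]
          ring_nf
        have h4 : (n : ℝ) ^ (ε / 2) ≤ (n : ℝ) ^ (ε - e) :=
          Real.rpow_le_rpow_of_exponent_le hn1R (by linarith)
        have h5 := hn3 n hnn3
        linarith
      have h6 := mul_le_mul_of_nonneg_right h2 hpR.le
      linarith
    have h2 : (#S : ℝ) ≤ κ / 32 * p := by
      rw [hScard]
      push_cast
      have h3 : (n : ℝ) ^ (-(1 : ℝ)) ≤ κ := by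
        rw [hκ]
        exact Real.rpow_le_rpow_of_exponent_le hn1R (by linarith)
      rw [Real.rpow_neg_one] at h3
      have h4 : (n : ℝ)⁻¹ / 32 * (n : ℝ) ^ 10 ≤ κ / 32 * p := by gcongr
      refine le_trans ?_ h4
      have h5 : (n : ℝ)⁻¹ / 32 * (n : ℝ) ^ 10 = (n : ℝ) ^ 2 * ((n : ℝ) ^ 7 / 32) := by
        field_simp
      rw [h5]
      have h6 : (1 : ℝ) ≤ (n : ℝ) ^ 7 / 32 := by
        rw [le_div_iff₀ (by norm_num)]
        have h7 : (n : ℝ) ^ 1 ≤ (n : ℝ) ^ 7 := pow_le_pow_right₀ hn1R (by norm_num)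
        linarith
      have h8 : (0 : ℝ) ≤ (n : ℝ) ^ 2 := by positivity
      nlinarith
    linarith
  -- the good labellings for one advice
  set G : Fin H → Finset (ZMod p ≃ L) := fun α => univ.filter fun σ : ZMod p ≃ L =>
    (#{w : ZMod p | P.dec α (view (P.ask α) σ w T)} : ℝ) ≤ κ / 16 * p ∧
      η1 * (n : ℝ) ^ 2 ≤ (#{z ∈ S | P.dec α (view (P.ask α) σ z T)} : ℝ) with hG
  have hlogp : 3 * (T / ta) * Real.log p ≤ A / 2 := by
    rw [hA2]
    refine le_trans ?_ q9
    have h1 : Real.log p ≤ n * Real.log 2 := by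
      have h2 : (p : ℝ) ≤ (2 : ℝ) ^ n := by exact_mod_cast hp2
      have h3 := Real.log_le_log hpR h2
      rwa [Real.log_pow] at h3
    have h4 : 0 ≤ Real.log p := Real.log_natCast_nonneg p
    have h5 : (0 : ℝ) ≤ T / ta := by positivity
    calc 3 * (T / ta) * Real.log p ≤ 3 * (T / ta + 1) * Real.log p :=
          mul_le_mul_of_nonneg_right (by linarith) h4
      _ ≤ _ := mul_le_mul_of_nonneg_left h1 (by positivity)
  have hGα : ∀ α, (#(G α) : ℝ) * Real.exp (A / 2) ≤ (p.factorial : ℝ) := by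
    intro α
    refine fixedAdvice (P.ask α) T ta A hta0 hlogp (G α) ?_
    intro Q hQ hQc
    refine fixedQ hLc a b hinj hpair (P.ask α) (P.dec α) T hT κ θ ta e η1 _ _ q11 hepos hη1pos
      hη1le rfl hθ0 hta0 rfl rfl q1 q2 q3 q4 q5 q6 q7 q8 q10 hTle hp6 Q hQ hQc _ ?_
    intro σ hσ
    rw [mem_filter] at hσ
    have h1 := hσ.1
    simp only [hG, mem_filter] at h1
    exact ⟨h1.2.1, hσ.2, h1.2.2⟩
  -- all advices
  have hcard : (Nat.card {σ : ZMod p ≃ L // Works P T a b E F σ} : ℝ) ≤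
      ∑ α : Fin H, (#(G α) : ℝ) := by
    have h1 : Nat.card {σ : ZMod p ≃ L // Works P T a b E F σ} =
        #(univ.filter fun σ : ZMod p ≃ L => Works P T a b E F σ) := by
      rw [Nat.card_eq_fintype_card, Fintype.card_subtype]
    have h2 : (univ.filter fun σ : ZMod p ≃ L => Works P T a b E F σ) ⊆
        (univ : Finset (Fin H)).biUnion G := by
      intro σ hσ
      rw [mem_filter] at hσ
      obtain ⟨α, h3, h4⟩ := works_imp P T E F a b S hS σ hσ.2
      rw [mem_biUnion]
      refine ⟨α, mem_univ _, ?_⟩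
      simp only [hG, mem_filter]
      refine ⟨mem_univ _, h3.trans hfew, ?_⟩
      rw [hScard] at h4
      push_cast at h4
      have h5 : η1 * (n : ℝ) ^ 2 ≤ η * (n : ℝ) ^ 2 :=
        mul_le_mul_of_nonneg_right (min_le_left _ _) (by positivity)
      linarith
    rw [h1]
    exact_mod_cast (card_le_card h2).trans card_biUnion_le
  have hpow : (n : ℝ) ^ (η1 ^ 2 * e / 8192 * (n : ℝ) ^ 2 / T) = Real.exp (A / 2) := by
    rw [Real.rpow_def_of_pos hn0, hA2]
    congr 1
    ring
  rw [hpow]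
  calc (Nat.card {σ : ZMod p ≃ L // Works P T a b E F σ} : ℝ) * Real.exp (A / 2)
      ≤ (∑ α : Fin H, (#(G α) : ℝ)) * Real.exp (A / 2) :=
        mul_le_mul_of_nonneg_right hcard (Real.exp_pos _).le
    _ = ∑ α : Fin H, (#(G α) : ℝ) * Real.exp (A / 2) := by rw [sum_mul]
    _ ≤ ∑ _α : Fin H, (p.factorial : ℝ) := sum_le_sum fun α _ => hGα α
    _ = H * (p.factorial : ℝ) := by
        rw [sum_const, nsmul_eq_mul, card_univ, Fintype.card_fin]

end Pool.Agent.GGE
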