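import Mathlib
import Pool.Agent.GGU.Cyc
import Pool.Agent.GGU.Hash
import Pool.Agent.GGE.Mod

/-!
# The upper bound: a walk along the cycles of the permutation `hash ∘ label ∘ sum`
-/

namespace Pool.Agent.GGE

open Finset Pool.Agent.GGU

section walk

variable {K L : Type} [Semiring K] {N : ℕ}

/-- The first read is the label of the number asked about; afterwards the label `l` leads to the
element number `β (h l)`. -/
def wask (x : Fin N → K) (h : L → Fin N) (β : Fin N → Fin N) : List L → K × K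
  | [] => (1, 0)
  | l :: _ => (0, x (β (h l)))

/-- the labels read -/
def wlab (x : Fin N → K) (h : L → Fin N) (β : Fin N → Fin N) (σ : K → L) (z : K) : ℕ → L
  | 0 => σ z
  | k + 1 => σ (x (β (h (wlab x h β σ z k))))

/-- accept iff the first label read is read again -/
def wdec (l : List L) : Prop := ∃ (l' : List L) (a : L), l = l' ++ [a] ∧ a ∈ l'

theorem view_wask (x : Fin N → K) (h : L → Fin N) (β : Fin N → Fin N) (σ : K → L) (z : K)
    (k : ℕ) : ∃ l' : List L, view (wask x h β) σ z (k + 1) = l' ++ [σ z] ∧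
      (view (wask x h β) σ z (k + 1)).head? = some (wlab x h β σ z k) ∧
      ∀ a, a ∈ l' ↔ ∃ i, 1 ≤ i ∧ i ≤ k ∧ a = wlab x h β σ z i := by
  induction k with
  | zero =>
    have h1 : view (wask x h β) σ z (0 + 1) = [σ z] := by
      show [σ (fv (wask x h β []) z)] = [σ z]
      simp [wask, fv]
    refine ⟨[], ?_, ?_, ?_⟩
    · rw [h1]
      rfl
    · rw [h1]
      rfl
    · intro a
      constructor
      · intro h
        simp at h
      · rintro ⟨i, h1, h2, -⟩
        omega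
  | succ k ih =>
    obtain ⟨l', h1, h2, h3⟩ := ih
    have h4 : view (wask x h β) σ z (k + 1 + 1) =
        wlab x h β σ z (k + 1) :: view (wask x h β) σ z (k + 1) := by
      show σ (fv (wask x h β (view (wask x h β) σ z (k + 1))) z) ::
        view (wask x h β) σ z (k + 1) = _
      congr 1
      cases hv : view (wask x h β) σ z (k + 1) with
      | nil =>
        rw [hv] at h2
        simp at h2
      | cons a l =>
        rw [hv, List.head?_cons, Option.some.injEq] at h2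
        subst h2
        simp [wask, wlab, fv]
    refine ⟨wlab x h β σ z (k + 1) :: l', ?_, ?_, ?_⟩
    · rw [h4, h1]
      rfl
    · rw [h4]
      rfl
    · intro a
      rw [List.mem_cons, h3]
      constructor
      · rintro (rfl | ⟨i, h5, h6, h7⟩)
        · exact ⟨k + 1, by omega, le_rfl, rfl⟩
        · exact ⟨i, h5, by omega, h7⟩
      · rintro ⟨i, h5, h6, h7⟩
        rcases Nat.lt_succ_iff_lt_or_eq.1 (Nat.lt_succ_of_le h6) with h8 | h8
        · exact Or.inr ⟨i, h5, by omega, h7⟩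
        · left
          rw [h7, h8]

theorem wdec_iff (x : Fin N → K) (h : L → Fin N) (β : Fin N → Fin N) (σ : K → L) (z : K)
    (k : ℕ) : wdec (view (wask x h β) σ z (k + 1)) ↔
      ∃ i, 1 ≤ i ∧ i ≤ k ∧ wlab x h β σ z i = σ z := by
  obtain ⟨l', h1, -, h3⟩ := view_wask x h β σ z k
  rw [h1]
  unfold wdec
  constructor
  · rintro ⟨l'', a, h4, h5⟩
    obtain ⟨h6, h7⟩ := List.append_inj' h4 rfl
    rw [List.cons.injEq] at h7
    rw [← h6, ← h7.1, h3] at h5
    obtain ⟨i, h8, h9, h10⟩ := h5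
    exact ⟨i, h8, h9, h10.symm⟩
  · rintro ⟨i, h8, h9, h10⟩
    exact ⟨l', σ z, rfl, (h3 _).2 ⟨i, h8, h9, h10.symm⟩⟩

theorem wlab_eq (x : Fin N → K) (h : L → Fin N) (σ : K → L) (π β : Equiv.Perm (Fin N))
    (hπ : ∀ v, h (σ (x v)) = π v) (z : K) (d : ℕ) :
    wlab x h β σ z (d + 1) = σ (x (β (((π * β) ^ d) (h (σ z))))) := by
  induction d with
  | zero => simp [wlab]
  | succ d ih =>
    show σ (x (β (h (wlab x h β σ z (d + 1))))) = _
    rw [ih, hπ]
    have : ((π * β) ^ (d + 1)) (h (σ z)) = π (β (((π * β) ^ d) (h (σ z)))) := by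
      rw [pow_succ', Equiv.Perm.mul_apply]
      rfl
    rw [this]

/-- the walk finds the elements of the list and nothing else -/
theorem walk_iff (x : Fin N → K) (h : L → Fin N) (σ : K → L) (hσ : Function.Injective σ)
    (π β : Equiv.Perm (Fin N)) (hπ : ∀ v, h (σ (x v)) = π v) (k : ℕ)
    (hs : ∀ u, Short (π * β) (k + 1) u) (z : K) :
    wdec (view (wask x h β) σ z (k + 1)) ↔ ∃ v, x v = z := by
  rw [wdec_iff]
  constructor
  · rintro ⟨i, h1, -, h3⟩
    obtain ⟨d, rfl⟩ : ∃ d, i = d + 1 := ⟨i - 1, by omega⟩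
    exact ⟨_, hσ h3⟩
  · rintro ⟨v, rfl⟩
    obtain ⟨d, h1, h2, h3⟩ := hs (h (σ (x v)))
    obtain ⟨e, rfl⟩ : ∃ e, d = e + 1 := ⟨d - 1, by omega⟩
    refine ⟨e + 1, by omega, by omega, ?_⟩
    rw [wlab_eq x h σ π β hπ]
    rw [pow_succ', Equiv.Perm.mul_apply, Equiv.Perm.mul_apply] at h3
    rw [hπ] at h3 ⊢
    rw [π.injective h3]

end walk

theorem num_hash' (N : ℕ) (hN : 1 ≤ N) : N * 3 ^ N + 1 ≤ 8 ^ N := by
  induction N, hN using Nat.le_induction with
  | base => norm_num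
  | succ N hN ih =>
    have h1 : (N + 1) * 3 ^ (N + 1) + 1 ≤ 8 * (N * 3 ^ N + 1) := by
      have h2 : 3 ^ N ≤ N * 3 ^ N := Nat.le_mul_of_pos_left _ hN
      calc (N + 1) * 3 ^ (N + 1) + 1 = 3 * (N * 3 ^ N) + 3 * 3 ^ N + 1 := by ring
        _ ≤ 3 * (N * 3 ^ N) + 3 * (N * 3 ^ N) + 1 := by omega
        _ ≤ 8 * (N * 3 ^ N + 1) := by omega
    calc (N + 1) * 3 ^ (N + 1) + 1 ≤ 8 * (N * 3 ^ N + 1) := h1
      _ ≤ 8 * 8 ^ N := Nat.mul_le_mul_left _ ih
      _ = 8 ^ (N + 1) := by ring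

/-- the number of advice values -/
theorem num_up (n N T q : ℕ) (hN : 1 ≤ N) (hNn : N ≤ n ^ 2) (hT : 2 ≤ T) (hTn : 2 ^ T ≤ n)
    (hq : 1 ≤ q) :
    ((N : ℝ) * Real.log q * Real.exp N + 1) * ((N : ℝ) ^ 2) ^ (N / (T / 2)) ≤
      (n : ℝ) ^ (15 * (n : ℝ) ^ 2 / T) * (Real.logb 2 q + 1) := by
  have hn1 : 1 ≤ n := le_trans Nat.one_le_two_pow hTn
  have hnR : (1 : ℝ) ≤ n := by exact_mod_cast hn1
  have hn0 : (0 : ℝ) < n := by linarith
  have hTR : (2 : ℝ) ≤ T := by exact_mod_cast hT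
  have hT0 : (0 : ℝ) < T := by linarith
  have hNnR : (N : ℝ) ≤ (n : ℝ) ^ 2 := by exact_mod_cast hNn
  have hqR : (1 : ℝ) ≤ q := by exact_mod_cast hq
  have hlb : 0 ≤ Real.logb 2 q := Real.logb_nonneg (by norm_num) hqR
  -- the hash functions
  have h1 : (N : ℝ) * Real.log q * Real.exp N + 1 ≤
      (n : ℝ) ^ (3 * (n : ℝ) ^ 2 / T) * (Real.logb 2 q + 1) := by
    have h2 : Real.exp N ≤ (3 : ℝ) ^ N := by
      calc Real.exp N = Real.exp 1 ^ N := by
            rw [← Real.exp_nat_mul]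
            congr 1
            ring
        _ ≤ (3 : ℝ) ^ N := by
            refine pow_le_pow_left₀ (Real.exp_pos _).le ?_ N
            have := Real.exp_one_lt_d9
            linarith
    have h3 : Real.log q ≤ Real.logb 2 q := by
      have h4 : Real.logb 2 q = Real.log q / Real.log 2 := rfl
      have h5 : 0 ≤ Real.log q := Real.log_nonneg hqR
      have h6 : 0 < Real.log 2 := Real.log_pos (by norm_num)
      have h7 : Real.log 2 ≤ 1 := by
        have := Real.log_two_lt_d9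
        linarith
      rw [h4, le_div_iff₀ h6]
      calc Real.log q * Real.log 2 ≤ Real.log q * 1 := mul_le_mul_of_nonneg_left h7 h5
        _ = Real.log q := mul_one _
    have h4 : ((N : ℝ) * 3 ^ N + 1) ≤ 8 ^ N := by exact_mod_cast num_hash' N hN
    have h5 : (8 : ℝ) ^ N ≤ (n : ℝ) ^ (3 * (n : ℝ) ^ 2 / T) := by
      have h6 : (8 : ℝ) ^ N = ((2 : ℝ) ^ T) ^ (3 * (N : ℝ) / T) := by
        rw [← Real.rpow_natCast 2 T, ← Real.rpow_mul (by norm_num)]
        rw [mul_div_cancel₀ _ hT0.ne', Real.rpow_mul (by norm_num), Real.rpow_natCast]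
        norm_num
      have h7 : ((2 : ℝ) ^ T) ≤ n := by exact_mod_cast hTn
      rw [h6]
      calc ((2 : ℝ) ^ T) ^ (3 * (N : ℝ) / T) ≤ (n : ℝ) ^ (3 * (N : ℝ) / T) :=
            Real.rpow_le_rpow (by positivity) h7 (by positivity)
        _ ≤ (n : ℝ) ^ (3 * (n : ℝ) ^ 2 / T) :=
            Real.rpow_le_rpow_of_exponent_le hnR
              (div_le_div_of_nonneg_right (by linarith) hT0.le)
    calc (N : ℝ) * Real.log q * Real.exp N + 1
        ≤ N * Real.logb 2 q * 3 ^ N + 1 := by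
          have : (N : ℝ) * Real.log q * Real.exp N ≤ N * Real.logb 2 q * 3 ^ N :=
            mul_le_mul (mul_le_mul_of_nonneg_left h3 (by positivity)) h2
              (Real.exp_pos _).le (by positivity)
          linarith
      _ ≤ (N * 3 ^ N + 1) * (Real.logb 2 q + 1) := by
          have h8 : (0 : ℝ) ≤ N * 3 ^ N := by positivity
          nlinarith
      _ ≤ 8 ^ N * (Real.logb 2 q + 1) := mul_le_mul_of_nonneg_right h4 (by linarith)
      _ ≤ _ := mul_le_mul_of_nonneg_right h5 (by linarith)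
  -- the transpositions
  have h2 : ((N : ℝ) ^ 2) ^ (N / (T / 2)) ≤ (n : ℝ) ^ (12 * (n : ℝ) ^ 2 / T) := by
    set t := T / 2 with ht
    set m := N / t with hm
    have htR : (T : ℝ) / 3 ≤ t := by
      have h3 : T ≤ 3 * t := by omega
      have h4 : (T : ℝ) ≤ 3 * t := by exact_mod_cast h3
      linarith
    have hmR : (m : ℝ) ≤ 3 * N / T := by
      have h3 : m * t ≤ N := Nat.div_mul_le_self N t
      have h4 : (m : ℝ) * t ≤ N := by exact_mod_cast h3
      rw [le_div_iff₀ hT0]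
      have h5 : (m : ℝ) * (T / 3) ≤ m * t := mul_le_mul_of_nonneg_left htR (Nat.cast_nonneg _)
      linarith
    have h3 : ((N : ℝ) ^ 2) ^ m ≤ ((n : ℝ) ^ 4) ^ m := by
      refine pow_le_pow_left₀ (by positivity) ?_ m
      calc (N : ℝ) ^ 2 ≤ ((n : ℝ) ^ 2) ^ 2 := pow_le_pow_left₀ (by positivity) hNnR 2
        _ = (n : ℝ) ^ 4 := by ring
    have h4 : ((n : ℝ) ^ 4) ^ m = (n : ℝ) ^ ((4 * m : ℕ) : ℝ) := by
      rw [Real.rpow_natCast, pow_mul]
    rw [h4] at h3
    refine h3.trans (Real.rpow_le_rpow_of_exponent_le hnR ?_)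
    push_cast
    calc 4 * (m : ℝ) ≤ 4 * (3 * N / T) := by linarith
      _ = 12 * N / T := by ring
      _ ≤ 12 * (n : ℝ) ^ 2 / T := div_le_div_of_nonneg_right (by linarith) hT0.le
  calc ((N : ℝ) * Real.log q * Real.exp N + 1) * ((N : ℝ) ^ 2) ^ (N / (T / 2))
      ≤ ((n : ℝ) ^ (3 * (n : ℝ) ^ 2 / T) * (Real.logb 2 q + 1)) *
        (n : ℝ) ^ (12 * (n : ℝ) ^ 2 / T) := by
        refine mul_le_mul h1 h2 (by positivity) ?_
        exact mul_nonneg (by positivity) (by linarith)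
    _ = (n : ℝ) ^ (15 * (n : ℝ) ^ 2 / T) * (Real.logb 2 q + 1) := by
        rw [mul_right_comm, ← Real.rpow_add hn0]
        congr 2
        ring

/-- **The upper bound.** -/
theorem upperI (p : ℕ) (hp : p.Prime) (n T : ℕ) (hT : 2 ≤ T) (hTn : 2 ^ T ≤ n)
    (a b : Fin n → ZMod p) (L : Type) [Fintype L] :
    ∃ (H : ℕ) (P : AScheme (ZMod p) L H),
      (H : ℝ) ≤ (n : ℝ) ^ (15 * (n : ℝ) ^ 2 / T) * (Real.logb 2 (Fintype.card L) + 1) ∧
      ∀ σ : ZMod p → L, Function.Injective σ → Works P T a b 0 0 σ := by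
  classical
  have hp0 : NeZero p := ⟨hp.pos.ne'⟩
  have hn1 : 1 ≤ n := le_trans Nat.one_le_two_pow hTn
  by_cases hex : ∃ σ : ZMod p → L, Function.Injective σ
  swap
  · refine ⟨0, ⟨fun i => i.elim0, fun i => i.elim0⟩, ?_, fun σ hσ => absurd ⟨σ, hσ⟩ hex⟩
    have h1 : 0 ≤ Real.logb 2 (Fintype.card L) := by
      rcases Nat.eq_zero_or_pos (Fintype.card L) with h | h
      · rw [h]
        simp
      · exact Real.logb_nonneg (by norm_num) (by exact_mod_cast h)
    simp only [Nat.cast_zero]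
    exact mul_nonneg (Real.rpow_nonneg (Nat.cast_nonneg _) _) (by linarith)
  obtain ⟨σ₀, hσ₀⟩ := hex
  set S : Finset (ZMod p) := univ.image fun u : Fin n × Fin n => a u.1 + b u.2 with hSdef
  have hS1 : 1 ≤ #S := by
    rw [Nat.one_le_iff_ne_zero, ← Nat.pos_iff_ne_zero, card_pos]
    exact ⟨a ⟨0, hn1⟩ + b ⟨0, hn1⟩, mem_image.mpr ⟨(⟨0, hn1⟩, ⟨0, hn1⟩), mem_univ _, rfl⟩⟩
  have hSn : #S ≤ n ^ 2 := by
    refine card_image_le.trans ?_
    simp [sq]
  set N := #S with hN
  set t := T / 2 with ht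
  set m := N / t with hm
  have ht0 : 0 < t := by omega
  have hNL : N ≤ Fintype.card L := by
    refine (card_le_univ S).trans ?_
    exact Fintype.card_le_of_injective σ₀ hσ₀
  obtain ⟨F, h, hF, hh⟩ := exists_hash L N hS1 hNL
  have hNE : Nonempty (Fin N) := ⟨⟨0, hS1⟩⟩
  -- the enumeration of the set
  let x : Fin N → ZMod p := fun v => (S.equivFin.symm v).1
  have hx : Function.Injective x := by
    intro v w hvw
    exact S.equivFin.symm.injective (Subtype.ext hvw)
  have hxS : ∀ z, (∃ v, x v = z) ↔ IsSum a b z := by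
    intro z
    constructor
    · rintro ⟨v, rfl⟩
      obtain ⟨u, -, hu⟩ := mem_image.1 (S.equivFin.symm v).2
      exact ⟨u.1, u.2, hu⟩
    · rintro ⟨i, j, hij⟩
      have hz : z ∈ S := mem_image.2 ⟨(i, j), mem_univ _, hij⟩
      exact ⟨S.equivFin ⟨z, hz⟩, by simp [x]⟩
  -- the advice
  let Adv := Fin F × (Fin m → Fin N × Fin N)
  let e : Fin (Fintype.card Adv) ≃ Adv := (Fintype.equivFin Adv).symm
  refine ⟨Fintype.card Adv, ⟨fun i => wask x (h (e i).1) (trf (e i).2), fun _ => wdec⟩, ?_, ?_⟩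
  · have h1 := num_up n N T (Fintype.card L) hS1 hSn hT hTn (hS1.trans hNL)
    refine le_trans ?_ h1
    have h2 : (Fintype.card Adv : ℝ) = F * ((N : ℝ) ^ 2) ^ m := by
      have h3 : Fintype.card Adv = F * (N * N) ^ m := by
        rw [Fintype.card_prod, Fintype.card_fun, Fintype.card_prod, Fintype.card_fin,
          Fintype.card_fin, Fintype.card_fin]
      rw [h3]
      push_cast
      rw [sq]
    rw [h2]
    exact mul_le_mul_of_nonneg_right hF (by positivity)
  · intro σ hσ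
    obtain ⟨i, hi⟩ := hh (fun v => σ (x v)) (hσ.comp hx)
    obtain ⟨s, hs⟩ := exists_cut' t m ht0 (by rw [Fintype.card_fin]) (Equiv.ofBijective _ hi)
    obtain ⟨k, hk⟩ : ∃ k, T = k + 1 := ⟨T - 1, by omega⟩
    have key : ∀ z, Accepts (⟨fun i => wask x (h (e i).1) (trf (e i).2), fun _ => wdec⟩ :
        AScheme (ZMod p) L (Fintype.card Adv)) T σ (e.symm (i, s)) z ↔ IsSum a b z := by
      intro z
      unfold Accepts
      simp only [Equiv.apply_symm_apply]
      rw [← hxS, hk]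
      refine walk_iff x (h i) σ hσ (Equiv.ofBijective _ hi) (trf s) (fun v => rfl) k ?_ z
      intro u
      obtain ⟨d, h1, h2, h3⟩ := hs u
      exact ⟨d, h1, by omega, h3⟩
    refine ⟨e.symm (i, s), ?_, ?_⟩
    · have : {z | IsSum a b z ∧ ¬ Accepts (⟨fun i => wask x (h (e i).1) (trf (e i).2),
          fun _ => wdec⟩ : AScheme (ZMod p) L (Fintype.card Adv)) T σ (e.symm (i, s)) z} = ∅ := by
        ext z
        simp only [key, Set.mem_ofPred_eq, Set.mem_empty_iff_false, iff_false]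
        tauto
      rw [this]
      simp
    · have : {z | ¬ IsSum a b z ∧ Accepts (⟨fun i => wask x (h (e i).1) (trf (e i).2),
          fun _ => wdec⟩ : AScheme (ZMod p) L (Fintype.card Adv)) T σ (e.symm (i, s)) z} = ∅ := by
        ext z
        simp only [key, Set.mem_ofPred_eq, Set.mem_empty_iff_false, iff_false]
        tauto
      rw [this]
      simp

end Pool.Agent.GGE
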